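import Pool.Agent.Lib.MP_417c68_gt_D.BlkA

/-!
# MP_417c68_gt, module BlkB: groups and their symmetric parts
-/

noncomputable section

namespace Pool.Agent.MP_417c68_gt

open Matrix NormedSpace

variable {n : ℕ} {N : Fin n → ℕ} {G H L : Subgroup (Alg N)ˣ}

theorem cj_one (H : Subgroup (Alg N)ˣ) : cj 1 H = H := by
  ext g
  rw [mem_cj, inv_one, one_mul, mul_one]

theorem cj_cj (a b : (Alg N)ˣ) (H : Subgroup (Alg N)ˣ) : cj a (cj b H) = cj (a * b) H := by
  ext g
  rw [mem_cj, mem_cj, mem_cj]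
  have h : b⁻¹ * (a⁻¹ * g * a) * b = (a * b)⁻¹ * g * (a * b) := by group
  rw [h]

theorem cj_le' (hHG : H ≤ G) {a : (Alg N)ˣ} (ha : a ∈ G) : cj a H ≤ G := by
  intro g hg
  have h1 := hHG (mem_cj.1 hg)
  have h2 : g = a * (a⁻¹ * g * a) * a⁻¹ := by group
  rw [h2]
  exact G.mul_mem (G.mul_mem ha h1) (G.inv_mem ha)

theorem eu_mem {X : Alg N} (hX : X ∈ pp H) : eu X ∈ H := by
  have h := hX.2 1
  rwa [one_smul] at h

theorem pp_zero : (0 : Alg N) ∈ pp H := by
  refine ⟨fun i => ?_, fun t => ?_⟩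
  · show (0 : Matrix (Fin (N i)) (Fin (N i)) ℝ)ᵀ = 0
    exact Matrix.transpose_zero
  · rw [smul_zero, eu_zero]
    exact H.one_mem

theorem pp_smul (c : ℝ) {X : Alg N} (hX : X ∈ pp H) : c • X ∈ pp H := by
  refine ⟨fun i => ?_, lie_smul c hX.2⟩
  rw [Pi.smul_apply, Matrix.transpose_smul, hX.1 i]

theorem pp_neg {X : Alg N} (hX : X ∈ pp H) : -X ∈ pp H := by
  have h := pp_smul (-1) hX
  rwa [neg_one_smul] at h

theorem pp_add (hH : SelfAdj H) {X Y : Alg N} (hX : X ∈ pp H) (hY : Y ∈ pp H) : X + Y ∈ pp H := by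
  refine ⟨fun i => ?_, lie_add hH.closed hX.2 hY.2⟩
  rw [Pi.add_apply, Matrix.transpose_add, hX.1 i, hY.1 i]

theorem pp_sub (hH : SelfAdj H) {X Y : Alg N} (hX : X ∈ pp H) (hY : Y ∈ pp H) : X - Y ∈ pp H := by
  rw [sub_eq_add_neg]
  exact pp_add hH hX (pp_neg hY)

theorem isClosed_pp (hH : SelfAdj H) : IsClosed (pp H : Set (Alg N)) := by
  have h : (pp H : Set (Alg N)) = (⋂ i, {X : Alg N | (X i)ᵀ = X i}) ∩
      ⋂ t : ℝ, (fun X : Alg N => eu (t • X)) ⁻¹' (H : Set (Alg N)ˣ) := by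
    ext X
    rw [Set.mem_inter_iff, Set.mem_iInter, Set.mem_iInter]
    rfl
  rw [h]
  refine IsClosed.inter (isClosed_iInter fun i => ?_) (isClosed_iInter fun t => ?_)
  · exact isClosed_eq (Continuous.matrix_transpose (continuous_apply i)) (continuous_apply i)
  · have h1 : Continuous fun X : Alg N => t • X := continuous_const_smul t
    exact hH.closed.preimage (continuous_eu.comp h1)

theorem mem_LI {J : Finset (Fin n)} {g : (Alg N)ˣ} : g ∈ LI G J ↔ g ∈ G ∧ ∀ i ∈ J, g.1 i = 1 :=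
  Iff.rfl

theorem LI_le (J : Finset (Fin n)) : LI G J ≤ G := fun _ h => h.1

theorem LI_mono (h : H ≤ G) (J : Finset (Fin n)) : LI H J ≤ LI G J := fun _ hg => ⟨h hg.1, hg.2⟩

theorem tru_LI {J : Finset (Fin n)} {g : (Alg N)ˣ} (h : g ∈ LI G J) : tru Jᶜ g = g := by
  refine Units.ext (funext fun i => ?_)
  by_cases hi : i ∈ J
  · rw [tru_out (fun h' => (Finset.mem_compl.1 h') hi), h.2 i hi]
  · rw [tru_in (Finset.mem_compl.2 hi)]

theorem mem_pp_LI {J : Finset (Fin n)} {X : Alg N} :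
    X ∈ pp (LI G J) ↔ X ∈ pp G ∧ ∀ i ∈ J, X i = 0 := by
  constructor
  · intro h
    refine ⟨⟨h.1, fun t => (h.2 t).1⟩, fun i hi => ?_⟩
    have h1 := (h.2 1).2 i hi
    rw [one_smul] at h1
    exact zero_of_exp (h.1 i) h1
  · intro h
    refine ⟨h.1.1, fun t => ⟨h.1.2 t, fun i hi => ?_⟩⟩
    show exp ((t • X) i) = 1
    rw [Pi.smul_apply, h.2 i hi, smul_zero, exp_zero]

theorem mem_pp_LI_compl {I : Finset (Fin n)} {X : Alg N} :
    X ∈ pp (LI G Iᶜ) ↔ X ∈ pp G ∧ trA I X = X := by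
  rw [mem_pp_LI]
  refine and_congr_right fun _ => ⟨fun h => ?_, fun h i hi => ?_⟩
  · funext i
    by_cases hi : i ∈ I
    · rw [trA_in hi]
    · rw [trA_out hi, h i (Finset.mem_compl.2 hi)]
  · rw [← h]
    exact trA_out (Finset.mem_compl.1 hi)

theorem trA_eq_self_iff {I : Finset (Fin n)} {X : Alg N} : trA I X = X ↔ trA Iᶜ X = 0 := by
  have h := trA_add_compl I X
  constructor
  · intro h1
    rw [h1] at h
    exact add_eq_left.1 h
  · intro h1
    rwa [h1, add_zero] at h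

theorem pp_trA {I : Finset (Fin n)} (hG : SplitAt G I) {X : Alg N} (hX : X ∈ pp G) :
    trA I X ∈ pp G := by
  refine ⟨fun i => ?_, fun t => ?_⟩
  · by_cases hi : i ∈ I
    · rw [trA_in hi, hX.1 i]
    · rw [trA_out hi, Matrix.transpose_zero]
  · rw [← trA_smul, eu_trA]
    exact hG _ (hX.2 t)

theorem splitAt_compl {I : Finset (Fin n)} (hG : SplitAt G I) : SplitAt G Iᶜ := by
  intro g hg
  have h : tru Iᶜ g = (tru I g)⁻¹ * g := by
    rw [eq_inv_mul_iff_mul_eq]
    exact tru_mul_compl I g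
  rw [h]
  exact G.mul_mem (G.inv_mem (hG g hg)) hg

theorem splitAt_inter {I J : Finset (Fin n)} (hI : SplitAt G I) (hJ : SplitAt G J) :
    SplitAt G (I ∩ J) := by
  intro g hg
  rw [← tru_tru]
  exact hI _ (hJ g hg)

theorem splitAt_of_forall {I : Finset (Fin n)} (h : ∀ i ∈ I, SplitAt G {i}) : SplitAt G I := by
  classical
  induction I using Finset.induction_on with
  | empty =>
    intro g _
    have h1 : tru (∅ : Finset (Fin n)) g = 1 := by
      refine Units.ext (funext fun i => ?_)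
      rw [tru_out (Finset.notMem_empty i)]
      rfl
    rw [h1]
    exact G.one_mem
  | insert i I hi ih =>
    intro g hg
    have h1 : tru (insert i I) g = tru {i} g * tru I g := by
      refine Units.ext (funext fun j => ?_)
      show (tru (insert i I) g).1 j = (tru {i} g).1 j * (tru I g).1 j
      by_cases hj : j = i
      · subst hj
        rw [tru_in (Finset.mem_insert_self j I), tru_in (Finset.mem_singleton_self j),
          tru_out hi, mul_one]
      · by_cases hjI : j ∈ I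
        · rw [tru_in (Finset.mem_insert_of_mem hjI),
            tru_out (fun h' => hj (Finset.mem_singleton.1 h')), tru_in hjI, one_mul]
        · rw [tru_out (fun h' => (Finset.mem_insert.1 h').elim hj hjI),
            tru_out (fun h' => hj (Finset.mem_singleton.1 h')), tru_out hjI, one_mul]
    rw [h1]
    exact G.mul_mem (h i (Finset.mem_insert_self i I) g hg)
      (ih (fun j hj => h j (Finset.mem_insert_of_mem hj)) g hg)

theorem splitAt_LI {I : Finset (Fin n)} (hG : SplitAt G I) (J : Finset (Fin n)) :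
    SplitAt (LI G J) I := by
  intro g hg
  refine ⟨hG g hg.1, fun i hi => ?_⟩
  by_cases hiI : i ∈ I
  · rw [tru_in hiI]
    exact hg.2 i hi
  · exact tru_out hiI

end Pool.Agent.MP_417c68_gt
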