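import Pool.Agent.Lib.MP_417c68_gt_D.BlkA

/-!
# MP_417c68_gt, module BlkC: the trace form, continuity
-/

noncomputable section

namespace Pool.Agent.MP_417c68_gt

open Matrix NormedSpace

variable {n : ℕ} {N : Fin n → ℕ} {G H L : Subgroup (Alg N)ˣ}

theorem ip_comm (X Y : Alg N) : ip X Y = ip Y X := by
  unfold ip
  exact Finset.sum_congr rfl fun i _ => Matrix.trace_mul_comm _ _

theorem ip_add_left (X Y Z : Alg N) : ip (X + Y) Z = ip X Z + ip Y Z := by
  unfold ip
  rw [← Finset.sum_add_distrib]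
  refine Finset.sum_congr rfl fun i _ => ?_
  rw [Pi.add_apply, add_mul, Matrix.trace_add]

theorem ip_sub_left (X Y Z : Alg N) : ip (X - Y) Z = ip X Z - ip Y Z := by
  unfold ip
  rw [← Finset.sum_sub_distrib]
  refine Finset.sum_congr rfl fun i _ => ?_
  rw [Pi.sub_apply, sub_mul, Matrix.trace_sub]

theorem ip_smul_left (c : ℝ) (X Y : Alg N) : ip (c • X) Y = c * ip X Y := by
  unfold ip
  rw [Finset.mul_sum]
  refine Finset.sum_congr rfl fun i _ => ?_
  rw [Pi.smul_apply, smul_mul_assoc, Matrix.trace_smul, smul_eq_mul]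

theorem ip_zero_left (Y : Alg N) : ip 0 Y = 0 := by
  unfold ip
  refine Finset.sum_eq_zero fun i _ => ?_
  rw [Pi.zero_apply, zero_mul, Matrix.trace_zero]

theorem ip_nonneg {X : Alg N} (hX : ∀ i, (X i)ᵀ = X i) : 0 ≤ ip X X :=
  Finset.sum_nonneg fun i _ => sq_nonneg' (hX i)

theorem ip_self_zero {X : Alg N} (hX : ∀ i, (X i)ᵀ = X i) (h : ip X X = 0) : X = 0 := by
  funext i
  exact zero_of_sq (hX i) ((Finset.sum_eq_zero_iff_of_nonneg
    fun i _ => sq_nonneg' (hX i)).1 h i (Finset.mem_univ i))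

theorem ip_cA (k : (Alg N)ˣ) (X Y : Alg N) : ip (cA k X) (cA k Y) = ip X Y := by
  unfold ip
  refine Finset.sum_congr rfl fun i _ => ?_
  have h1 : (k⁻¹).1 i * k.1 i = 1 := congrFun k.inv_mul i
  have h2 : cA k X i * cA k Y i = k.1 i * (X i * Y i * (k⁻¹).1 i) := by
    calc cA k X i * cA k Y i
        = k.1 i * X i * (k⁻¹).1 i * (k.1 i * Y i * (k⁻¹).1 i) := rfl
      _ = k.1 i * X i * ((k⁻¹).1 i * k.1 i) * Y i * (k⁻¹).1 i := by
        simp only [Matrix.mul_assoc]
      _ = _ := by
        rw [h1, Matrix.mul_one]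
        simp only [Matrix.mul_assoc]
  rw [h2, Matrix.trace_mul_comm, Matrix.mul_assoc, h1, Matrix.mul_one]

theorem ip_trA (I : Finset (Fin n)) (X Y : Alg N) : ip (trA I X) Y = ip X (trA I Y) := by
  unfold ip
  refine Finset.sum_congr rfl fun i _ => ?_
  by_cases h : i ∈ I
  · rw [trA_in h, trA_in h]
  · rw [trA_out h, trA_out h, zero_mul, mul_zero]

theorem ip_trA_trA (I : Finset (Fin n)) (X Y : Alg N) :
    ip (trA I X) (trA I Y) = ip (trA I X) Y := by
  unfold ip
  refine Finset.sum_congr rfl fun i _ => ?_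
  by_cases h : i ∈ I
  · rw [trA_in h, trA_in h]
  · rw [trA_out h, trA_out h, zero_mul, zero_mul]

theorem ip_split (I : Finset (Fin n)) (X Y : Alg N) :
    ip X Y = ip (trA I X) (trA I Y) + ip (trA Iᶜ X) (trA Iᶜ Y) := by
  unfold ip
  rw [← Finset.sum_add_distrib]
  refine Finset.sum_congr rfl fun i _ => ?_
  by_cases h : i ∈ I
  · have h' : i ∉ Iᶜ := fun hc => Finset.mem_compl.1 hc h
    rw [trA_in h, trA_in h, trA_out h', trA_out h', zero_mul, Matrix.trace_zero, add_zero]
  · have h' : i ∈ Iᶜ := Finset.mem_compl.2 h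
    rw [trA_out h, trA_out h, trA_in h', trA_in h', zero_mul, Matrix.trace_zero, zero_add]

theorem continuous_trA (I : Finset (Fin n)) : Continuous (trA I : Alg N → Alg N) := by
  refine continuous_pi fun i => ?_
  by_cases h : i ∈ I
  · have h1 : (fun X : Alg N => trA I X i) = fun X => X i := funext fun X => trA_in h
    rw [h1]
    exact continuous_apply i
  · have h1 : (fun X : Alg N => trA I X i) = fun _ => 0 := funext fun X => trA_out h
    rw [h1]
    exact continuous_const

theorem continuous_cA : Continuous (fun p : (Alg N)ˣ × Alg N => cA p.1 p.2) := by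
  have h1 : Continuous (fun p : (Alg N)ˣ × Alg N => (p.1).1) :=
    Units.continuous_val.comp continuous_fst
  have h2 : Continuous (fun p : (Alg N)ˣ × Alg N => ((p.1)⁻¹).1) :=
    Units.continuous_val.comp (continuous_inv.comp continuous_fst)
  exact (h1.mul continuous_snd).mul h2

theorem continuous_ip : Continuous (fun p : Alg N × Alg N => ip p.1 p.2) := by
  unfold ip
  refine continuous_finsetSum _ fun i _ => ?_
  have h1 : Continuous (fun p : Alg N × Alg N => p.1 i) :=
    (continuous_apply i).comp continuous_fst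
  have h2 : Continuous (fun p : Alg N × Alg N => p.2 i) :=
    (continuous_apply i).comp continuous_snd
  exact (h1.mul h2).matrix_trace

private theorem BlkC_fr {m : ℕ} (A : Matrix (Fin m) (Fin m) ℝ) :
    fr A = ∑ j, ∑ k, A k j ^ 2 := by
  unfold fr
  rw [Matrix.trace]
  refine Finset.sum_congr rfl fun j _ => ?_
  rw [Matrix.diag_apply, Matrix.mul_apply]
  refine Finset.sum_congr rfl fun k _ => ?_
  rw [Matrix.transpose_apply]
  ring

private theorem BlkC_entry {m : ℕ} (A : Matrix (Fin m) (Fin m) ℝ) (j k : Fin m) :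
    A j k ^ 2 ≤ fr A := by
  rw [BlkC_fr]
  have h1 : A j k ^ 2 ≤ ∑ k', A k' k ^ 2 :=
    Finset.single_le_sum (f := fun k' => A k' k ^ 2) (fun _ _ => sq_nonneg _) (Finset.mem_univ j)
  exact h1.trans (Finset.single_le_sum (f := fun j' => ∑ k', A k' j' ^ 2)
    (fun _ _ => Finset.sum_nonneg fun _ _ => sq_nonneg _) (Finset.mem_univ k))

private theorem BlkC_nonneg {m : ℕ} (A : Matrix (Fin m) (Fin m) ℝ) : 0 ≤ fr A := by
  rw [BlkC_fr]
  exact Finset.sum_nonneg fun _ _ => Finset.sum_nonneg fun _ _ => sq_nonneg _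

private theorem BlkC_box (N : Fin n → ℕ) (R : ℝ) :
    IsCompact (Set.pi Set.univ fun i : Fin n => {A : Matrix (Fin (N i)) (Fin (N i)) ℝ |
      ∀ j k, A j k ∈ Set.Icc (-Real.sqrt R) (Real.sqrt R)}) := by
  refine isCompact_univ_pi fun i => ?_
  have h1 : IsCompact (Set.pi Set.univ fun _ : Fin (N i) =>
      Set.pi Set.univ fun _ : Fin (N i) => Set.Icc (-Real.sqrt R) (Real.sqrt R)) :=
    isCompact_univ_pi fun _ => isCompact_univ_pi fun _ => isCompact_Icc
  have h2 : {A : Matrix (Fin (N i)) (Fin (N i)) ℝ |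
      ∀ j k, A j k ∈ Set.Icc (-Real.sqrt R) (Real.sqrt R)} =
      (Set.pi Set.univ fun _ : Fin (N i) =>
      Set.pi Set.univ fun _ : Fin (N i) => Set.Icc (-Real.sqrt R) (Real.sqrt R)) := by
    apply Set.ext
    intro A
    constructor
    · intro h j _ k _
      exact h j k
    · intro h j k
      exact h j (Set.mem_univ _) k (Set.mem_univ _)
  rw [h2]
  exact h1

theorem isCompact_symm_ball (N : Fin n → ℕ) (c : ℝ) :
    IsCompact {X : Alg N | (∀ i, (X i)ᵀ = X i) ∧ ip X X ≤ c} := by
  refine (BlkC_box N c).of_isClosed_subset ?_ ?_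
  · have h1 : IsClosed {X : Alg N | ∀ i, (X i)ᵀ = X i} := by
      have h2 : {X : Alg N | ∀ i, (X i)ᵀ = X i} = ⋂ i, {X : Alg N | (X i)ᵀ = X i} := by
        ext X
        rw [Set.mem_iInter]
        rfl
      rw [h2]
      exact isClosed_iInter fun i =>
        isClosed_eq (continuous_apply i).matrix_transpose (continuous_apply i)
    have h3 : IsClosed {X : Alg N | ip X X ≤ c} :=
      isClosed_le (continuous_ip.comp (continuous_id.prodMk continuous_id)) continuous_const
    exact h1.inter h3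
  · rintro X ⟨hX, hc⟩ i _ j k
    have h1 : ip X X = ∑ i, fr (X i) := by
      unfold ip fr
      exact Finset.sum_congr rfl fun i _ => by rw [hX i]
    have h2 : fr (X i) ≤ ∑ i, fr (X i) :=
      Finset.single_le_sum (f := fun i => fr (X i)) (fun i _ => BlkC_nonneg _)
        (Finset.mem_univ i)
    have h3 : X i j k ^ 2 ≤ c := (BlkC_entry (X i) j k).trans (h2.trans (h1.symm.le.trans hc))
    have h4 := Real.abs_le_sqrt h3
    rw [abs_le] at h4
    exact h4

theorem symm_trA {I : Finset (Fin n)} {X : Alg N} (hX : ∀ i, (X i)ᵀ = X i) (i : Fin n) :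
    (trA I X i)ᵀ = trA I X i := by
  by_cases h : i ∈ I
  · rw [trA_in h, hX i]
  · rw [trA_out h, Matrix.transpose_zero]

end Pool.Agent.MP_417c68_gt
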