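import Pool.Agent.Lib.MP_417c68_gt_D.Defs

/-!
# MP_417c68_gt, module BlkA: truncations and conjugations
-/

noncomputable section

namespace Pool.Agent.MP_417c68_gt

open Matrix NormedSpace

variable {n : ℕ} {N : Fin n → ℕ} {G H L : Subgroup (Alg N)ˣ}

theorem tru_tru (I J : Finset (Fin n)) (g : (Alg N)ˣ) : tru I (tru J g) = tru (I ∩ J) g := by
  refine Units.ext (funext fun i => ?_)
  by_cases hI : i ∈ I
  · rw [tru_in hI]
    by_cases hJ : i ∈ J
    · rw [tru_in hJ, tru_in (Finset.mem_inter.2 ⟨hI, hJ⟩)]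
    · rw [tru_out hJ, tru_out (fun h => hJ (Finset.mem_inter.1 h).2)]
  · rw [tru_out hI, tru_out (fun h => hI (Finset.mem_inter.1 h).1)]

theorem tru_mul_compl (I : Finset (Fin n)) (g : (Alg N)ˣ) : tru I g * tru Iᶜ g = g := by
  refine Units.ext (funext fun i => ?_)
  show (tru I g).1 i * (tru Iᶜ g).1 i = g.1 i
  by_cases hI : i ∈ I
  · rw [tru_in hI, tru_out (fun h => (Finset.mem_compl.1 h) hI), mul_one]
  · rw [tru_out hI, tru_in (Finset.mem_compl.2 hI), one_mul]

theorem tru_univ (g : (Alg N)ˣ) : tru Finset.univ g = g := by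
  refine Units.ext (funext fun i => ?_)
  rw [tru_in (Finset.mem_univ i)]

theorem continuous_tru (I : Finset (Fin n)) : Continuous (tru I : (Alg N)ˣ → (Alg N)ˣ) := by
  rw [Units.continuous_iff]
  refine ⟨continuous_pi fun i => ?_, continuous_pi fun i => ?_⟩
  · by_cases hI : i ∈ I
    · have h : (fun g : (Alg N)ˣ => (tru I g).1 i) = fun g => g.1 i := by
        funext g
        exact tru_in hI
      show Continuous (fun g : (Alg N)ˣ => (tru I g).1 i)
      rw [h]
      exact (continuous_apply i).comp Units.continuous_val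
    · have h : (fun g : (Alg N)ˣ => (tru I g).1 i) = fun g => 1 := by
        funext g
        exact tru_out hI
      show Continuous (fun g : (Alg N)ˣ => (tru I g).1 i)
      rw [h]
      exact continuous_const
  · by_cases hI : i ∈ I
    · have h : (fun g : (Alg N)ˣ => ((tru I g)⁻¹).1 i) = fun g => (g⁻¹).1 i := by
        funext g
        exact tru_inv_in hI
      show Continuous (fun g : (Alg N)ˣ => ((tru I g)⁻¹).1 i)
      rw [h]
      exact (continuous_apply i).comp (Units.continuous_val.comp continuous_inv)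
    · have h : (fun g : (Alg N)ˣ => ((tru I g)⁻¹).1 i) = fun g => 1 := by
        funext g
        exact tru_inv_out hI
      show Continuous (fun g : (Alg N)ˣ => ((tru I g)⁻¹).1 i)
      rw [h]
      exact continuous_const

theorem trA_add_compl (I : Finset (Fin n)) (X : Alg N) : trA I X + trA Iᶜ X = X := by
  funext i
  show trA I X i + trA Iᶜ X i = X i
  by_cases hI : i ∈ I
  · rw [trA_in hI, trA_out (fun h => (Finset.mem_compl.1 h) hI), add_zero]
  · rw [trA_out hI, trA_in (Finset.mem_compl.2 hI), zero_add]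

theorem trA_trA (I J : Finset (Fin n)) (X : Alg N) : trA I (trA J X) = trA (I ∩ J) X := by
  funext i
  by_cases hI : i ∈ I
  · rw [trA_in hI]
    by_cases hJ : i ∈ J
    · rw [trA_in hJ, trA_in (Finset.mem_inter.2 ⟨hI, hJ⟩)]
    · rw [trA_out hJ, trA_out (fun h => hJ (Finset.mem_inter.1 h).2)]
  · rw [trA_out hI, trA_out (fun h => hI (Finset.mem_inter.1 h).1)]

theorem trA_idem (I : Finset (Fin n)) (X : Alg N) : trA I (trA I X) = trA I X := by
  rw [trA_trA, Finset.inter_self]

theorem trA_compl_trA (I : Finset (Fin n)) (X : Alg N) : trA Iᶜ (trA I X) = 0 := by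
  funext i
  by_cases hI : i ∈ I
  · exact trA_out (fun h => (Finset.mem_compl.1 h) hI)
  · rw [trA_in (Finset.mem_compl.2 hI)]
    exact trA_out hI

theorem trA_trA_compl (I : Finset (Fin n)) (X : Alg N) : trA I (trA Iᶜ X) = 0 := by
  funext i
  by_cases hI : i ∈ I
  · rw [trA_in hI]
    exact trA_out (fun h => (Finset.mem_compl.1 h) hI)
  · exact trA_out hI

/-- the truncation as a linear map -/
def trL (I : Finset (Fin n)) : Alg N →ₗ[ℝ] Alg N where
  toFun := trA I
  map_add' X Y := by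
    funext i
    by_cases h : i ∈ I
    · rw [Pi.add_apply, trA_in h, trA_in h, trA_in h, Pi.add_apply]
    · rw [Pi.add_apply, trA_out h, trA_out h, trA_out h, add_zero]
  map_smul' c X := by
    funext i
    by_cases h : i ∈ I
    · rw [RingHom.id_apply, Pi.smul_apply, trA_in h, trA_in h, Pi.smul_apply]
    · rw [RingHom.id_apply, Pi.smul_apply, trA_out h, trA_out h, smul_zero]

theorem trL_apply (I : Finset (Fin n)) (X : Alg N) : trL I X = trA I X := rfl

theorem trA_add (I : Finset (Fin n)) (X Y : Alg N) : trA I (X + Y) = trA I X + trA I Y :=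
  map_add (trL I) X Y

theorem trA_sub (I : Finset (Fin n)) (X Y : Alg N) : trA I (X - Y) = trA I X - trA I Y :=
  map_sub (trL I) X Y

theorem trA_neg (I : Finset (Fin n)) (X : Alg N) : trA I (-X) = -trA I X :=
  map_neg (trL I) X

theorem trA_smul (I : Finset (Fin n)) (c : ℝ) (X : Alg N) : trA I (c • X) = c • trA I X :=
  map_smul (trL I) c X

theorem trA_zero (I : Finset (Fin n)) : trA I (0 : Alg N) = 0 := map_zero (trL I)

/-- conjugation as a linear map -/
def cL (k : (Alg N)ˣ) : Alg N →ₗ[ℝ] Alg N where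
  toFun := cA k
  map_add' X Y := by
    show k.1 * (X + Y) * (k⁻¹).1 = _
    rw [mul_add, add_mul]
    rfl
  map_smul' c X := by
    show k.1 * (c • X) * (k⁻¹).1 = _
    rw [mul_smul_comm, smul_mul_assoc]
    rfl

theorem cL_apply (k : (Alg N)ˣ) (X : Alg N) : cL k X = cA k X := rfl

theorem cA_add (k : (Alg N)ˣ) (X Y : Alg N) : cA k (X + Y) = cA k X + cA k Y :=
  map_add (cL k) X Y

theorem cA_sub (k : (Alg N)ˣ) (X Y : Alg N) : cA k (X - Y) = cA k X - cA k Y :=
  map_sub (cL k) X Y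

theorem cA_neg (k : (Alg N)ˣ) (X : Alg N) : cA k (-X) = -cA k X := map_neg (cL k) X

theorem cA_smul (k : (Alg N)ˣ) (c : ℝ) (X : Alg N) : cA k (c • X) = c • cA k X :=
  map_smul (cL k) c X

theorem cA_zero (k : (Alg N)ˣ) : cA k (0 : Alg N) = 0 := map_zero (cL k)

theorem cA_mul (k k' : (Alg N)ˣ) (X : Alg N) : cA (k * k') X = cA k (cA k' X) := by
  show (k * k').1 * X * ((k * k')⁻¹).1 = k.1 * (k'.1 * X * (k'⁻¹).1) * (k⁻¹).1
  rw [_root_.mul_inv_rev]
  show k.1 * k'.1 * X * ((k'⁻¹).1 * (k⁻¹).1) = _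
  simp only [mul_assoc]

theorem cA_one (X : Alg N) : cA 1 X = X := by
  show (1 : (Alg N)ˣ).1 * X * ((1 : (Alg N)ˣ)⁻¹).1 = X
  rw [inv_one]
  show 1 * X * 1 = X
  rw [one_mul, mul_one]

theorem cA_inv_cA (k : (Alg N)ˣ) (X : Alg N) : cA k⁻¹ (cA k X) = X := by
  rw [← cA_mul, inv_mul_cancel, cA_one]

theorem cA_cA_inv (k : (Alg N)ˣ) (X : Alg N) : cA k (cA k⁻¹ X) = X := by
  rw [← cA_mul, mul_inv_cancel, cA_one]

theorem trA_cA (I : Finset (Fin n)) (k : (Alg N)ˣ) (X : Alg N) :
    trA I (cA k X) = cA k (trA I X) := by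
  funext i
  by_cases hI : i ∈ I
  · rw [trA_in hI]
    show k.1 i * X i * (k⁻¹).1 i = k.1 i * trA I X i * (k⁻¹).1 i
    rw [trA_in hI]
  · rw [trA_out hI]
    show 0 = k.1 i * trA I X i * (k⁻¹).1 i
    rw [trA_out hI, mul_zero, zero_mul]

theorem cA_tru (I : Finset (Fin n)) (k : (Alg N)ˣ) (X : Alg N) :
    cA (tru I k) (trA I X) = cA k (trA I X) := by
  funext i
  show (tru I k).1 i * trA I X i * ((tru I k)⁻¹).1 i = k.1 i * trA I X i * (k⁻¹).1 i
  by_cases hI : i ∈ I
  · rw [tru_in hI, tru_inv_in hI]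
  · rw [trA_out hI, mul_zero, zero_mul, mul_zero, zero_mul]

theorem cA_trivial {I : Finset (Fin n)} {m : (Alg N)ˣ} (h : ∀ i ∉ I, m.1 i = 1) (X : Alg N) :
    cA m (trA Iᶜ X) = trA Iᶜ X := by
  funext i
  show m.1 i * trA Iᶜ X i * (m⁻¹).1 i = trA Iᶜ X i
  by_cases hI : i ∈ I
  · rw [trA_out (fun h => (Finset.mem_compl.1 h) hI), mul_zero, zero_mul]
  · have h1 : m.1 i * (m⁻¹).1 i = 1 := congrFun m.mul_inv i
    rw [h i hI, one_mul] at h1
    rw [h i hI, h1, one_mul, mul_one]

theorem eu_trA (I : Finset (Fin n)) (X : Alg N) : eu (trA I X) = tru I (eu X) := by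
  refine Units.ext (funext fun i => ?_)
  show exp (trA I X i) = (tru I (eu X)).1 i
  by_cases hI : i ∈ I
  · rw [trA_in hI, tru_in hI]
    rfl
  · rw [trA_out hI, tru_out hI, exp_zero]

theorem orth_one : Orth (1 : (Alg N)ˣ) := by
  intro i
  show ((1 : Alg N) i)ᵀ * (1 : Alg N) i = 1
  rw [Pi.one_apply, transpose_one, one_mul]

theorem orth_tru (I : Finset (Fin n)) {k : (Alg N)ˣ} (h : Orth k) : Orth (tru I k) := by
  intro i
  by_cases hI : i ∈ I
  · rw [tru_in hI]
    exact h i
  · rw [tru_out hI, transpose_one, one_mul]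

end Pool.Agent.MP_417c68_gt
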