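import Pool.Agent.Lib.MP_417c68_gt_D.Blk

/-!
# MP_417c68_gt, module Cj: conjugation
-/

noncomputable section

namespace Pool.Agent.MP_417c68_gt

open Matrix NormedSpace

variable {n : ℕ} {N : Fin n → ℕ} {G H L : Subgroup (Alg N)ˣ}

private theorem Cj_inv_eq {k : (Alg N)ˣ} (h : Orth k) (i : Fin n) :
    (k⁻¹).1 i = (k.1 i)ᵀ := by
  have h1 : (k⁻¹).1 i * k.1 i = 1 := congrFun k.inv_mul i
  calc (k⁻¹).1 i = (k⁻¹).1 i * (k.1 i * (k.1 i)ᵀ) := by rw [orth_right h i, Matrix.mul_one]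
    _ = (k.1 i)ᵀ := by rw [← Matrix.mul_assoc, h1, Matrix.one_mul]

private theorem Cj_cA_apply (k : (Alg N)ˣ) (X : Alg N) (i : Fin n) :
    cA k X i = k.1 i * X i * (k⁻¹).1 i := rfl

private theorem Cj_symm {k : (Alg N)ˣ} (hk : Orth k) {X : Alg N} (hX : ∀ i, (X i)ᵀ = X i)
    (i : Fin n) : (cA k X i)ᵀ = cA k X i := by
  rw [Cj_cA_apply, Cj_inv_eq hk i, Matrix.transpose_mul, Matrix.transpose_mul,
    Matrix.transpose_transpose, hX i, Matrix.mul_assoc]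

private theorem Cj_eu_smul (k : (Alg N)ˣ) (t : ℝ) (X : Alg N) :
    eu (t • cA k X) = k * eu (t • X) * k⁻¹ := by
  rw [← cA_smul, eu_cA]

theorem mem_pp_cj {k : (Alg N)ˣ} (hk : Orth k) {X : Alg N} :
    X ∈ pp (cj k H) ↔ cA k⁻¹ X ∈ pp H := by
  have hk' : Orth k⁻¹ := orth_inv hk
  constructor
  · rintro ⟨h1, h2⟩
    refine ⟨Cj_symm hk' h1, fun t => ?_⟩
    have h3 : k⁻¹ * eu (t • X) * k ∈ H := h2 t
    rw [Cj_eu_smul, inv_inv]
    exact h3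
  · rintro ⟨h1, h2⟩
    refine ⟨fun i => ?_, fun t => ?_⟩
    · have h3 := Cj_symm hk h1 i
      rwa [cA_cA_inv] at h3
    · have h3 := h2 t
      rw [Cj_eu_smul, inv_inv] at h3
      exact h3

theorem selfAdj_cj {k : (Alg N)ˣ} (hk : Orth k) (hH : SelfAdj H) : SelfAdj (cj k H) := by
  refine ⟨?_, fun g hg => ?_⟩
  · have h1 : Continuous (fun g : (Alg N)ˣ => k⁻¹ * g * k) := by fun_prop
    exact hH.closed.preimage h1
  · obtain ⟨X, hX, hX'⟩ := hH.polar (k⁻¹ * g * k) hg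
    refine ⟨cA k X, (mem_pp_cj hk).2 ?_, fun i => ?_⟩
    · rw [cA_inv_cA]
      exact hX
    · have e1 : (k⁻¹ * g * k).1 i = (k.1 i)ᵀ * g.1 i * k.1 i := by
        rw [← Cj_inv_eq hk i]
        rfl
      have e2 := hX' i
      rw [e1, Matrix.transpose_mul, Matrix.transpose_mul, Matrix.transpose_transpose] at e2
      have e3 : exp (cA k X i) = k.1 i * exp (X i) * (k⁻¹).1 i := by
        have h := congrArg (fun u : (Alg N)ˣ => u.1 i) (eu_cA k X)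
        exact h
      rw [e3, ← e2, Cj_inv_eq hk i]
      have h1 := orth_right hk i
      calc (g.1 i)ᵀ * g.1 i
          = (k.1 i * (k.1 i)ᵀ) * (g.1 i)ᵀ * (k.1 i * (k.1 i)ᵀ) * g.1 i *
              (k.1 i * (k.1 i)ᵀ) := by
            rw [h1, Matrix.one_mul, Matrix.mul_one, Matrix.mul_one]
        _ = k.1 i * ((k.1 i)ᵀ * ((g.1 i)ᵀ * k.1 i) * ((k.1 i)ᵀ * g.1 i * k.1 i)) *
              (k.1 i)ᵀ := by
            simp only [Matrix.mul_assoc]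

private theorem Cj_proper {a b : (Alg N)ˣ} (ha : a ∈ G) (hb : b ∈ G) (h : ProperAct G H L) :
    ProperAct G (cj a H) (cj b L) := by
  intro C hC hCG
  have h1 : IsCompact ((fun c => b⁻¹ * c * a) '' C) := hC.image (by fun_prop)
  obtain ⟨K, hK, hK'⟩ := h _ h1 (by
    rintro _ ⟨c, hc, rfl⟩
    exact G.mul_mem (G.mul_mem (G.inv_mem hb) (hCG hc)) ha)
  refine ⟨(fun g => b * g * b⁻¹) '' K, hK.image (by fun_prop), ?_⟩
  intro l hl x hx c hc c' hc' e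
  refine ⟨b⁻¹ * l * b, hK' _ hl _ hx _ ⟨c, hc, rfl⟩ _ ⟨c', hc', rfl⟩ ?_, by group⟩
  calc b⁻¹ * l * b * (b⁻¹ * c * a) = b⁻¹ * (l * c) * a := by group
    _ = b⁻¹ * (c' * x) * a := by rw [e]
    _ = b⁻¹ * c' * a * (a⁻¹ * x * a) := by group

theorem properAct_cj {a b : (Alg N)ˣ} (ha : a ∈ G) (hb : b ∈ G) :
    ProperAct G (cj a H) (cj b L) ↔ ProperAct G H L := by
  refine ⟨fun h => ?_, Cj_proper ha hb⟩
  have h1 := Cj_proper (G.inv_mem ha) (G.inv_mem hb) h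
  rwa [cj_cj, cj_cj, inv_mul_cancel, inv_mul_cancel, cj_one, cj_one] at h1

private theorem Cj_cocompact {a b : (Alg N)ˣ} (ha : a ∈ G) (hb : b ∈ G)
    (h : Cocompact G H L) : Cocompact G (cj a H) (cj b L) := by
  obtain ⟨C, hC, hCG, h⟩ := h
  refine ⟨(fun c => b * c * a⁻¹) '' C, hC.image (by fun_prop), ?_, fun g hg => ?_⟩
  · rintro _ ⟨c, hc, rfl⟩
    exact G.mul_mem (G.mul_mem hb (hCG hc)) (G.inv_mem ha)
  · obtain ⟨l, hl, c, hc, x, hx, e⟩ := h (b⁻¹ * g * a)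
      (G.mul_mem (G.mul_mem (G.inv_mem hb) hg) ha)
    refine ⟨b * l * b⁻¹, mem_cj.2 ?_, b * c * a⁻¹, ⟨c, hc, rfl⟩, a * x * a⁻¹, mem_cj.2 ?_, ?_⟩
    · have h1 : b⁻¹ * (b * l * b⁻¹) * b = l := by group
      rwa [h1]
    · have h1 : a⁻¹ * (a * x * a⁻¹) * a = x := by group
      rwa [h1]
    · have h1 : g = b * (b⁻¹ * g * a) * a⁻¹ := by group
      rw [h1, e]
      group

theorem cocompact_cj {a b : (Alg N)ˣ} (ha : a ∈ G) (hb : b ∈ G) :
    Cocompact G (cj a H) (cj b L) ↔ Cocompact G H L := by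
  refine ⟨fun h => ?_, Cj_cocompact ha hb⟩
  have h1 := Cj_cocompact (G.inv_mem ha) (G.inv_mem hb) h
  rwa [cj_cj, cj_cj, inv_mul_cancel, inv_mul_cancel, cj_one, cj_one] at h1

theorem std_cj {a : (Alg N)ˣ} (ha : a ∈ G) : Std G (cj a H) ↔ Std G H := by
  have h1 : ∀ M : Subgroup (Alg N)ˣ, (ProperAct G (cj a H) M ↔ ProperAct G H M) := by
    intro M
    have h := properAct_cj (H := H) (L := M) ha G.one_mem
    rwa [cj_one] at h
  have h2 : ∀ M : Subgroup (Alg N)ˣ, (Cocompact G (cj a H) M ↔ Cocompact G H M) := by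
    intro M
    have h := cocompact_cj (H := H) (L := M) ha G.one_mem
    rwa [cj_one] at h
  constructor
  · rintro ⟨M, hM, hp, hc⟩
    exact ⟨M, hM, (h1 M).1 hp, (h2 M).1 hc⟩
  · rintro ⟨M, hM, hp, hc⟩
    exact ⟨M, hM, (h1 M).2 hp, (h2 M).2 hc⟩

private theorem Cj_tru_conj (a : (Alg N)ˣ) (I : Finset (Fin n)) (g : (Alg N)ˣ) :
    a⁻¹ * tru I g * a = tru I (a⁻¹ * g * a) := by
  refine Units.ext (funext fun i => ?_)
  change (a⁻¹).1 i * (tru I g).1 i * a.1 i = (tru I (a⁻¹ * g * a)).1 i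
  by_cases hi : i ∈ I
  · rw [tru_in hi, tru_in hi]
    rfl
  · rw [tru_out hi, tru_out hi, Matrix.mul_one]
    exact congrFun a.inv_mul i

theorem splitAt_cj (a : (Alg N)ˣ) {I : Finset (Fin n)} (h : SplitAt H I) :
    SplitAt (cj a H) I := by
  intro g hg
  have h1 : tru I (a⁻¹ * g * a) ∈ H := h _ hg
  rw [mem_cj, Cj_tru_conj]
  exact h1

private theorem Cj_conj_eq {a g : (Alg N)ˣ} {I : Finset (Fin n)} (hg : ∀ i ∉ I, g.1 i = 1) :
    (tru I a)⁻¹ * g * tru I a = a⁻¹ * g * a := by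
  refine Units.ext (funext fun i => ?_)
  change ((tru I a)⁻¹).1 i * g.1 i * (tru I a).1 i = (a⁻¹).1 i * g.1 i * a.1 i
  by_cases hi : i ∈ I
  · rw [tru_in hi, tru_inv_in hi]
  · rw [tru_out hi, tru_inv_out hi, hg i hi, Matrix.mul_one, Matrix.mul_one, Matrix.mul_one]
    exact (congrFun a.inv_mul i).symm

theorem cj_LI (a : (Alg N)ˣ) (H : Subgroup (Alg N)ˣ) (I : Finset (Fin n)) :
    cj (tru I a) (LI H Iᶜ) = LI (cj a H) Iᶜ := by
  ext g
  rw [mem_cj, mem_LI, mem_LI, mem_cj]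
  have hblock : ∀ i ∉ I, ((tru I a)⁻¹ * g * tru I a).1 i = g.1 i := by
    intro i hi
    change ((tru I a)⁻¹).1 i * g.1 i * (tru I a).1 i = g.1 i
    rw [tru_out hi, tru_inv_out hi, Matrix.mul_one, Matrix.one_mul]
  have hblock' : (∀ i ∉ I, g.1 i = 1) → ∀ i ∉ I, (a⁻¹ * g * a).1 i = 1 := by
    intro h i hi
    change (a⁻¹).1 i * g.1 i * a.1 i = 1
    rw [h i hi, Matrix.mul_one]
    exact congrFun a.inv_mul i
  constructor
  · rintro ⟨h1, h2⟩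
    have h3 : ∀ i ∉ I, g.1 i = 1 := fun i hi => by
      rw [← hblock i hi]
      exact h2 i (Finset.mem_compl.2 hi)
    rw [Cj_conj_eq h3] at h1
    exact ⟨h1, fun i hi => h3 i (Finset.mem_compl.1 hi)⟩
  · rintro ⟨h1, h2⟩
    have h3 : ∀ i ∉ I, g.1 i = 1 := fun i hi => h2 i (Finset.mem_compl.2 hi)
    rw [Cj_conj_eq h3]
    exact ⟨h1, fun i hi => hblock' h3 i (Finset.mem_compl.1 hi)⟩

end Pool.Agent.MP_417c68_gt
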