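import Pool.Agent.Lib.MP_417c68_gt_D.Blk

/-!
# MP_417c68_gt, module Cocpt2: the sum condition gives cocompactness, any real rank
-/

noncomputable section

namespace Pool.Agent.MP_417c68_gt

open Matrix NormedSpace

variable {n : ℕ} {N : Fin n → ℕ} {G H L : Subgroup (Alg N)ˣ}

section aux

attribute [local instance] Matrix.linftyOpNormedRing Matrix.linftyOpNormedAlgebra

private theorem cocpt2_der {m : ℕ} (x y E : Matrix (Fin m) (Fin m) ℝ) (hx : xᵀ = x)
    (hy : yᵀ = y) : HasDerivAt (fun s : ℝ => fr (exp (s • y) * E * exp (s • x)))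
      (2 * (Eᵀ * (y * E + E * x)).trace) 0 := by
  set M : ℝ → Matrix (Fin m) (Fin m) ℝ := fun s => exp (s • y) * E * exp (s • x) with hMd
  set P : ℝ → Matrix (Fin m) (Fin m) ℝ := fun s => exp (s • x) * Eᵀ * exp (s • y) with hPd
  have hP : ∀ s, P s = (M s)ᵀ := by
    intro s
    have e1 : (exp (s • x))ᵀ = exp (s • x) := by
      rw [← Matrix.exp_transpose, Matrix.transpose_smul, hx]
    have e2 : (exp (s • y))ᵀ = exp (s • y) := by
      rw [← Matrix.exp_transpose, Matrix.transpose_smul, hy]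
    simp only [hMd, hPd, Matrix.transpose_mul, e1, e2, Matrix.mul_assoc]
  have hM' : ∀ t, HasDerivAt M (y * M t + M t * x) t := fun t => der_two y x E t
  have hP' : ∀ t, HasDerivAt P (x * P t + P t * y) t := fun t => der_two x y Eᵀ t
  have hf : ∀ t, HasDerivAt (fun s => (P s * M s).trace)
      (2 * (P t * (y * M t + M t * x)).trace) t := by
    intro t
    have h1 : HasDerivAt (fun s => (P s * M s).trace)
        ((x * P t + P t * y) * M t + P t * (y * M t + M t * x)).trace t :=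
      der_trace ((hP' t).mul (hM' t))
    refine h1.congr_deriv ?_
    rw [add_mul, Matrix.trace_add, Matrix.trace_add, mul_add, Matrix.trace_add]
    have e1 : (x * P t * M t).trace = (P t * (M t * x)).trace := by
      rw [Matrix.mul_assoc, Matrix.trace_mul_comm, Matrix.mul_assoc]
    have e2 : (P t * y * M t).trace = (P t * (y * M t)).trace := by
      rw [Matrix.mul_assoc]
    rw [e1, e2]
    ring
  have hM0 : M 0 = E := by simp [hMd]
  have hP0 : P 0 = Eᵀ := by rw [hP, hM0]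
  have h0 := hf 0
  rw [hM0, hP0] at h0
  refine h0.congr_of_eventuallyEq (Filter.Eventually.of_forall fun s => ?_)
  show ((M s)ᵀ * M s).trace = (P s * M s).trace
  rw [hP]

end aux

private theorem cocpt2_fr_cont {m : ℕ} :
    Continuous (fr : Matrix (Fin m) (Fin m) ℝ → ℝ) := by
  unfold fr
  fun_prop

/-- the function which is minimised -/
private def cocpt2F (g : (Alg N)ˣ) : ℝ := ∑ i, (fr (g.1 i) + fr ((g⁻¹).1 i))

private theorem cocpt2F_cont : Continuous (cocpt2F : (Alg N)ˣ → ℝ) := by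
  unfold cocpt2F
  refine continuous_finsetSum _ fun i _ => ?_
  refine (cocpt2_fr_cont.comp ((continuous_apply i).comp Units.continuous_val)).add ?_
  exact cocpt2_fr_cont.comp ((continuous_apply i).comp (Units.continuous_val.comp continuous_inv))

private theorem cocpt2F_KR {g : (Alg N)ˣ} {M : ℝ} (h : cocpt2F g ≤ M) : g ∈ KR N M := by
  intro i
  have h1 : fr (g.1 i) + fr ((g⁻¹).1 i) ≤ cocpt2F g :=
    Finset.single_le_sum (f := fun i => fr (g.1 i) + fr ((g⁻¹).1 i))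
      (fun i _ => add_nonneg (fr_nonneg _) (fr_nonneg _)) (Finset.mem_univ i)
  have h2 := fr_nonneg (g.1 i)
  have h3 := fr_nonneg ((g⁻¹).1 i)
  constructor <;> linarith

/-- the minimum exists -/
private theorem cocpt2_min (hG : SelfAdj G) (hH : SelfAdj H) (hL : SelfAdj L)
    (hHG : H ≤ G) (hLG : L ≤ G) (hP : ProperAct G H L) {g : (Alg N)ˣ} (hg : g ∈ G) :
    ∃ l0 ∈ L, ∃ h0 ∈ H, ∀ l ∈ L, ∀ h ∈ H, cocpt2F (l0 * g * h0) ≤ cocpt2F (l * g * h) := by
  set M : ℝ := cocpt2F g with hM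
  have hC1 : IsCompact (KR N M ∩ (G : Set (Alg N)ˣ)) := (isCompact_KR N M).inter_right hG.closed
  have hC : IsCompact ((KR N M ∩ (G : Set (Alg N)ˣ)) ∪ {g}) := hC1.union isCompact_singleton
  obtain ⟨K, hK, hKL⟩ := hP _ hC (Set.union_subset Set.inter_subset_right
    (Set.singleton_subset_iff.2 hg))
  set S : Set ((Alg N)ˣ × (Alg N)ˣ) :=
    {p | p.1 ∈ L ∧ p.2 ∈ H ∧ cocpt2F (p.1 * g * p.2) ≤ M} with hS
  have hc : Continuous fun p : (Alg N)ˣ × (Alg N)ˣ => cocpt2F (p.1 * g * p.2) := by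
    have h1 : Continuous (fun p : (Alg N)ˣ × (Alg N)ˣ => p.1) := continuous_fst
    have h2 : Continuous (fun p : (Alg N)ˣ × (Alg N)ˣ => p.2) := continuous_snd
    have h4 : Continuous (fun _ : (Alg N)ˣ × (Alg N)ˣ => g) := continuous_const
    have h5 : Continuous (fun p : (Alg N)ˣ × (Alg N)ˣ => p.1 * g * p.2) := (h1.mul h4).mul h2
    exact cocpt2F_cont.comp h5
  have hSclosed : IsClosed S := by
    exact (hL.closed.preimage continuous_fst).inter
      ((hH.closed.preimage continuous_snd).inter (isClosed_le hc continuous_const))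
  have hφ : Continuous (fun p : (Alg N)ˣ × (Alg N)ˣ => (p.1, g⁻¹ * p.1⁻¹ * p.2)) := by
    have h1 : Continuous (fun p : (Alg N)ˣ × (Alg N)ˣ => p.1) := continuous_fst
    have h2 : Continuous (fun p : (Alg N)ˣ × (Alg N)ˣ => p.2) := continuous_snd
    have h3 : Continuous (fun p : (Alg N)ˣ × (Alg N)ˣ => (p.1)⁻¹) := h1.inv
    have h4 : Continuous (fun _ : (Alg N)ˣ × (Alg N)ˣ => g⁻¹) := continuous_const
    have h5 : Continuous (fun p : (Alg N)ˣ × (Alg N)ˣ => g⁻¹ * p.1⁻¹) := h4.mul h3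
    have h6 : Continuous (fun p : (Alg N)ˣ × (Alg N)ˣ => g⁻¹ * p.1⁻¹ * p.2) := h5.mul h2
    exact h1.prodMk h6
  have hSsub : S ⊆ (fun p : (Alg N)ˣ × (Alg N)ˣ => (p.1, g⁻¹ * p.1⁻¹ * p.2)) ''
      (K ×ˢ (KR N M ∩ (G : Set (Alg N)ˣ))) := by
    rintro ⟨l, h⟩ ⟨hl, hh, hF⟩
    have hcG : l * g * h ∈ G := G.mul_mem (G.mul_mem (hLG hl) hg) (hHG hh)
    have hc : l * g * h ∈ KR N M ∩ (G : Set (Alg N)ˣ) := ⟨cocpt2F_KR hF, hcG⟩
    have hlK : l ∈ K := hKL l hl h⁻¹ (H.inv_mem hh) g (Or.inr rfl) (l * g * h) (Or.inl hc)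
      (by group)
    refine ⟨(l, l * g * h), ⟨hlK, hc⟩, ?_⟩
    show (l, g⁻¹ * l⁻¹ * (l * g * h)) = (l, h)
    rw [Prod.mk.injEq]
    refine ⟨rfl, ?_⟩
    group
  have hcomp : IsCompact S :=
    IsCompact.of_isClosed_subset ((hK.prod hC1).image hφ) hSclosed hSsub
  have hne : S.Nonempty := ⟨(1, 1), L.one_mem, H.one_mem, by
    show cocpt2F (1 * g * 1) ≤ M
    rw [one_mul, mul_one]⟩
  obtain ⟨p0, hp0, hmin⟩ := hcomp.exists_isMinOn hne hc.continuousOn
  have hmin' : ∀ p ∈ S, cocpt2F (p0.1 * g * p0.2) ≤ cocpt2F (p.1 * g * p.2) :=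
    isMinOn_iff.1 hmin
  obtain ⟨hl0, hh0, hF0⟩ := hp0
  refine ⟨p0.1, hl0, p0.2, hh0, fun l hl h hh => ?_⟩
  by_cases hle : cocpt2F (l * g * h) ≤ M
  · have hmem : (l, h) ∈ S := ⟨hl, hh, hle⟩
    exact hmin' (l, h) hmem
  · exact hF0.trans (not_le.1 hle).le

private theorem cocpt2_inv_eq {k : (Alg N)ˣ} (h : Orth k) (i : Fin n) :
    (k⁻¹).1 i = (k.1 i)ᵀ := by
  have h1 : k.1 i * (k⁻¹).1 i = 1 := congrFun k.mul_inv i
  calc (k⁻¹).1 i = ((k.1 i)ᵀ * k.1 i) * (k⁻¹).1 i := by rw [h i, Matrix.one_mul]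
    _ = (k.1 i)ᵀ * (k.1 i * (k⁻¹).1 i) := by rw [Matrix.mul_assoc]
    _ = (k.1 i)ᵀ := by rw [h1, Matrix.mul_one]

/-- the trace computation in one block -/
private theorem cocpt2_block {m : ℕ} {k x y Z : Matrix (Fin m) (Fin m) ℝ} (hk : kᵀ * k = 1)
    (hZ : Zᵀ = Z) :
    2 * ((k * exp Z)ᵀ * (y * (k * exp Z) + (k * exp Z) * x)).trace +
      2 * ((exp (-Z) * kᵀ)ᵀ * ((-x) * (exp (-Z) * kᵀ) + (exp (-Z) * kᵀ) * (-y))).trace =
    2 * ((x + kᵀ * y * k) * (exp ((2 * 1 : ℝ) • Z) - exp (-((2 * 1 : ℝ) • Z)))).trace := by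
  have eZ : (exp Z)ᵀ = exp Z := by rw [← Matrix.exp_transpose, hZ]
  have eZ' : (exp (-Z))ᵀ = exp (-Z) := by
    rw [← Matrix.exp_transpose, Matrix.transpose_neg, hZ]
  have e2 : exp ((2 * 1 : ℝ) • Z) = exp Z * exp Z := by
    rw [← Matrix.exp_add_of_commute _ _ (Commute.refl _), mul_one, two_smul]
  have e3 : exp (-((2 * 1 : ℝ) • Z)) = exp (-Z) * exp (-Z) := by
    rw [← Matrix.exp_add_of_commute _ _ (Commute.refl _), mul_one, two_smul, neg_add]
  rw [e2, e3]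
  set A := exp Z with hA
  set B := exp (-Z) with hB
  have t1 : ((k * A)ᵀ * (y * (k * A))).trace = (kᵀ * y * k * (A * A)).trace := by
    rw [Matrix.transpose_mul, eZ, Matrix.mul_assoc A, Matrix.trace_mul_comm]
    congr 1
    simp only [Matrix.mul_assoc]
  have t2 : ((k * A)ᵀ * (k * A * x)).trace = (x * (A * A)).trace := by
    rw [Matrix.transpose_mul, eZ]
    have : A * kᵀ * (k * A * x) = A * (kᵀ * k) * A * x := by simp only [Matrix.mul_assoc]
    rw [this, hk, Matrix.mul_one, Matrix.trace_mul_comm]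
  have t3 : ((B * kᵀ)ᵀ * (x * (B * kᵀ))).trace = (x * (B * B)).trace := by
    rw [Matrix.transpose_mul, eZ', Matrix.transpose_transpose]
    have e : k * B * (x * (B * kᵀ)) = (k * (B * x * B)) * kᵀ := by simp only [Matrix.mul_assoc]
    rw [e, Matrix.trace_mul_comm, ← Matrix.mul_assoc, hk, Matrix.one_mul, Matrix.trace_mul_comm,
      ← Matrix.mul_assoc, Matrix.trace_mul_comm]
  have t4 : ((B * kᵀ)ᵀ * (B * kᵀ * y)).trace = (kᵀ * y * k * (B * B)).trace := by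
    rw [Matrix.transpose_mul, eZ', Matrix.transpose_transpose]
    have e : k * B * (B * kᵀ * y) = k * (B * B * kᵀ * y) := by simp only [Matrix.mul_assoc]
    rw [e, Matrix.trace_mul_comm]
    have e' : B * B * kᵀ * y * k = B * B * (kᵀ * y * k) := by simp only [Matrix.mul_assoc]
    rw [e', Matrix.trace_mul_comm]
  rw [Matrix.mul_add, Matrix.trace_add, Matrix.mul_add, Matrix.trace_add, t1, t2, Matrix.neg_mul,
    Matrix.mul_neg, Matrix.mul_neg, Matrix.mul_neg, Matrix.trace_neg, Matrix.trace_neg, t3, t4,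
    Matrix.mul_sub, Matrix.trace_sub, Matrix.add_mul, Matrix.add_mul, Matrix.trace_add,
    Matrix.trace_add]
  ring

/-- `G = L K H` -/
theorem lkh_of_sum (hG : SelfAdj G) (hH : SelfAdj H) (hL : SelfAdj L)
    (hHG : H ≤ G) (hLG : L ≤ G) (hP : ProperAct G H L)
    (hs : ∀ k ∈ G, Orth k → ∀ z ∈ pp G, ∃ x ∈ pp H, ∃ y ∈ pp L, z = x + cA k y)
    (g : (Alg N)ˣ) (hg : g ∈ G) :
    ∃ l ∈ L, ∃ c ∈ (G : Set (Alg N)ˣ) ∩ {k | Orth k}, ∃ h ∈ H, g = l * c * h := by
  obtain ⟨l0, hl0, h0, hh0, hmin⟩ := cocpt2_min hG hH hL hHG hLG hP hg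
  set m : (Alg N)ˣ := l0 * g * h0 with hm
  have hmG : m ∈ G := G.mul_mem (G.mul_mem (hLG hl0) hg) (hHG hh0)
  obtain ⟨Z, hZ, k, hk, hok, hmk⟩ := polar_right hG hmG
  obtain ⟨x, hx, y, hy, hxy⟩ := hs k⁻¹ (G.inv_mem hk) (orth_inv hok) Z hZ
  -- the function along the two-sided orbit
  have hval : ∀ t : ℝ, cocpt2F (eu (t • y) * l0 * g * (h0 * eu (t • x))) =
      ∑ i, (fr (exp (t • y i) * m.1 i * exp (t • x i)) +
        fr (exp (t • (-x i)) * (m⁻¹).1 i * exp (t • (-y i)))) := by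
    intro t
    have e1 : eu (t • y) * l0 * g * (h0 * eu (t • x)) = eu (t • y) * m * eu (t • x) := by
      rw [hm]
      group
    have e2 : (eu (t • y) * m * eu (t • x))⁻¹ = eu (-(t • x)) * m⁻¹ * eu (-(t • y)) := by
      rw [eu_neg, eu_neg]
      group
    unfold cocpt2F
    refine Finset.sum_congr rfl fun i _ => ?_
    rw [e1, e2]
    congr 1
    show fr (exp ((-(t • x)) i) * (m⁻¹).1 i * exp ((-(t • y)) i)) = _
    rw [Pi.neg_apply, Pi.neg_apply, Pi.smul_apply, Pi.smul_apply, smul_neg, smul_neg]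
  have hder : HasDerivAt (fun t : ℝ => ∑ i, (fr (exp (t • y i) * m.1 i * exp (t • x i)) +
        fr (exp (t • (-x i)) * (m⁻¹).1 i * exp (t • (-y i)))))
      (∑ i, (2 * ((m.1 i)ᵀ * (y i * m.1 i + m.1 i * x i)).trace +
        2 * (((m⁻¹).1 i)ᵀ * ((-x i) * (m⁻¹).1 i + (m⁻¹).1 i * (-y i))).trace)) 0 := by
    refine HasDerivAt.fun_sum fun i _ => ?_
    refine (cocpt2_der (x i) (y i) (m.1 i) (hx.1 i) (hy.1 i)).add ?_
    exact cocpt2_der (-y i) (-x i) ((m⁻¹).1 i) (by rw [Matrix.transpose_neg, hy.1 i])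
      (by rw [Matrix.transpose_neg, hx.1 i])
  have hloc : IsLocalMin (fun t : ℝ => ∑ i, (fr (exp (t • y i) * m.1 i * exp (t • x i)) +
        fr (exp (t • (-x i)) * (m⁻¹).1 i * exp (t • (-y i))))) 0 := by
    refine Filter.Eventually.of_forall fun t => ?_
    beta_reduce
    rw [← hval t, ← hval 0]
    have e0 : eu ((0 : ℝ) • y) * l0 * g * (h0 * eu ((0 : ℝ) • x)) = l0 * g * h0 := by
      rw [zero_smul, zero_smul, eu_zero]
      group
    rw [e0]
    exact hmin _ (L.mul_mem (hy.2 t) hl0) _ (H.mul_mem hh0 (hx.2 t))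
  have hzero := hloc.hasDerivAt_eq_zero hder
  -- the critical point equation
  have hblock : ∀ i, (2 * ((m.1 i)ᵀ * (y i * m.1 i + m.1 i * x i)).trace +
        2 * (((m⁻¹).1 i)ᵀ * ((-x i) * (m⁻¹).1 i + (m⁻¹).1 i * (-y i))).trace) =
      2 * (Z i * (exp ((2 * 1 : ℝ) • Z i) - exp (-((2 * 1 : ℝ) • Z i)))).trace := by
    intro i
    have e1 : m.1 i = k.1 i * exp (Z i) := by rw [hmk]; rfl
    have e2 : (m⁻¹).1 i = exp (-Z i) * (k.1 i)ᵀ := by
      rw [hmk, _root_.mul_inv_rev, ← eu_neg, ← cocpt2_inv_eq hok i]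
      rfl
    have e3 : x i + (k.1 i)ᵀ * y i * k.1 i = Z i := by
      have h1 := congrFun hxy i
      rw [Pi.add_apply] at h1
      rw [h1, ← cocpt2_inv_eq hok i]
      unfold cA
      rw [inv_inv]
      rfl
    rw [e1, e2, cocpt2_block (hok i) (hZ.1 i), e3]
  rw [Finset.sum_congr rfl fun i _ => hblock i] at hzero
  have hle : ∀ i, 8 * (Z i * Z i).trace ≤
      2 * (Z i * (exp ((2 * 1 : ℝ) • Z i) - exp (-((2 * 1 : ℝ) • Z i)))).trace := by
    intro i
    have := trZ_lower (hZ.1 i) (zero_le_one (α := ℝ))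
    linarith
  have hsum := Finset.sum_le_sum (s := Finset.univ) fun i _ => hle i
  rw [hzero, ← Finset.mul_sum] at hsum
  have hip : ip Z Z = 0 := by
    have h1 := ip_nonneg hZ.1
    unfold ip at h1 ⊢
    linarith
  have hZ0 : Z = 0 := ip_self_zero hZ.1 hip
  have hmk' : m = k := by rw [hmk, hZ0, eu_zero, mul_one]
  refine ⟨l0⁻¹, L.inv_mem hl0, k, ⟨hk, hok⟩, h0⁻¹, H.inv_mem hh0, ?_⟩
  rw [← hmk', hm]
  group

theorem cocompact_of_sum (hG : SelfAdj G) (hH : SelfAdj H) (hL : SelfAdj L)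
    (hHG : H ≤ G) (hLG : L ≤ G) (hP : ProperAct G H L)
    (hs : ∀ k ∈ G, Orth k → ∀ z ∈ pp G, ∃ x ∈ pp H, ∃ y ∈ pp L, z = x + cA k y) :
    Cocompact G H L :=
  ⟨(G : Set (Alg N)ˣ) ∩ {k | Orth k}, isCompact_orth.inter_left hG.closed,
    Set.inter_subset_left, fun g hg => lkh_of_sum hG hH hL hHG hLG hP hs g hg⟩

end Pool.Agent.MP_417c68_gt
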