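import Pool.Agent.Lib.MP_417c68_gt_D.Blk

/-!
# MP_417c68_gt, module LinkA: the link part, linear algebra
-/

noncomputable section

namespace Pool.Agent.MP_417c68_gt

open Matrix NormedSpace

variable {n : ℕ} {N : Fin n → ℕ} {G H L : Subgroup (Alg N)ˣ}
variable {I : Finset (Fin n)}

private theorem linkA_add_right (X Y Z : Alg N) : ip X (Y + Z) = ip X Y + ip X Z := by
  rw [ip_comm X (Y + Z), ip_add_left, ip_comm Y X, ip_comm Z X]

private theorem linkA_smul_right (c : ℝ) (X Y : Alg N) : ip X (c • Y) = c * ip X Y := by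
  rw [ip_comm X (c • Y), ip_smul_left, ip_comm Y X]

private theorem linkA_rep (P : Submodule ℝ (Alg N)) (hP : ∀ X ∈ P, ∀ i, (X i)ᵀ = X i)
    (v : Alg N) : ∃ m ∈ P, ∀ y ∈ P, ip m y = ip v y := by
  let F : Alg N → Module.Dual ℝ P := fun X =>
    { toFun := fun y => ip X y.1
      map_add' := fun a b => linkA_add_right X a.1 b.1
      map_smul' := fun c a => linkA_smul_right c X a.1 }
  have hF : ∀ X (y : P), F X y = ip X y.1 := fun X y => rfl
  let T : P →ₗ[ℝ] Module.Dual ℝ P :=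
    { toFun := fun X => F X.1
      map_add' := fun A B => by
        ext y
        rw [LinearMap.add_apply, hF, hF, hF, Submodule.coe_add, ip_add_left]
      map_smul' := fun c A => by
        ext y
        rw [RingHom.id_apply, LinearMap.smul_apply, hF, hF, Submodule.coe_smul, ip_smul_left,
          smul_eq_mul] }
  have hT : ∀ (X y : P), T X y = ip X.1 y.1 := fun X y => rfl
  have hinj : Function.Injective T := by
    rw [← LinearMap.ker_eq_bot, LinearMap.ker_eq_bot']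
    intro Y hY
    have h1 : T Y Y = 0 := by rw [hY]; rfl
    rw [hT] at h1
    exact Subtype.ext (ip_self_zero (hP _ Y.2) h1)
  have hsurj : Function.Surjective T :=
    (LinearMap.injective_iff_surjective_of_finrank_eq_finrank
      (Subspace.dual_finrank_eq (K := ℝ) (V := P)).symm).1 hinj
  obtain ⟨z, hz⟩ := hsurj (F v)
  refine ⟨z.1, z.2, fun y hy => ?_⟩
  have h2 := LinearMap.congr_fun hz ⟨y, hy⟩
  rw [hT, hF] at h2
  exact h2

/-- the elements of `𝔭(H)` supported in `I` -/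
private def linkA_V (H : Subgroup (Alg N)ˣ) (I : Finset (Fin n)) : Submodule ℝ (Alg N) :=
  pS H ⊓ LinearMap.ker (trL Iᶜ)

private theorem linkA_memV (hH : SelfAdj H) (I : Finset (Fin n)) {v : Alg N} :
    v ∈ linkA_V H I ↔ v ∈ pp H ∧ trA I v = v := by
  unfold linkA_V
  rw [Submodule.mem_inf, mem_pS hH.closed, LinearMap.mem_ker, trL_apply, ← trA_eq_self_iff]

theorem lnk_decomp (hH : SelfAdj H) (I : Finset (Fin n)) {v : Alg N} (hv : v ∈ pp H) :
    ∃ v₁ ∈ pp H, trA I v₁ = v₁ ∧ ∃ v₂ ∈ pp H, trA Iᶜ v₂ = v₂ ∧ ∃ x ∈ lnk H I,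
      v = v₁ + v₂ + x := by
  have hsymm : ∀ X ∈ linkA_V H I ⊔ linkA_V H Iᶜ, ∀ i, (X i)ᵀ = X i := by
    intro X hX
    obtain ⟨a, ha, b, hb, rfl⟩ := Submodule.mem_sup.1 hX
    exact (pp_add hH ((linkA_memV hH I).1 ha).1 ((linkA_memV hH Iᶜ).1 hb).1).1
  obtain ⟨m, hm, hmy⟩ := linkA_rep (linkA_V H I ⊔ linkA_V H Iᶜ) hsymm v
  obtain ⟨v₁, h1, v₂, h2, rfl⟩ := Submodule.mem_sup.1 hm
  have h1' := (linkA_memV hH I).1 h1
  have h2' := (linkA_memV hH Iᶜ).1 h2
  refine ⟨v₁, h1'.1, h1'.2, v₂, h2'.1, h2'.2, v - (v₁ + v₂),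
    ⟨pp_sub hH hv (pp_add hH h1'.1 h2'.1), ?_⟩, ?_⟩
  · intro y hy hyy
    have hyM : y ∈ linkA_V H I ⊔ linkA_V H Iᶜ := by
      rcases hyy with hyy | hyy
      · exact Submodule.mem_sup_left ((linkA_memV hH I).2 ⟨hy, hyy⟩)
      · exact Submodule.mem_sup_right ((linkA_memV hH Iᶜ).2 ⟨hy, hyy⟩)
    rw [ip_sub_left, hmy y hyM, sub_self]
  · abel

theorem lnk_comb (hH : SelfAdj H) {x y : Alg N} (hx : x ∈ lnk H I) (hy : y ∈ lnk H I)
    (a b : ℝ) : a • x + b • y ∈ lnk H I := by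
  refine ⟨pp_add hH (pp_smul a hx.1) (pp_smul b hy.1), fun z hz hzz => ?_⟩
  rw [ip_add_left, ip_smul_left, ip_smul_left, hx.2 z hz hzz, hy.2 z hz hzz, mul_zero, mul_zero,
    add_zero]

theorem lnk_inj {x : Alg N} (hx : x ∈ lnk H I) (h : trA I x = 0) : x = 0 := by
  have h1 : trA Iᶜ x = x := by
    have h2 := trA_add_compl I x
    rwa [h, zero_add] at h2
  exact ip_self_zero hx.1.1 (hx.2 x hx.1 (Or.inr h1))

theorem lnk_inj' {x : Alg N} (hx : x ∈ lnk H I) (h : trA Iᶜ x = 0) : x = 0 := by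
  have h1 : trA I x = x := by
    have h2 := trA_add_compl I x
    rwa [h, add_zero] at h2
  exact ip_self_zero hx.1.1 (hx.2 x hx.1 (Or.inl h1))

theorem RR_comb (hH : SelfAdj H) (hL : SelfAdj L) {k : (Alg N)ˣ} {p p' : Alg N × Alg N}
    (hp : p ∈ RR H L I k) (hp' : p' ∈ RR H L I k) (a b : ℝ) : a • p + b • p' ∈ RR H L I k := by
  obtain ⟨h1, h2, v, hv, hvI, v', hv', hvI', w, hw, e⟩ := hp
  obtain ⟨h3, h4, u, hu, huI, u', hu', huI', z, hz, e'⟩ := hp'
  refine ⟨lnk_comb hH h1 h3 a b, lnk_comb hH h2 h4 a b, a • v + b • u,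
    pp_add hH (pp_smul a hv) (pp_smul b hu), ?_, a • v' + b • u',
    pp_add hH (pp_smul a hv') (pp_smul b hu'), ?_, a • w + b • z,
    pp_add hL (pp_smul a hw) (pp_smul b hz), ?_⟩
  · rw [trA_add, trA_smul, trA_smul, hvI, huI]
  · rw [trA_add, trA_smul, trA_smul, hvI', huI']
  · show trA I (a • p.1 + b • p'.1) + (a • v + b • u) + trA Iᶜ (a • p.2 + b • p'.2) +
      (a • v' + b • u') = cA k (a • w + b • z)
    rw [cA_add, cA_smul, cA_smul, ← e, ← e', trA_add, trA_add, trA_smul, trA_smul, trA_smul,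
      trA_smul]
    simp only [smul_add]
    abel

end Pool.Agent.MP_417c68_gt
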