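import Pool.Agent.Lib.MP_417c68_gt_D.Trans
import Pool.Agent.Lib.MP_417c68_gt_D.LinkA

/-!
# MP_417c68_gt, module CondB: factors of real rank one
-/

noncomputable section

namespace Pool.Agent.MP_417c68_gt

open Matrix NormedSpace

variable {n : ℕ} {N : Fin n → ℕ} {G H L : Subgroup (Alg N)ˣ}

private theorem condB_out {i j : Fin n} {X : Alg N} (h : trA {i} X = X) (hj : j ≠ i) : X j = 0 := by
  rw [← h]
  exact trA_out (fun hm => hj (Finset.mem_singleton.1 hm))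

private theorem condB_smul {i : Fin n} {X Y : Alg N} (hX : trA {i} X = X) (hY : trA {i} Y = Y)
    {c : ℝ} (h : X i = c • Y i) : X = c • Y := by
  funext j
  rw [Pi.smul_apply]
  by_cases hj : j = i
  · subst hj
    exact h
  · rw [condB_out hX hj, condB_out hY hj, smul_zero]

private theorem condB_ray {i : Fin n} (hG : SelfAdj G) (hR : RkOne G i) {x y : Alg N}
    (hx : x ∈ pp (LI G {i}ᶜ)) (hy : y ∈ pp (LI G {i}ᶜ)) (hx0 : x ≠ 0) (hy0 : y ≠ 0) :
    ∃ k ∈ LI G {i}ᶜ, Orth k ∧ ∃ c : ℝ, 0 < c ∧ cA k x = c • y := by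
  have hG' : SelfAdj (LI G {i}ᶜ) := selfAdj_LI hG _
  refine trans_ray hG' (pS (LI G {i}ᶜ)) (fun x hx => (mem_pS hG'.closed).1 hx) ?_ ?_ ?_
    ((mem_pS hG'.closed).2 hx) ((mem_pS hG'.closed).2 hy) hx0 hy0
  · intro k hk ho x hx
    exact (mem_pS hG'.closed).2 (pp_cA hk ho ((mem_pS hG'.closed).1 hx))
  · intro X hX Y hY hc
    have h1 := mem_pp_LI_compl.1 ((mem_pS hG'.closed).1 hX)
    have h2 := mem_pp_LI_compl.1 ((mem_pS hG'.closed).1 hY)
    obtain ⟨c, h | h⟩ := hR.rank X h1.1 Y h2.1 (congrFun hc i)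
    · exact ⟨c, Or.inl (condB_smul h1.2 h2.2 h)⟩
    · exact ⟨c, Or.inr (condB_smul h2.2 h1.2 h)⟩
  · intro z
    obtain ⟨X, hX, hc⟩ := hR.two (z i)
    refine ⟨trA {i} X, (mem_pS hG'.closed).2 (mem_pp_LI_compl.2 ⟨pp_trA hR.split hX,
      trA_idem _ _⟩), fun c h => hc c ?_⟩
    have h1 := congrFun h i
    rw [trA_in (Finset.mem_singleton_self i)] at h1
    exact h1

theorem condT_of_rkOne {i : Fin n} (hG : SelfAdj G) (hR : RkOne G i) (hHG : H ≤ G)
    (h0 : ∀ v ∈ pp H, trA {i} v = v → v = 0) : CondT G H {i} := by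
  intro x hx x' hx' he v hv hvi
  have hv0 : v = 0 := h0 v hv hvi
  subst hv0
  have ha : trA {i} x ∈ pp (LI G {i}ᶜ) :=
    mem_pp_LI_compl.2 ⟨pp_trA hR.split (pp_mono hHG hx.1), trA_idem _ _⟩
  have ha' : trA {i} x' ∈ pp (LI G {i}ᶜ) :=
    mem_pp_LI_compl.2 ⟨pp_trA hR.split (pp_mono hHG hx'.1), trA_idem _ _⟩
  by_cases hz : trA {i} x = 0
  · have hz' : trA {i} x' = 0 := by
      rw [hz, ip_zero_left] at he
      exact ip_self_zero ha'.1 he.symm
    refine ⟨1, G.one_mem, orth_one, fun j _ => rfl, ?_, ?_⟩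
    · rw [cA_one, hz, hz']
    · rw [cA_one]
      exact hv
  · have hz' : trA {i} x' ≠ 0 := by
      intro h
      rw [h, ip_zero_left] at he
      exact hz (ip_self_zero ha.1 he)
    obtain ⟨m, hm, ho, c, hc, h⟩ := condB_ray hG hR ha ha' hz hz'
    have hc1 : c = 1 := by
      have h1 : ip (cA m (trA {i} x)) (cA m (trA {i} x)) = ip (trA {i} x') (trA {i} x') := by
        rw [ip_cA, he]
      rw [h, ip_smul_left, ip_comm, ip_smul_left] at h1
      have h2 : 0 < ip (trA {i} x') (trA {i} x') := by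
        refine lt_of_le_of_ne (ip_nonneg ha'.1) fun h3 => hz' ?_
        exact ip_self_zero ha'.1 h3.symm
      have h3 : (c - 1) * ((c + 1) * ip (trA {i} x') (trA {i} x')) = 0 := by
        linear_combination h1
      rcases mul_eq_zero.1 h3 with h4 | h4
      · linarith
      · exfalso
        have h5 : 0 < (c + 1) * ip (trA {i} x') (trA {i} x') := mul_pos (by linarith) h2
        linarith
    refine ⟨m, hm.1, ho, fun j hj => hm.2 j (Finset.mem_compl.2 hj), ?_, ?_⟩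
    · rw [h, hc1, one_smul]
    · rw [cA_zero]
      exact hv

theorem rk1_cpl {i : Fin n} (hG : SelfAdj G) (hR : RkOne G i) {A L₁ : Subgroup (Alg N)ˣ}
    (hAG : A ≤ LI G {i}ᶜ) (hLG : L₁ ≤ LI G {i}ᶜ)
    (hc : Cpl (LI G {i}ᶜ) A L₁) :
    (∀ x ∈ pp A, x = 0) ∨ (∀ z ∈ pp (LI G {i}ᶜ), z ∈ pp A) := by
  by_cases hA : ∀ x ∈ pp A, x = 0
  · exact Or.inl hA
  · right
    push Not at hA
    obtain ⟨x₀, hx₀, hx₀0⟩ := hA
    have hL0 : ∀ y ∈ pp L₁, y = 0 := by
      intro y hy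
      by_contra hy0
      obtain ⟨k, hk, ho, c, hc0, h⟩ := condB_ray hG hR (pp_mono hLG hy) (pp_mono hAG hx₀) hy0 hx₀0
      have h1 := (hc k hk ho).1 (c • x₀) (pp_smul c hx₀) y hy h.symm
      rcases smul_eq_zero.1 h1 with h2 | h2
      · exact hc0.ne' h2
      · exact hx₀0 h2
    intro z hz
    obtain ⟨x, hx, y, hy, h⟩ := (hc 1 (LI G {i}ᶜ).one_mem orth_one).2 z hz
    rw [hL0 y hy, cA_zero, add_zero] at h
    rw [h]
    exact hx

end Pool.Agent.MP_417c68_gt
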