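import Pool.Agent.Lib.MP_417c68_gt_D.Blk

/-!
# MP_417c68_gt, module Kc: passing to a smaller product
-/

noncomputable section

namespace Pool.Agent.MP_417c68_gt

open Matrix NormedSpace

variable {n : ℕ} {N : Fin n → ℕ} {G H L : Subgroup (Alg N)ˣ}

theorem kconn_LI {J : Finset (Fin n)} (hJ : SplitAt G J) (hc : Kconn G) : Kconn (LI G J) := by
  have h : {k : (Alg N)ˣ | k ∈ LI G J ∧ Orth k} = tru Jᶜ '' {k : (Alg N)ˣ | k ∈ G ∧ Orth k} := by
    ext k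
    constructor
    · rintro ⟨h1, h2⟩
      exact ⟨k, ⟨h1.1, h2⟩, tru_LI h1⟩
    · rintro ⟨g, ⟨h1, h2⟩, rfl⟩
      exact ⟨⟨splitAt_compl hJ g h1, fun i hi =>
        tru_out fun h => (Finset.mem_compl.1 h) hi⟩, orth_tru _ h2⟩
  unfold Kconn
  rw [h]
  exact hc.image _ (continuous_tru _).continuousOn

theorem rkOne_LI {i : Fin n} {J : Finset (Fin n)} (hi : i ∉ J) (hR : RkOne G i)
    (hJ : SplitAt G J) : RkOne (LI G J) i := by
  refine ⟨splitAt_LI hR.split J, fun X hX Y hY => hR.rank X (mem_pp_LI.1 hX).1 Y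
    (mem_pp_LI.1 hY).1, fun Z => ?_⟩
  obtain ⟨X, hX, h⟩ := hR.two Z
  refine ⟨trA Jᶜ X, mem_pp_LI.2 ⟨pp_trA (splitAt_compl hJ) hX, fun j hj =>
    trA_out fun h => (Finset.mem_compl.1 h) hj⟩, fun c => ?_⟩
  rw [trA_in (Finset.mem_compl.2 hi)]
  exact h c

end Pool.Agent.MP_417c68_gt
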