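import Pool.Agent.Lib.MP_417c68_gt_D.LinkA

/-!
# MP_417c68_gt, module LnkOr: no link or no kernel
-/

noncomputable section

namespace Pool.Agent.MP_417c68_gt

open Matrix NormedSpace

variable {n : ℕ} {N : Fin n → ℕ} {G H L : Subgroup (Alg N)ˣ}

private theorem LnkOr_ip_single {i : Fin n} (x w : Alg N) (hw : ∀ j, j ≠ i → w j = 0) :
    ip x w = (x i * w i).trace := by
  rw [ip, Finset.sum_eq_single i]
  · intro j _ hj
    rw [hw j hj, mul_zero, Matrix.trace_zero]
  · intro h
    exact absurd (Finset.mem_univ i) h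

private theorem LnkOr_tr {m : ℕ} (x v κ : Matrix (Fin m) (Fin m) ℝ) (hκ : κ = x * v - v * x)
    (hκt : κᵀ = -κ) (h : (x * (κ * v - v * κ)).trace = 0) : κ = 0 := by
  have h1 : (x * (κ * v - v * κ)).trace = (κ * (v * x - x * v)).trace := by
    rw [mul_sub, mul_sub, Matrix.trace_sub, Matrix.trace_sub]
    congr 1
    · rw [Matrix.trace_mul_comm, Matrix.mul_assoc]
    · rw [← Matrix.mul_assoc, Matrix.trace_mul_comm]
  have h2 : v * x - x * v = -κ := by rw [hκ, neg_sub]
  refine fr_eq_zero ?_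
  rw [fr, hκt, Matrix.neg_mul, ← Matrix.mul_neg, ← h2, ← h1, h]

theorem lnk_or {i : Fin n} (hG : SelfAdj G) (hR : RkOne G i) (hH : SelfAdj H) (hHG : H ≤ G) :
    (∀ x ∈ lnk H {i}, x = 0) ∨ (∀ v ∈ pp H, trA {i} v = v → v = 0) := by
  by_contra hcon
  push Not at hcon
  obtain ⟨⟨x, hx, hx0⟩, v, hv, hvi, hv0⟩ := hcon
  have hvz : ∀ j, j ≠ i → v j = 0 := by
    intro j hj
    rw [← hvi]
    exact trA_out (by simpa using hj)
  have hvi0 : v i ≠ 0 := by
    intro h
    apply hv0
    funext j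
    by_cases hj : j = i
    · subst hj
      exact h
    · exact hvz j hj
  set κ : Alg N := x * v - v * x with hκ
  have hκl : κ ∈ lie H := lie_br hH.closed hx.1.2 hv.2
  have hκz : ∀ j, j ≠ i → κ j = 0 := by
    intro j hj
    show x j * v j - v j * x j = 0
    rw [hvz j hj, mul_zero, zero_mul, sub_zero]
  have hκt : ∀ j, (κ j)ᵀ = -κ j := by
    intro j
    show (x j * v j - v j * x j)ᵀ = -(x j * v j - v j * x j)
    rw [Matrix.transpose_sub, Matrix.transpose_mul, Matrix.transpose_mul, hx.1.1 j, hv.1 j,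
      neg_sub]
  set w : Alg N := κ * v - v * κ with hw
  have hwl : w ∈ lie H := lie_br hH.closed hκl hv.2
  have hws : ∀ j, (w j)ᵀ = w j := by
    intro j
    show (κ j * v j - v j * κ j)ᵀ = κ j * v j - v j * κ j
    rw [Matrix.transpose_sub, Matrix.transpose_mul, Matrix.transpose_mul, hκt j, hv.1 j,
      Matrix.mul_neg, Matrix.neg_mul, sub_neg_eq_add, neg_add_eq_sub]
  have hwz : ∀ j, j ≠ i → w j = 0 := by
    intro j hj
    show κ j * v j - v j * κ j = 0
    rw [hvz j hj, mul_zero, zero_mul, sub_zero]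
  have hwI : trA {i} w = w := by
    funext j
    by_cases hj : j = i
    · rw [trA_in (by simpa using hj)]
    · rw [trA_out (by simpa using hj), hwz j hj]
  have hip : ip x w = 0 := hx.2 w ⟨hws, hwl⟩ (Or.inl hwI)
  rw [LnkOr_ip_single x w hwz] at hip
  have hκ0 : κ i = 0 := LnkOr_tr (x i) (v i) (κ i) rfl (hκt i) hip
  have hcomm : x i * v i = v i * x i := sub_eq_zero.1 hκ0
  have hip2 : ip x v = 0 := hx.2 v hv (Or.inl hvi)
  rw [LnkOr_ip_single x v hvz] at hip2
  have hxi : x i = 0 := by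
    obtain ⟨c, hc | hc⟩ := hR.rank x (pp_mono hHG hx.1) v (pp_mono hHG hv) hcomm
    · rw [hc, Matrix.smul_mul, Matrix.trace_smul, smul_eq_mul] at hip2
      rcases mul_eq_zero.1 hip2 with h | h
      · rw [hc, h, zero_smul]
      · exact absurd (zero_of_sq (hv.1 i) h) hvi0
    · rw [hc, Matrix.mul_smul, Matrix.trace_smul, smul_eq_mul] at hip2
      rcases mul_eq_zero.1 hip2 with h | h
      · rw [h, zero_smul] at hc
        exact absurd hc hvi0
      · exact zero_of_sq (hx.1.1 i) h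
  apply hx0
  refine lnk_inj hx ?_
  funext j
  by_cases hj : j = i
  · subst hj
    rw [trA_in (by simp), hxi]
    rfl
  · rw [trA_out (by simpa using hj)]
    rfl

end Pool.Agent.MP_417c68_gt
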