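import Pool.Agent.Lib.MP_417c68_gt_D.Trans
import Pool.Agent.Lib.MP_417c68_gt_D.LinkA

/-!
# MP_417c68_gt, module CondA: transitivity for links of real rank one
-/

noncomputable section

namespace Pool.Agent.MP_417c68_gt

open Matrix NormedSpace

variable {n : ℕ} {N : Fin n → ℕ} {G H L : Subgroup (Alg N)ˣ}

private def CondA_sub (hH : SelfAdj H) (I : Finset (Fin n)) : Submodule ℝ (Alg N) where
  carrier := lnk H I
  add_mem' := by
    intro a b ha hb
    have h := lnk_comb hH ha hb 1 1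
    rwa [one_smul, one_smul] at h
  zero_mem' := ⟨pp_zero, fun y _ _ => ip_zero_left y⟩
  smul_mem' := by
    intro c x hx
    have h := lnk_comb hH hx hx c 0
    rwa [zero_smul, add_zero] at h

private theorem CondA_mem (hH : SelfAdj H) (I : Finset (Fin n)) {x : Alg N} :
    x ∈ CondA_sub hH I ↔ x ∈ lnk H I := Iff.rfl

private theorem CondA_stable {I : Finset (Fin n)} {k : (Alg N)ˣ} (hk : k ∈ H)
    (hko : Orth k) {x : Alg N} (hx : x ∈ lnk H I) : cA k x ∈ lnk H I := by
  refine ⟨pp_cA hk hko hx.1, fun y hy hyI => ?_⟩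
  have h1 : cA k⁻¹ y ∈ pp H := pp_cA (H.inv_mem hk) (orth_inv hko) hy
  have h2 : trA I (cA k⁻¹ y) = cA k⁻¹ y ∨ trA Iᶜ (cA k⁻¹ y) = cA k⁻¹ y := by
    rcases hyI with h | h
    · left
      rw [trA_cA, h]
    · right
      rw [trA_cA, h]
  have h3 := hx.2 _ h1 h2
  rw [← ip_cA k, cA_cA_inv] at h3
  exact h3

theorem condT_of_link {I : Finset (Fin n)} (hGs : SplitAt G I) (hH : SelfAdj H) (hHG : H ≤ G)
    (h1 : ∀ x ∈ lnk H I, ∀ y ∈ lnk H I, x * y = y * x → ∃ c : ℝ, x = c • y ∨ y = c • x)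
    (h2 : ∀ z : Alg N, ∃ x ∈ lnk H I, ∀ c : ℝ, x ≠ c • z) : CondT G H I := by
  intro x hx x' hx' heq v hv hvI
  have hsym : ∀ y : Alg N, y ∈ pp H → ∀ i, (y i)ᵀ = y i := fun y hy => hy.1
  by_cases hx0 : x = 0
  · have h3 : trA I x' = 0 := by
      apply ip_self_zero (symm_trA (hsym x' hx'.1))
      rw [← heq, hx0, trA_zero, ip_zero_left]
    refine ⟨1, G.one_mem, orth_one, fun i _ => rfl, ?_, ?_⟩
    · rw [cA_one, h3, hx0, trA_zero]
    · rw [cA_one]
      exact hv
  · have hx'0 : x' ≠ 0 := by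
      intro h
      apply hx0
      apply lnk_inj hx
      apply ip_self_zero (symm_trA (hsym x hx.1))
      rw [heq, h, trA_zero, ip_zero_left]
    obtain ⟨k, hk, hko, c, hc, hkx⟩ := trans_ray hH (CondA_sub hH I) (fun y hy => hy.1)
      (fun k hk hko y hy => CondA_stable hk hko hy) h1 h2 ((CondA_mem hH I).2 hx)
      ((CondA_mem hH I).2 hx') hx0 hx'0
    have h3 : cA (tru I k) (trA I x) = c • trA I x' := by
      rw [cA_tru, ← trA_cA, hkx, trA_smul]
    have h4 : ip (trA I x') (trA I x') ≠ 0 := by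
      intro h
      exact hx'0 (lnk_inj hx' (ip_self_zero (symm_trA (hsym x' hx'.1)) h))
    have h5 : c = 1 := by
      have h6 := ip_cA (tru I k) (trA I x) (trA I x)
      rw [h3, ip_smul_left, ip_comm, ip_smul_left, heq] at h6
      have h7 : (c * c - 1) * ip (trA I x') (trA I x') = 0 := by linear_combination h6
      have h8 : c * c - 1 = 0 := (mul_eq_zero.1 h7).resolve_right h4
      nlinarith
    refine ⟨tru I k, hGs k (hHG hk), orth_tru I hko, fun i hi => tru_out hi, ?_, ?_⟩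
    · rw [h3, h5, one_smul]
    · rw [← hvI, cA_tru, hvI]
      exact pp_cA hk hko hv

end Pool.Agent.MP_417c68_gt
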