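import Pool.Agent.Lib.MP_417c68_gt_D.PrjM

/-!
# MP_417c68_gt, module Conv: complements in the factors give a complement
-/

noncomputable section

namespace Pool.Agent.MP_417c68_gt

open Matrix NormedSpace

variable {n : ℕ} {N : Fin n → ℕ} {G H L : Subgroup (Alg N)ˣ}

private theorem conv_tru_mem {I : Finset (Fin n)} (hGs : SplitAt G I) {k : (Alg N)ˣ}
    (hk : k ∈ G) : tru I k ∈ LI G Iᶜ :=
  ⟨hGs k hk, fun _ hi => tru_out (Finset.mem_compl.1 hi)⟩

private theorem conv_tru_mem' {I : Finset (Fin n)} (hGs : SplitAt G I) {k : (Alg N)ˣ}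
    (hk : k ∈ G) : tru Iᶜ k ∈ LI G I :=
  ⟨splitAt_compl hGs k hk, fun _ hi => tru_out (fun h => Finset.mem_compl.1 h hi)⟩

private theorem conv_cA {I : Finset (Fin n)} (k : (Alg N)ˣ) {w : Alg N} (hw : trA I w = w) :
    cA (tru I k) w = cA k w := by
  have h := cA_tru I k w
  rwa [hw] at h

private theorem conv_supp {I : Finset (Fin n)} {w : Alg N} (hw : w ∈ pp (LI G I)) :
    trA Iᶜ w = w := by
  funext i
  by_cases h : i ∈ I
  · rw [trA_out (fun h' => Finset.mem_compl.1 h' h), (mem_pp_LI.1 hw).2 i h]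
  · rw [trA_in (Finset.mem_compl.2 h)]

theorem cpl_conv {I : Finset (Fin n)} (hG : SelfAdj G) (hGs : SplitAt G I) (hH : SelfAdj H)
    (hHG : H ≤ G) {L₁ L₂ : Subgroup (Alg N)ˣ} (h1 : L₁ ≤ LI G Iᶜ) (h2 : L₂ ≤ LI G I)
    (hc1 : Cpl (LI G Iᶜ) (LI H Iᶜ) L₁) (hc2 : Cpl (LI G I) (Prj H Iᶜ) L₂) :
    Cpl G H (Pr L₁ L₂ I) := by
  intro k hk ho
  have c1 := hc1 (tru I k) (conv_tru_mem hGs hk) (orth_tru I ho)
  have c2 := hc2 (tru Iᶜ k) (conv_tru_mem' hGs hk) (orth_tru Iᶜ ho)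
  refine ⟨?_, ?_⟩
  · intro x hx y hy hxy
    have hy' := mem_pp_pr.1 hy
    have e2 : trA Iᶜ x = 0 := by
      refine c2.1 (trA Iᶜ x) ((mem_pp_prj hH).2 ⟨x, hx, rfl⟩) (trA Iᶜ y) hy'.2 ?_
      rw [cA_tru, ← trA_cA, ← hxy]
    have e1 : trA I x = x := trA_eq_self_iff.2 e2
    refine c1.1 x (mem_pp_LI_compl.2 ⟨hx, e1⟩) (trA I y) hy'.1 ?_
    rw [cA_tru, ← trA_cA, ← hxy, e1]
  · intro z hz
    obtain ⟨x₀, hx₀, w₂, hw₂, e2⟩ := c2.2 (trA Iᶜ z) (mem_pp_LI.2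
      ⟨pp_trA (splitAt_compl hGs) hz, fun i hi => trA_out (fun h => Finset.mem_compl.1 h hi)⟩)
    obtain ⟨x, hx, rfl⟩ := (mem_pp_prj hH).1 hx₀
    obtain ⟨x₁, hx₁, w₁, hw₁, e1⟩ := c1.2 (trA I (z - x)) (mem_pp_LI_compl.2
      ⟨pp_trA hGs (pp_sub hG hz (pp_mono hHG hx)), trA_idem I _⟩)
    have s1 : trA I w₁ = w₁ := (mem_pp_LI_compl.1 (pp_mono h1 hw₁)).2
    have s2 : trA Iᶜ w₂ = w₂ := conv_supp (pp_mono h2 hw₂)
    have s1' : trA Iᶜ w₁ = 0 := trA_eq_self_iff.1 s1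
    have s2' : trA I w₂ = 0 := by
      rw [← s2]
      exact trA_trA_compl I w₂
    refine ⟨x + x₁, pp_add hH hx (mem_pp_LI_compl.1 hx₁).1, w₁ + w₂, mem_pp_pr.2 ⟨?_, ?_⟩, ?_⟩
    · rw [trA_add, s1, s2', add_zero]
      exact hw₁
    · rw [trA_add, s1', s2, zero_add]
      exact hw₂
    · rw [conv_cA k s1, trA_sub] at e1
      rw [conv_cA k s2] at e2
      have ez := trA_add_compl I z
      have ex := trA_add_compl I x
      rw [cA_add]
      calc z = (trA I z - trA I x) + trA Iᶜ z + trA I x := by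
            rw [← ez]
            simp only [trA_add, trA_idem, trA_trA_compl, trA_compl_trA]
            abel
        _ = (x₁ + cA k w₁) + (trA Iᶜ x + cA k w₂) + trA I x := by rw [e1, e2]
        _ = (trA I x + trA Iᶜ x) + x₁ + (cA k w₁ + cA k w₂) := by abel
        _ = x + x₁ + (cA k w₁ + cA k w₂) := by rw [ex]

theorem cpl_prF {m : ℕ} {c : Fin n → Fin m} (hG : SelfAdj G)
    (hGs : ∀ j, SplitAt G (cls c j)) (hH : SelfAdj H) (hHs : ∀ j, SplitAt H (cls c j))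
    (hHG : H ≤ G) {L : Fin m → Subgroup (Alg N)ˣ} (hLG : ∀ j, L j ≤ LI G (cls c j)ᶜ)
    (hc : ∀ j, Cpl (LI G (cls c j)ᶜ) (LI H (cls c j)ᶜ) (L j)) : Cpl G H (PrF c L) := by
  intro k hk ho
  have cj := fun j => hc j (tru (cls c j) k) (conv_tru_mem (hGs j) hk) (orth_tru _ ho)
  refine ⟨?_, ?_⟩
  · intro x hx y hy hxy
    refine eq_of_cls (c := c) fun j => ?_
    rw [trA_zero]
    refine (cj j).1 (trA (cls c j) x) (mem_pp_LI_compl.2 ⟨pp_trA (hHs j) hx, trA_idem _ _⟩)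
      (trA (cls c j) y) (mem_pp_prF.1 hy j) ?_
    rw [cA_tru, ← trA_cA, ← hxy]
  · intro z hz
    have hex : ∀ j, ∃ x w : Alg N, x ∈ pp (LI H (cls c j)ᶜ) ∧ w ∈ pp (L j) ∧
        trA (cls c j) z = x + cA (tru (cls c j) k) w := by
      intro j
      obtain ⟨x, hx, w, hw, e⟩ := (cj j).2 (trA (cls c j) z)
        (mem_pp_LI_compl.2 ⟨pp_trA (hGs j) hz, trA_idem _ _⟩)
      exact ⟨x, w, hx, hw, e⟩
    choose x w hx hw he using hex
    have sx : ∀ j, trA (cls c j) (x j) = x j := fun j => (mem_pp_LI_compl.1 (hx j)).2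
    have sw : ∀ j, trA (cls c j) (w j) = w j := fun j =>
      (mem_pp_LI_compl.1 (pp_mono (hLG j) (hw j))).2
    have key : ∀ u : Fin m → Alg N, (∀ j, trA (cls c j) (u j) = u j) →
        ∀ j, trA (cls c j) (fun i => u (c i) i : Alg N) = u j := by
      intro u hu j
      funext i
      by_cases h : i ∈ cls c j
      · rw [trA_in h, mem_cls.1 h]
      · rw [trA_out h, ← hu j, trA_out h]
    refine ⟨fun i => x (c i) i, ?_, fun i => w (c i) i, ?_, ?_⟩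
    · refine mem_pp_of_cls (c := c) hH fun j => ?_
      rw [key x sx j]
      exact (mem_pp_LI_compl.1 (hx j)).1
    · refine mem_pp_prF.2 fun j => ?_
      rw [key w sw j]
      exact hw j
    · refine eq_of_cls (c := c) fun j => ?_
      rw [trA_add, trA_cA, key x sx j, key w sw j, he j, conv_cA k (sw j)]

end Pool.Agent.MP_417c68_gt
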