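import Pool.Agent.Lib.MP_417c68_gt_D.Final

/-!
# MP_417c68_gt, module Csq: compact standard quotients and Borel's theorem; the final forms
-/

noncomputable section

namespace Pool.Agent.MP_417c68_gt

open Matrix NormedSpace Pointwise

variable {n : ℕ} {N : Fin n → ℕ} {G H L : Subgroup (Alg N)ˣ}

/-- `L` has a torsion-free cocompact lattice -/
def HasLat (L : Subgroup (Alg N)ˣ) : Prop :=
  ∃ Γ ≤ L, DTF Γ ∧ ∃ D : Set (Alg N)ˣ, IsCompact D ∧ D ⊆ L ∧ ∀ l ∈ L, ∃ γ ∈ Γ, ∃ d ∈ D, l = γ * d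

theorem csq_iff_std (hB : ∀ L, Red G L → HasLat L) : CSQ G H ↔ Std G H := by
  refine ⟨csq_proper, ?_⟩
  rintro ⟨L, hL, hP, C, hC, hCG, hc⟩
  obtain ⟨Γ, hΓ, hD, D, hDc, hDL, hd⟩ := hB L hL
  refine ⟨L, Γ, hL, hP, hΓ, hD, D * C, hDc.mul hC, ?_, fun g hg => ?_⟩
  · rintro _ ⟨d, hd, c, hc, rfl⟩
    exact G.mul_mem (hL.1 (hDL hd)) (hCG hc)
  · obtain ⟨l, hl, c, hc, h, hh, rfl⟩ := hc g hg
    obtain ⟨γ, hγ, d, hd, rfl⟩ := hd l hl
    exact ⟨γ, hγ, d * c, Set.mul_mem_mul hd hc, h, hh, by rw [mul_assoc γ d c]⟩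

theorem red_of_LI {J : Finset (Fin n)} (h : Red (LI G J) L) : Red G L := by
  obtain ⟨h1, a, ha, h2⟩ := h
  exact ⟨h1.trans (LI_le J), a, (LI_le J) ha, h2⟩

/-- the factor of `G` of the class `j` of blocks -/
def Fac (G : Subgroup (Alg N)ˣ) {m : ℕ} (c : Fin n → Fin m) (j : Fin m) : Subgroup (Alg N)ˣ :=
  LI G (cls c j)ᶜ

/-- the link part has real rank one and dimension at least two -/
structure RkOneLink (H : Subgroup (Alg N)ˣ) (I : Finset (Fin n)) : Prop where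
  rank : ∀ x ∈ lnk H I, ∀ y ∈ lnk H I, x * y = y * x → ∃ c : ℝ, x = c • y ∨ y = c • x
  two : ∀ z : Alg N, ∃ x ∈ lnk H I, ∀ c : ℝ, x ≠ c • z

/-- one of the two ways to split the link: `G_I/(H ∩ G_I)` and `G_{Iᶜ}/pr(H)` are standard, or
`G_I/pr(H)` and `G_{Iᶜ}/(H ∩ G_{Iᶜ})` are -/
def Dicho (G H : Subgroup (Alg N)ˣ) (I : Finset (Fin n)) : Prop :=
  (Std (LI G Iᶜ) (LI H Iᶜ) ∧ Std (LI G I) (Prj H Iᶜ)) ∨
    (Std (LI G Iᶜ) (Prj H I) ∧ Std (LI G I) (LI H I))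

/-- the reduction to the factors outside `R`: for some `T ⊆ R` the projection of `𝔭(H)` to the
blocks in `T` is onto `𝔭(G)_T`, its kernel injects into the blocks outside `R`, and the quotient of
the product of the factors outside `R` by the projection of the kernel of `H → G_T` is standard -/
def Peel (G H : Subgroup (Alg N)ˣ) (R : Finset (Fin n)) : Prop :=
  ∃ T ⊆ R, (∀ z ∈ pp G, ∃ x ∈ pp H, ∀ i ∈ T, x i = z i) ∧
    (∀ x ∈ pp H, (∀ i ∈ T, x i = 0) → (∀ i ∉ R, x i = 0) → x = 0) ∧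
    Std (LI G R) (Prj (LI H T) Rᶜ)

theorem products {m : ℕ} {c : Fin n → Fin m} (hG : SelfAdj G)
    (hGs : ∀ j, SplitAt G (cls c j)) (hH : Red G H) (hHs : ∀ j, SplitAt H (cls c j)) :
    (Std G H ↔ ∀ j, Std (Fac G c j) (Fac H c j)) ∧
    ((∀ L, Red G L → HasLat L) → (CSQ G H ↔ ∀ j, CSQ (Fac G c j) (Fac H c j))) := by
  have h := std_prod hG hGs hH hHs
  refine ⟨h, fun hB => ?_⟩
  rw [csq_iff_std hB, h]
  exact forall_congr' fun j => (csq_iff_std (G := LI G (cls c j)ᶜ) fun L hL =>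
    hB L (red_of_LI hL)).symm

end Pool.Agent.MP_417c68_gt
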