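import Pool.Agent.Lib.MP_417c68_gt.Main

/-!
# MP_417c68_gt: reduction to factors, any real rank.  Definitions.

Text: `/team-store/TEXT_417c68_D.md`.
-/

noncomputable section

namespace Pool.Agent.MP_417c68_gt

open Matrix NormedSpace

variable {n : ℕ} {N : Fin n → ℕ}

/-- the truncation of a group element to the blocks in `I`: the other blocks become `1` -/
def tru (I : Finset (Fin n)) (g : (Alg N)ˣ) : (Alg N)ˣ where
  val := fun i => if i ∈ I then g.1 i else 1
  inv := fun i => if i ∈ I then (g⁻¹).1 i else 1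
  val_inv := by
    funext i
    show (if i ∈ I then g.1 i else 1) * (if i ∈ I then (g⁻¹).1 i else 1) = 1
    by_cases h : i ∈ I
    · rw [if_pos h, if_pos h]
      exact congrFun g.mul_inv i
    · rw [if_neg h, if_neg h, one_mul]
  inv_val := by
    funext i
    show (if i ∈ I then (g⁻¹).1 i else 1) * (if i ∈ I then g.1 i else 1) = 1
    by_cases h : i ∈ I
    · rw [if_pos h, if_pos h]
      exact congrFun g.inv_mul i
    · rw [if_neg h, if_neg h, one_mul]

/-- the truncation of an algebra element to the blocks in `I`: the other blocks become `0` -/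
def trA (I : Finset (Fin n)) (X : Alg N) : Alg N := fun i => if i ∈ I then X i else 0

theorem trA_in {I : Finset (Fin n)} {X : Alg N} {i : Fin n} (h : i ∈ I) : trA I X i = X i :=
  if_pos h

theorem trA_out {I : Finset (Fin n)} {X : Alg N} {i : Fin n} (h : i ∉ I) : trA I X i = 0 :=
  if_neg h

theorem tru_in {I : Finset (Fin n)} {g : (Alg N)ˣ} {i : Fin n} (h : i ∈ I) :
    (tru I g).1 i = g.1 i := if_pos h

theorem tru_out {I : Finset (Fin n)} {g : (Alg N)ˣ} {i : Fin n} (h : i ∉ I) :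
    (tru I g).1 i = 1 := if_neg h

theorem tru_inv_in {I : Finset (Fin n)} {g : (Alg N)ˣ} {i : Fin n} (h : i ∈ I) :
    ((tru I g)⁻¹).1 i = (g⁻¹).1 i := if_pos h

theorem tru_inv_out {I : Finset (Fin n)} {g : (Alg N)ˣ} {i : Fin n} (h : i ∉ I) :
    ((tru I g)⁻¹).1 i = 1 := if_neg h

theorem tru_one (I : Finset (Fin n)) : tru I (1 : (Alg N)ˣ) = 1 := by
  refine Units.ext (funext fun i => ?_)
  by_cases h : i ∈ I
  · rw [tru_in h]
  · rw [tru_out h]
    rfl

theorem tru_mul (I : Finset (Fin n)) (g h : (Alg N)ˣ) : tru I (g * h) = tru I g * tru I h := by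
  refine Units.ext (funext fun i => ?_)
  show (tru I (g * h)).1 i = (tru I g).1 i * (tru I h).1 i
  by_cases hi : i ∈ I
  · rw [tru_in hi, tru_in hi, tru_in hi]
    rfl
  · rw [tru_out hi, tru_out hi, tru_out hi, one_mul]

theorem tru_inv (I : Finset (Fin n)) (g : (Alg N)ˣ) : tru I g⁻¹ = (tru I g)⁻¹ := by
  refine Units.ext (funext fun i => ?_)
  by_cases hi : i ∈ I
  · rw [tru_in hi, tru_inv_in hi]
  · rw [tru_out hi, tru_inv_out hi]

/-- `G` is the product of its part in the blocks `I` and its part in the other blocks -/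
def SplitAt (G : Subgroup (Alg N)ˣ) (I : Finset (Fin n)) : Prop := ∀ g ∈ G, tru I g ∈ G

/-- the image of `H` under the projection to the blocks in `I` -/
def Prj (H : Subgroup (Alg N)ˣ) (I : Finset (Fin n)) : Subgroup (Alg N)ˣ where
  carrier := {g | ∃ h ∈ H, tru I h = g}
  one_mem' := ⟨1, H.one_mem, tru_one I⟩
  mul_mem' := by
    rintro a b ⟨h, hh, rfl⟩ ⟨h', hh', rfl⟩
    exact ⟨h * h', H.mul_mem hh hh', tru_mul I h h'⟩
  inv_mem' := by
    rintro a ⟨h, hh, rfl⟩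
    exact ⟨h⁻¹, H.inv_mem hh, tru_inv I h⟩

theorem mem_Prj {H : Subgroup (Alg N)ˣ} {I : Finset (Fin n)} {g : (Alg N)ˣ} :
    g ∈ Prj H I ↔ ∃ h ∈ H, tru I h = g := Iff.rfl

/-- the group of all `g` whose part in the blocks `I` lies in `A` and whose part in the other
blocks lies in `B` -/
def Pr (A B : Subgroup (Alg N)ˣ) (I : Finset (Fin n)) : Subgroup (Alg N)ˣ where
  carrier := {g | tru I g ∈ A ∧ tru Iᶜ g ∈ B}
  one_mem' := by
    refine ⟨?_, ?_⟩
    · rw [tru_one]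
      exact A.one_mem
    · rw [tru_one]
      exact B.one_mem
  mul_mem' := by
    rintro a b ⟨h1, h2⟩ ⟨h3, h4⟩
    refine ⟨?_, ?_⟩
    · rw [tru_mul]
      exact A.mul_mem h1 h3
    · rw [tru_mul]
      exact B.mul_mem h2 h4
  inv_mem' := by
    rintro a ⟨h1, h2⟩
    refine ⟨?_, ?_⟩
    · rw [tru_inv]
      exact A.inv_mem h1
    · rw [tru_inv]
      exact B.inv_mem h2

theorem mem_Pr {A B : Subgroup (Alg N)ˣ} {I : Finset (Fin n)} {g : (Alg N)ˣ} :
    g ∈ Pr A B I ↔ tru I g ∈ A ∧ tru Iᶜ g ∈ B := Iff.rfl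

/-- the class `j` of a colouring of the blocks -/
def cls {m : ℕ} (c : Fin n → Fin m) (j : Fin m) : Finset (Fin n) :=
  Finset.univ.filter fun i => c i = j

theorem mem_cls {m : ℕ} {c : Fin n → Fin m} {j : Fin m} {i : Fin n} : i ∈ cls c j ↔ c i = j := by
  simp [cls]

/-- the group of all `g` whose part in the class `j` lies in `A j`, for all `j` -/
def PrF {m : ℕ} (c : Fin n → Fin m) (A : Fin m → Subgroup (Alg N)ˣ) : Subgroup (Alg N)ˣ where
  carrier := {g | ∀ j, tru (cls c j) g ∈ A j}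
  one_mem' := fun j => by
    rw [tru_one]
    exact (A j).one_mem
  mul_mem' := fun {a b} ha hb j => by
    rw [tru_mul]
    exact (A j).mul_mem (ha j) (hb j)
  inv_mem' := fun {a} ha j => by
    rw [tru_inv]
    exact (A j).inv_mem (ha j)

theorem mem_PrF {m : ℕ} {c : Fin n → Fin m} {A : Fin m → Subgroup (Alg N)ˣ} {g : (Alg N)ˣ} :
    g ∈ PrF c A ↔ ∀ j, tru (cls c j) g ∈ A j := Iff.rfl

/-- some reductive subgroup `L` of `G` acts properly and cocompactly on `G/H` -/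
def Std (G H : Subgroup (Alg N)ˣ) : Prop :=
  ∃ L : Subgroup (Alg N)ˣ, Red G L ∧ ProperAct G H L ∧ Cocompact G H L

/-- `𝔭(G) = 𝔭(H) ⊕ Ad(k) 𝔭(L)` for every `k` in the maximal compact subgroup of `G` -/
def Cpl (G H L : Subgroup (Alg N)ˣ) : Prop :=
  ∀ k ∈ G, Orth k → (∀ x ∈ pp H, ∀ y ∈ pp L, x = cA k y → x = 0) ∧
    ∀ z ∈ pp G, ∃ x ∈ pp H, ∃ y ∈ pp L, z = x + cA k y

/-- the link part of `𝔭(H)`: all `x ∈ 𝔭(H)` orthogonal to the elements of `𝔭(H)` which are
supported in the blocks `I` and to those which are supported in the other blocks -/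
def lnk (H : Subgroup (Alg N)ˣ) (I : Finset (Fin n)) : Set (Alg N) :=
  {x | x ∈ pp H ∧ ∀ y ∈ pp H, trA I y = y ∨ trA Iᶜ y = y → ip x y = 0}

/-- the pairs `(x, x')` of elements of the link part with `x_I + v + x'_{Iᶜ} + v' ∈ Ad(k) 𝔭(L)` for
some `v, v' ∈ 𝔭(H)` supported in `I` and in `Iᶜ` -/
def RR (H L : Subgroup (Alg N)ˣ) (I : Finset (Fin n)) (k : (Alg N)ˣ) : Set (Alg N × Alg N) :=
  {p | p.1 ∈ lnk H I ∧ p.2 ∈ lnk H I ∧ ∃ v ∈ pp H, trA I v = v ∧ ∃ v' ∈ pp H, trA Iᶜ v' = v' ∧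
    ∃ w ∈ pp L, trA I p.1 + v + trA Iᶜ p.2 + v' = cA k w}

/-- the quadratic form `|x_I|² - |x'_I|²` -/
def qf (I : Finset (Fin n)) (p : Alg N × Alg N) : ℝ :=
  ip (trA I p.1) (trA I p.1) - ip (trA I p.2) (trA I p.2)

/-- transitivity on the link part, for the blocks `I` -/
def CondT (G H : Subgroup (Alg N)ˣ) (I : Finset (Fin n)) : Prop :=
  ∀ x ∈ lnk H I, ∀ x' ∈ lnk H I, ip (trA I x) (trA I x) = ip (trA I x') (trA I x') →
    ∀ v ∈ pp H, trA I v = v → ∃ m ∈ G, Orth m ∧ (∀ i ∉ I, m.1 i = 1) ∧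
      cA m (trA I x) = trA I x' ∧ cA m v ∈ pp H

/-- the maximal compact subgroup is connected -/
def Kconn (G : Subgroup (Alg N)ˣ) : Prop := IsPreconnected {k : (Alg N)ˣ | k ∈ G ∧ Orth k}

/-- the block `i` is a factor of `G` of real rank one, with `dim 𝔭 ≥ 2` -/
structure RkOne (G : Subgroup (Alg N)ˣ) (i : Fin n) : Prop where
  split : SplitAt G {i}
  rank : ∀ X ∈ pp G, ∀ Y ∈ pp G, X i * Y i = Y i * X i → ∃ c : ℝ, X i = c • Y i ∨ Y i = c • X i
  two : ∀ Z : Matrix (Fin (N i)) (Fin (N i)) ℝ, ∃ X ∈ pp G, ∀ c : ℝ, X i ≠ c • Z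

end Pool.Agent.MP_417c68_gt
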