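import Pool.Agent.Lib.MP_417c68_gt_D.Blk

/-!
# MP_417c68_gt, module Eps: uniform separation
-/

noncomputable section

namespace Pool.Agent.MP_417c68_gt

open Matrix NormedSpace

variable {n : ℕ} {N : Fin n → ℕ} {G H L : Subgroup (Alg N)ˣ}

private theorem Eps_symm {k : (Alg N)ˣ} (ho : Orth k) {X : Alg N} (hX : ∀ i, (X i)ᵀ = X i)
    (i : Fin n) : (cA k X i)ᵀ = cA k X i := by
  have h1 : k.1 i * (k⁻¹).1 i = 1 := congrFun k.mul_inv i
  have h2 : (k⁻¹).1 i = (k.1 i)ᵀ := by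
    calc (k⁻¹).1 i = ((k.1 i)ᵀ * k.1 i) * (k⁻¹).1 i := by rw [ho i, one_mul]
      _ = (k.1 i)ᵀ := by rw [mul_assoc, h1, mul_one]
  show (k.1 i * X i * (k⁻¹).1 i)ᵀ = k.1 i * X i * (k⁻¹).1 i
  rw [h2, Matrix.transpose_mul, Matrix.transpose_mul, Matrix.transpose_transpose, hX,
    mul_assoc]

private theorem Eps_sub {x y : Alg N} (hx : ∀ i, (x i)ᵀ = x i) (hy : ∀ i, (y i)ᵀ = y i)
    (i : Fin n) : ((x - y) i)ᵀ = (x - y) i := by
  rw [Pi.sub_apply, Matrix.transpose_sub, hx, hy]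

private theorem Eps_add {x y : Alg N} (hx : ∀ i, (x i)ᵀ = x i) (hy : ∀ i, (y i)ᵀ = y i)
    (i : Fin n) : ((x + y) i)ᵀ = (x + y) i := by
  rw [Pi.add_apply, Matrix.transpose_add, hx, hy]

private theorem Eps_smul (c : ℝ) {x : Alg N} (hx : ∀ i, (x i)ᵀ = x i)
    (i : Fin n) : ((c • x) i)ᵀ = (c • x) i := by
  rw [Pi.smul_apply, Matrix.transpose_smul, hx]

/-- expansion of the square -/
private theorem Eps_sq (x y : Alg N) :
    ip (x - y) (x - y) = ip x x - 2 * ip x y + ip y y := by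
  rw [ip_sub_left, ip_comm x (x - y), ip_comm y (x - y), ip_sub_left, ip_sub_left, ip_comm y x]
  ring

private theorem Eps_smul_sq (c : ℝ) (x : Alg N) : ip (c • x) (c • x) = c ^ 2 * ip x x := by
  rw [ip_smul_left, ip_comm, ip_smul_left]
  ring

private theorem Eps_compact (hG : SelfAdj G) (hH : SelfAdj H) (hL : SelfAdj L) :
    IsCompact ({k : (Alg N)ˣ | k ∈ G ∧ Orth k} ×ˢ
      ({x : Alg N | x ∈ pp H ∧ ip x x ≤ 4} ×ˢ {y : Alg N | y ∈ pp L ∧ ip y y = 1})) := by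
  have hK : IsCompact {k : (Alg N)ˣ | k ∈ G ∧ Orth k} := by
    refine (isCompact_orth (N := N)).of_isClosed_subset ?_ (fun k hk => hk.2)
    exact hG.closed.inter (isCompact_orth (N := N)).isClosed
  have hip : Continuous fun x : Alg N => ip x x :=
    continuous_ip.comp (continuous_id.prodMk continuous_id)
  have hA : IsCompact {x : Alg N | x ∈ pp H ∧ ip x x ≤ 4} := by
    refine (isCompact_symm_ball N 4).of_isClosed_subset ?_ (fun x hx => ⟨hx.1.1, hx.2⟩)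
    exact (isClosed_pp hH).inter (isClosed_le hip continuous_const)
  have hB : IsCompact {y : Alg N | y ∈ pp L ∧ ip y y = 1} := by
    refine (isCompact_symm_ball N 1).of_isClosed_subset ?_ (fun x hx => ⟨hx.1.1, hx.2.le⟩)
    exact (isClosed_pp hL).inter (isClosed_eq hip continuous_const)
  exact hK.prod (hA.prod hB)

private theorem Eps_cont {X : Type*} [TopologicalSpace X] {g : X → Alg N} (hg : Continuous g) :
    Continuous fun p => ip (g p) (g p) :=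
  continuous_ip.comp (hg.prodMk hg)

private theorem Eps_min {X : Type*} [TopologicalSpace X] {T : Set X} (hT : IsCompact T)
    {f : X → ℝ} (hf : Continuous f) (hpos : ∀ p ∈ T, 0 < f p) :
    ∃ e : ℝ, 0 < e ∧ ∀ p ∈ T, e ≤ f p := by
  rcases T.eq_empty_or_nonempty with h | h
  · exact ⟨1, one_pos, fun p hp => by rw [h] at hp; exact hp.elim⟩
  · obtain ⟨p, hp, hmin⟩ := hT.exists_isMinOn h hf.continuousOn
    exact ⟨f p, hpos p hp, fun q hq => isMinOn_iff.1 hmin q hq⟩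

private theorem Eps_one (hG : SelfAdj G) (hH : SelfAdj H) (hL : SelfAdj L)
    (hd : ∀ k ∈ G, Orth k → ∀ x ∈ pp H, ∀ y ∈ pp L, x = cA k y → x = 0) :
    ∃ e : ℝ, 0 < e ∧ ∀ k ∈ G, Orth k → ∀ x ∈ pp H, ip x x ≤ 4 →
      ∀ y ∈ pp L, ip y y = 1 → e ≤ ip (x - cA k y) (x - cA k y) := by
  have hcA : Continuous fun p : (Alg N)ˣ × (Alg N × Alg N) => cA p.1 p.2.2 :=
    continuous_cA.comp (continuous_fst.prodMk (continuous_snd.comp continuous_snd))
  have hdf : Continuous fun p : (Alg N)ˣ × (Alg N × Alg N) => p.2.1 - cA p.1 p.2.2 :=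
    (continuous_fst.comp continuous_snd).sub hcA
  have hf : Continuous fun p : (Alg N)ˣ × (Alg N × Alg N) =>
      ip (p.2.1 - cA p.1 p.2.2) (p.2.1 - cA p.1 p.2.2) :=
    Eps_cont hdf
  obtain ⟨e, he0, he⟩ := Eps_min (Eps_compact hG hH hL) hf (by
    rintro ⟨k, x, y⟩ ⟨⟨hp1, hp2⟩, ⟨hp3, hp4⟩, hp5, hp6⟩
    have hp1' : k ∈ G := hp1
    have hp2' : Orth k := hp2
    have hp3' : x ∈ pp H := hp3
    have hp5' : y ∈ pp L := hp5
    have hp6' : ip y y = 1 := hp6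
    show 0 < ip (x - cA k y) (x - cA k y)
    have hs : ∀ i, ((x - cA k y) i)ᵀ = (x - cA k y) i :=
      Eps_sub hp3'.1 (Eps_symm hp2' hp5'.1)
    rcases (ip_nonneg hs).lt_or_eq with h1 | h1
    · exact h1
    · exfalso
      have h2 := ip_self_zero hs h1.symm
      have h3 : x = cA k y := sub_eq_zero.1 h2
      have h4 := hd k hp1' hp2' x hp3' y hp5' h3
      have h5 : ip (cA k y) (cA k y) = ip y y := ip_cA _ _ _
      rw [← h3, h4, ip_zero_left, hp6'] at h5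
      exact zero_ne_one h5)
  refine ⟨e, he0, ?_⟩
  intro k hk ho x hx hx4 y hy hy1
  have hm := he (k, (x, y)) ⟨⟨hk, ho⟩, ⟨⟨hx, hx4⟩, ⟨hy, hy1⟩⟩⟩
  exact hm

theorem exists_eps (hG : SelfAdj G) (hH : SelfAdj H) (hL : SelfAdj L)
    (hd : ∀ k ∈ G, Orth k → ∀ x ∈ pp H, ∀ y ∈ pp L, x = cA k y → x = 0) :
    ∃ ε : ℝ, 0 < ε ∧ ∀ k ∈ G, Orth k → ∀ x ∈ pp H, ∀ y ∈ pp L,
      ε * ip y y ≤ ip (x - cA k y) (x - cA k y) := by
  obtain ⟨e, he0, he1⟩ := Eps_one hG hH hL hd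
  refine ⟨min e 1, lt_min he0 one_pos, ?_⟩
  -- the normalized case
  have key : ∀ k ∈ G, Orth k → ∀ x ∈ pp H, ∀ y ∈ pp L, ip y y = 1 →
      min e 1 ≤ ip (x - cA k y) (x - cA k y) := by
    intro k hk ho x hx y hy hy1
    by_cases h4 : ip x x ≤ 4
    · exact (min_le_left _ _).trans (he1 k hk ho x hx h4 y hy hy1)
    · push Not at h4
      refine (min_le_right _ _).trans ?_
      have hs : ∀ i, (((1 / 2 : ℝ) • x - cA k y) i)ᵀ = ((1 / 2 : ℝ) • x - cA k y) i :=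
        Eps_sub (Eps_smul _ hx.1) (Eps_symm ho hy.1)
      have h5 := ip_nonneg hs
      rw [Eps_sq, Eps_smul_sq, ip_smul_left, ip_cA, hy1] at h5
      rw [Eps_sq, ip_cA, hy1]
      -- h5 : 0 ≤ x²/4 - <x,ky> + 1 ; goal 1 ≤ x² - 2<x,ky> + 1
      nlinarith
  intro k hk ho x hx y hy
  rcases (ip_nonneg hy.1).lt_or_eq with h | h
  · set s := Real.sqrt (ip y y) with hs
    have hs0 : 0 < s := Real.sqrt_pos.2 h
    have hs2 : s ^ 2 = ip y y := Real.sq_sqrt h.le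
    have h1 := key k hk ho (s⁻¹ • x) (pp_smul _ hx) (s⁻¹ • y) (pp_smul _ hy) (by
      rw [Eps_smul_sq, ← hs2]
      field_simp)
    rw [cA_smul, ← smul_sub, Eps_smul_sq] at h1
    rw [← hs2]
    have h2 : s ^ 2 * (s⁻¹ ^ 2 * ip (x - cA k y) (x - cA k y)) =
        ip (x - cA k y) (x - cA k y) := by
      field_simp
    have h3 := mul_le_mul_of_nonneg_left h1 (sq_nonneg s)
    rw [h2] at h3
    linarith
  · rw [← h, mul_zero]
    exact ip_nonneg (Eps_sub hx.1 (Eps_symm ho hy.1))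

end Pool.Agent.MP_417c68_gt
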