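import Pool.Agent.Lib.MP_417c68_gt_D.Log
import Pool.Agent.Lib.MP_417c68_gt_D.Eps

/-!
# MP_417c68_gt, module Proper: disjointness gives properness, any real rank
-/

noncomputable section

namespace Pool.Agent.MP_417c68_gt

open Matrix NormedSpace

variable {n : ℕ} {N : Fin n → ℕ} {G H L : Subgroup (Alg N)ˣ}

private theorem Proper_ip_fr {X : Alg N} (hX : ∀ i, (X i)ᵀ = X i) :
    ip X X = ∑ i, fr (X i) := by
  unfold ip fr
  exact Finset.sum_congr rfl fun i _ => by rw [hX i]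

private theorem Proper_symm_sub {x y : Alg N} (hx : ∀ i, (x i)ᵀ = x i) (hy : ∀ i, (y i)ᵀ = y i)
    (i : Fin n) : ((x - y) i)ᵀ = (x - y) i := by
  rw [Pi.sub_apply, Matrix.transpose_sub, hx, hy]

/-- block bounds give a bound of the square -/
private theorem Proper_ip_le {x y : Alg N} (hx : ∀ i, (x i)ᵀ = x i) (hy : ∀ i, (y i)ᵀ = y i)
    {R : ℝ} (h : ∀ i, 4 * fr (x i - y i) ≤ 2 * R) :
    ip (x - y) (x - y) ≤ n * R / 2 := by
  rw [Proper_ip_fr (Proper_symm_sub hx hy)]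
  have h1 : ∑ i, fr ((x - y) i) ≤ ∑ _i : Fin n, R / 2 := by
    refine Finset.sum_le_sum fun i _ => ?_
    have h2 := h i
    rw [Pi.sub_apply]
    linarith
  rw [Finset.sum_const, Finset.card_univ, Fintype.card_fin, nsmul_eq_mul] at h1
  linarith

private theorem Proper_par {u v : Alg N} (hu : ∀ i, (u i)ᵀ = u i) (hv : ∀ i, (v i)ᵀ = v i) :
    ip (u - v) (u - v) ≤ 2 * ip u u + 2 * ip v v := by
  have h1 : ∀ i, ((u + v) i)ᵀ = (u + v) i := fun i => by
    rw [Pi.add_apply, Matrix.transpose_add, hu, hv]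
  have h2 := ip_nonneg h1
  rw [ip_add_left, ip_comm u (u + v), ip_comm v (u + v), ip_add_left, ip_add_left,
    ip_comm v u] at h2
  rw [ip_sub_left, ip_comm u (u - v), ip_comm v (u - v), ip_sub_left, ip_sub_left, ip_comm v u]
  linarith

/-- two symmetric elements with a bounded quotient are close -/
private theorem Proper_close {y z : Alg N} (hy : ∀ i, (y i)ᵀ = y i) (hz : ∀ i, (z i)ᵀ = z i)
    {R : ℝ} {g q : (Alg N)ˣ} (hg : g = (eu z)⁻¹ * eu y) (hq : q = (eu y)⁻¹ * eu z)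
    (h1 : ∀ i, fr (g.1 i) ≤ R) (h2 : ∀ i, fr (q.1 i) ≤ R) :
    ip (y - z) (y - z) ≤ n * R / 2 := by
  refine Proper_ip_le hy hz fun i => ?_
  have h3 := log_bound (hy i) (hz i)
  have h4 : g.1 i = exp (-z i) * exp (y i) := by
    rw [hg]
    rfl
  have h5 : q.1 i = exp (-y i) * exp (z i) := by
    rw [hq]
    rfl
  have h6 := h1 i
  have h7 := h2 i
  rw [h4] at h6
  rw [h5] at h7
  have h8 : (0 : ℝ) ≤ N i := Nat.cast_nonneg _
  linarith

private theorem Proper_fr_left {k g : (Alg N)ˣ} (hk : Orth k) (i : Fin n) :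
    fr ((k * g).1 i) = fr (g.1 i) :=
  fr_orth_left (hk i)

private theorem Proper_fr_right {k g : (Alg N)ˣ} (hk : Orth k) (i : Fin n) :
    fr ((g * k).1 i) = fr (g.1 i) :=
  fr_orth_right (orth_right hk i)

theorem proper_of_disj (hG : SelfAdj G) (hH : SelfAdj H) (hL : SelfAdj L)
    (hHG : H ≤ G) (hLG : L ≤ G)
    (hd : ∀ k ∈ G, Orth k → ∀ x ∈ pp H, ∀ y ∈ pp L, x = cA k y → x = 0) :
    ProperAct G H L := by
  intro C hC hCG
  obtain ⟨R, hR⟩ := exists_KR hC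
  obtain ⟨ε, hε, hε2⟩ := exists_eps hG hH hL hd
  refine ⟨(fun p : (Alg N)ˣ × Alg N => p.1 * eu p.2) ''
    ({k : (Alg N)ˣ | Orth k} ×ˢ
      {X : Alg N | (∀ i, (X i)ᵀ = X i) ∧ ip X X ≤ 2 * n * R / ε}), ?_, ?_⟩
  · refine ((isCompact_orth (N := N)).prod (isCompact_symm_ball N _)).image ?_
    exact continuous_fst.mul (continuous_eu.comp continuous_snd)
  · intro l hl h hh c hc c' hc' he
    obtain ⟨y, hy, k1, hk1, ho1, hl1⟩ := polar_right hL hl
    obtain ⟨x, hx, k2, hk2, ho2, hh1⟩ := polar_left hH hh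
    have hxG : x ∈ pp G := pp_mono hHG hx
    have haG : k1⁻¹ * c' * eu x ∈ G :=
      G.mul_mem (G.mul_mem (G.inv_mem (hLG hk1)) (hCG hc')) (eu_mem hxG)
    obtain ⟨z, hz, k, hk, ho, hz1⟩ := polar_left hG haG
    refine ⟨(k1, y), ⟨ho1, hy.1, ?_⟩, hl1.symm⟩
    show ip y y ≤ 2 * n * R / ε
    rw [hl1, hh1] at he
    -- the element `eu y`
    have hy1 : eu y = k1⁻¹ * c' * eu x * (k2 * c⁻¹) := by
      have h1 : eu y = k1⁻¹ * (k1 * eu y * c) * c⁻¹ := by group
      rw [h1, he]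
      group
    -- (i)
    have b1 : ip (y - z) (y - z) ≤ n * R / 2 := by
      refine Proper_close (g := k * k2 * c⁻¹) (q := c * (k * k2)⁻¹) hy.1 hz.1 ?_ ?_ ?_ ?_
      · rw [hy1, hz1]
        group
      · rw [hy1, hz1]
        group
      · intro i
        rw [Proper_fr_left (orth_mul ho ho2)]
        exact (hR hc i).2
      · intro i
        rw [Proper_fr_right (orth_inv (orth_mul ho ho2))]
        exact (hR hc i).1
    -- (ii)
    have hki : k⁻¹ ∈ G := G.inv_mem hk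
    have hoi : Orth k⁻¹ := orth_inv ho
    have hz' : cA k⁻¹ z ∈ pp G := pp_cA hki hoi hz
    have e1 : eu (cA k⁻¹ z) = k⁻¹ * eu z * k := by
      rw [eu_cA, inv_inv]
    have e2 : eu z = k1⁻¹ * c' * eu x * k⁻¹ := by
      rw [hz1]
      group
    have b2 : ip (-cA k⁻¹ z - -x) (-cA k⁻¹ z - -x) ≤ n * R / 2 := by
      refine Proper_close (g := c'⁻¹ * (k1 * k)) (q := (k1 * k)⁻¹ * c')
        (fun i => ?_) (fun i => ?_) ?_ ?_ ?_ ?_
      · rw [Pi.neg_apply, Matrix.transpose_neg, hz'.1 i]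
      · rw [Pi.neg_apply, Matrix.transpose_neg, hx.1 i]
      · rw [eu_neg, eu_neg, e1, e2]
        group
      · rw [eu_neg, eu_neg, e1, e2]
        group
      · intro i
        rw [Proper_fr_right (orth_mul ho1 ho)]
        exact (hR hc' i).2
      · intro i
        rw [Proper_fr_left (orth_inv (orth_mul ho1 ho))]
        exact (hR hc' i).1
    have b3 : ip (cA k⁻¹ y - cA k⁻¹ z) (cA k⁻¹ y - cA k⁻¹ z) ≤ n * R / 2 := by
      rw [← cA_sub, ip_cA]
      exact b1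
    have hy' : ∀ i, (cA k⁻¹ y i)ᵀ = cA k⁻¹ y i := (pp_cA hki hoi (pp_mono hLG hy)).1
    have b4 := Proper_par (Proper_symm_sub hx.1 hz'.1) (Proper_symm_sub hy' hz'.1)
    have e3 : x - cA k⁻¹ z - (cA k⁻¹ y - cA k⁻¹ z) = x - cA k⁻¹ y := by abel
    have e4 : -cA k⁻¹ z - -x = x - cA k⁻¹ z := by abel
    rw [e4] at b2
    rw [e3] at b4
    have b5 := hε2 k⁻¹ hki hoi x hx y hy
    rw [le_div_iff₀ hε]
    have e5 : (2 : ℝ) * n * R = 2 * (n * R / 2) + 2 * (n * R / 2) := by ring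
    rw [e5]
    linarith

end Pool.Agent.MP_417c68_gt
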