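import Pool.Agent.Lib.MP_417c68_gt_D.Sum
import Pool.Agent.Lib.MP_417c68_gt_D.Proper
import Pool.Agent.Lib.MP_417c68_gt_D.Cocpt2
import Pool.Agent.Lib.MP_417c68_gt_D.Cj

/-!
# MP_417c68_gt, module KY: the criteria in any real rank (assembly)
-/

noncomputable section

namespace Pool.Agent.MP_417c68_gt

open Matrix NormedSpace

variable {n : ℕ} {N : Fin n → ℕ} {G H L : Subgroup (Alg N)ˣ}

theorem ky (hG : SelfAdj G) (hH : SelfAdj H) (hL : SelfAdj L) (hHG : H ≤ G) (hLG : L ≤ G) :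
    ProperAct G H L ∧ Cocompact G H L ↔ Cpl G H L := by
  constructor
  · rintro ⟨hP, hC⟩ k hk ho
    refine ⟨fun x hx y hy h => ?_, fun z hz => ?_⟩
    · have h1 := proper_cond (a := 1) (b := 1) G.one_mem G.one_mem hP k hk x
        (by rwa [cj_one]) y (by rwa [cj_one]) h.symm
      exact h1
    · have hS := selfAdj_cj ho hL
      obtain ⟨C, hCc, hCG, hC⟩ := hC
      obtain ⟨R, hR⟩ := exists_KR ((isCompact_singleton (x := k)).mul hCc)
      obtain ⟨x, hx, y, hy, h⟩ := sum_gen hG hH hS hHG (cj_le' hLG hk) R (fun g hg => by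
        obtain ⟨l, hl, c, hc, h, hh, he⟩ := hC (k⁻¹ * g) (G.mul_mem (G.inv_mem hk) hg)
        refine ⟨k * l * k⁻¹, mem_cj.2 (by simpa [mul_assoc] using hl), k * c,
          hR (Set.mul_mem_mul rfl hc), h, hh, ?_⟩
        rw [show k * l * k⁻¹ * (k * c) * h = k * (l * c * h) by group, ← he]
        group) z hz
      exact ⟨x, hx, cA k⁻¹ y, (mem_pp_cj ho).1 hy, by rw [cA_cA_inv]; exact h⟩
  · intro h
    have hP := proper_of_disj hG hH hL hHG hLG (fun k hk ho => (h k hk ho).1)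
    exact ⟨hP, cocompact_of_sum hG hH hL hHG hLG hP (fun k hk ho => (h k hk ho).2)⟩

theorem std_iff (hG : SelfAdj G) (hHG : H ≤ G) {a : (Alg N)ˣ} (ha : a ∈ G)
    (hH : SelfAdj (cj a H)) :
    Std G H ↔ ∃ L ≤ G, SelfAdj L ∧ Cpl G (cj a H) L := by
  have haG := cj_le' hHG ha
  constructor
  · rintro ⟨L, ⟨hLG, b, hb, hL⟩, hP, hC⟩
    exact ⟨cj b L, cj_le' hLG hb, hL, (ky hG hH hL haG (cj_le' hLG hb)).1
      ⟨(properAct_cj ha hb).2 hP, (cocompact_cj ha hb).2 hC⟩⟩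
  · rintro ⟨L, hLG, hL, hc⟩
    obtain ⟨hP, hC⟩ := (ky hG hH hL haG hLG).2 hc
    refine ⟨L, ⟨hLG, 1, G.one_mem, by rwa [cj_one]⟩, ?_, ?_⟩
    · have h1 : ProperAct G (cj a H) (cj 1 L) := by rwa [cj_one]
      exact (properAct_cj ha G.one_mem).1 h1
    · have h1 : Cocompact G (cj a H) (cj 1 L) := by rwa [cj_one]
      exact (cocompact_cj ha G.one_mem).1 h1

/-- the case of a self-adjoint subgroup -/
theorem std_iff' (hG : SelfAdj G) (hHG : H ≤ G) (hH : SelfAdj H) :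
    Std G H ↔ ∃ L ≤ G, SelfAdj L ∧ Cpl G H L := by
  have h1 := std_iff hG hHG G.one_mem (a := 1) (by rwa [cj_one])
  rwa [cj_one] at h1

/-- `Cpl` depends only on the symmetric parts -/
theorem cpl_congr {H' : Subgroup (Alg N)ˣ} (h : ∀ X, X ∈ pp H ↔ X ∈ pp H') (hc : Cpl G H L) :
    Cpl G H' L := fun k hk ho =>
  ⟨fun x hx y hy he => (hc k hk ho).1 x ((h x).2 hx) y hy he, fun z hz => by
    obtain ⟨x, hx, y, hy, he⟩ := (hc k hk ho).2 z hz
    exact ⟨x, (h x).1 hx, y, hy, he⟩⟩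

end Pool.Agent.MP_417c68_gt
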