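import Pool.Agent.Lib.MP_417c68_gt_D.PrjM

/-!
# MP_417c68_gt, module Dim: dimensions
-/

noncomputable section

namespace Pool.Agent.MP_417c68_gt

open Matrix NormedSpace

variable {n : ℕ} {N : Fin n → ℕ} {G H L : Subgroup (Alg N)ˣ}
variable {I : Finset (Fin n)}

theorem cpl_of_dim {H' : Subgroup (Alg N)ˣ} (hG : SelfAdj G) (hH : SelfAdj H)
    (hH' : SelfAdj H') (hL : SelfAdj L) (hHG : H ≤ G) (hHG' : H' ≤ G) (hLG : L ≤ G)
    (hc : Cpl G H L) (hd : Module.finrank ℝ (pS H) ≤ Module.finrank ℝ (pS H'))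
    (h : ∀ k ∈ G, Orth k → ∀ x ∈ pp H', ∀ y ∈ pp L, x = cA k y → x = 0) : Cpl G H' L := by
  intro k hk ho
  refine ⟨h k hk ho, fun z hz => ?_⟩
  have hVP : pS H' ≤ pS G := fun X hX =>
    (mem_pS hG.closed).2 (pp_mono hHG' ((mem_pS hH'.closed).1 hX))
  have hWP : (pS L).map (cL k) ≤ pS G := by
    rintro _ ⟨y, hy, rfl⟩
    exact (mem_pS hG.closed).2 (pp_cA hk ho (pp_mono hLG ((mem_pS hL.closed).1 hy)))
  have hdisj : pS H' ⊓ (pS L).map (cL k) = ⊥ := by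
    rw [Submodule.eq_bot_iff]
    rintro x ⟨hx, y, hy, hxy⟩
    exact h k hk ho x ((mem_pS hH'.closed).1 hx) y ((mem_pS hL.closed).1 hy) hxy.symm
  have hsum : pS G ≤ pS H ⊔ (pS L).map (cL k) := by
    intro X hX
    obtain ⟨x, hx, y, hy, e⟩ := (hc k hk ho).2 X ((mem_pS hG.closed).1 hX)
    rw [e]
    exact Submodule.add_mem_sup ((mem_pS hH.closed).2 hx)
      ⟨y, (mem_pS hL.closed).2 hy, rfl⟩
  have e1 := Submodule.finrank_sup_add_finrank_inf_eq (pS H') ((pS L).map (cL k))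
  rw [hdisj, finrank_bot, add_zero] at e1
  have e2 := Submodule.finrank_add_le_finrank_add_finrank (pS H) ((pS L).map (cL k))
  have e3 := Submodule.finrank_mono hsum
  have e4 : pS H' ⊔ (pS L).map (cL k) = pS G :=
    Submodule.eq_of_le_of_finrank_le (sup_le hVP hWP) (by omega)
  have hz' : z ∈ pS H' ⊔ (pS L).map (cL k) := by
    rw [e4]
    exact (mem_pS hG.closed).2 hz
  obtain ⟨x, hx, w, ⟨y, hy, rfl⟩, rfl⟩ := Submodule.mem_sup.1 hz'
  exact ⟨x, (mem_pS hH'.closed).1 hx, y, (mem_pS hL.closed).1 hy, rfl⟩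

/-- dimension count for an idempotent map -/
private theorem dim_gen {V : Type*} [AddCommGroup V] [Module ℝ V] [FiniteDimensional ℝ V]
    (t : V →ₗ[ℝ] V) (ht : ∀ v, t (t v) = t v) (P Q : Submodule ℝ V)
    (h1 : ∀ v ∈ P, t v ∈ Q) (h2 : ∀ v ∈ P, t v = 0 → v ∈ Q) :
    Module.finrank ℝ P ≤ Module.finrank ℝ Q := by
  have e := LinearMap.finrank_range_add_finrank_ker (t.domRestrict P)
  rw [← e, ← Module.finrank_prod]
  let g : (LinearMap.range (t.domRestrict P)) × (LinearMap.ker (t.domRestrict P)) →ₗ[ℝ] V :=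
    (LinearMap.range (t.domRestrict P)).subtype.coprod
      (P.subtype ∘ₗ (LinearMap.ker (t.domRestrict P)).subtype)
  have hg : ∀ p, g p = p.1.1 + p.2.1.1 := fun p => rfl
  have hD : ∀ p, g p ∈ Q := by
    intro p
    rw [hg]
    refine Q.add_mem ?_ ?_
    · obtain ⟨v, hv⟩ := p.1.2
      rw [← hv]
      exact h1 v.1 v.2
    · exact h2 p.2.1.1 p.2.1.2 (LinearMap.mem_ker.1 p.2.2)
  refine LinearMap.finrank_le_finrank_of_injective (f := g.codRestrict Q hD) ?_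
  intro p q hpq
  have hp : g p = g q := congrArg Subtype.val hpq
  rw [hg, hg] at hp
  have h3 : ∀ a : LinearMap.range (t.domRestrict P), t a.1 = a.1 := by
    intro a
    obtain ⟨v, hv⟩ := a.2
    rw [← hv]
    exact ht v.1
  have h4 : ∀ b : LinearMap.ker (t.domRestrict P), t b.1.1 = 0 := fun b =>
    LinearMap.mem_ker.1 b.2
  have h5 := congrArg t hp
  rw [map_add, map_add, h3, h3, h4, h4, add_zero, add_zero] at h5
  rw [h5] at hp
  exact Prod.ext (Subtype.ext h5) (Subtype.ext (Subtype.ext (add_left_cancel hp)))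

private theorem dim_aux {D : Subgroup (Alg N)ˣ} (J : Finset (Fin n))
    (h1 : ∀ v ∈ pS H, trA J v ∈ pS D) (h2 : ∀ v ∈ pS H, trA J v = 0 → v ∈ pS D) :
    Module.finrank ℝ (pS H) ≤ Module.finrank ℝ (pS D) :=
  dim_gen (trL J) (fun v => trA_idem J v) (pS H) (pS D) h1 h2

theorem finrank_pr (hH : SelfAdj H) (I : Finset (Fin n)) :
    Module.finrank ℝ (pS H) ≤ Module.finrank ℝ (pS (Pr (LI H Iᶜ) (Prj H Iᶜ) I)) := by
  have hc := (selfAdj_pr (I := I) (selfAdj_LI hH Iᶜ) (selfAdj_prj hH Iᶜ)).closed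
  have h0 : ∀ J : Finset (Fin n), ∀ A : Subgroup (Alg N)ˣ, SelfAdj A → (0 : Alg N) ∈ pp A :=
    fun _ A hA => (mem_pS hA.closed).1 (pS A).zero_mem
  refine dim_aux Iᶜ (fun v hv => ?_) (fun v hv hv0 => ?_)
  · rw [mem_pS hc, mem_pp_pr]
    refine ⟨?_, ?_⟩
    · rw [trA_trA_compl]
      exact h0 I _ (selfAdj_LI hH Iᶜ)
    · rw [trA_idem]
      exact (mem_pp_prj hH).2 ⟨v, (mem_pS hH.closed).1 hv, rfl⟩
  · rw [mem_pS hc, mem_pp_pr]
    have h1 : trA I v = v := trA_eq_self_iff.2 hv0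
    refine ⟨?_, ?_⟩
    · rw [h1]
      exact mem_pp_LI_compl.2 ⟨(mem_pS hH.closed).1 hv, h1⟩
    · rw [hv0]
      exact h0 I _ (selfAdj_prj hH Iᶜ)

theorem finrank_pr' (hH : SelfAdj H) (I : Finset (Fin n)) :
    Module.finrank ℝ (pS H) ≤ Module.finrank ℝ (pS (Pr (Prj H I) (LI H I) I)) := by
  have hc := (selfAdj_pr (I := I) (selfAdj_prj hH I) (selfAdj_LI hH I)).closed
  have h0 : ∀ J : Finset (Fin n), ∀ A : Subgroup (Alg N)ˣ, SelfAdj A → (0 : Alg N) ∈ pp A :=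
    fun _ A hA => (mem_pS hA.closed).1 (pS A).zero_mem
  refine dim_aux I (fun v hv => ?_) (fun v hv hv0 => ?_)
  · rw [mem_pS hc, mem_pp_pr]
    refine ⟨?_, ?_⟩
    · rw [trA_idem]
      exact (mem_pp_prj hH).2 ⟨v, (mem_pS hH.closed).1 hv, rfl⟩
    · rw [trA_compl_trA]
      exact h0 I _ (selfAdj_LI hH I)
  · rw [mem_pS hc, mem_pp_pr]
    have h1 : trA Iᶜ v = v := by
      have h2 := trA_add_compl I v
      rwa [hv0, zero_add] at h2
    refine ⟨?_, ?_⟩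
    · rw [hv0]
      exact h0 I _ (selfAdj_prj hH I)
    · rw [h1]
      have h3 := (mem_pp_LI_compl (G := H) (I := Iᶜ)).2 ⟨(mem_pS hH.closed).1 hv, h1⟩
      rwa [compl_compl] at h3

end Pool.Agent.MP_417c68_gt
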