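import Pool.Agent.Lib.MP_417c68_gt_D.LinkA
import Pool.Agent.Lib.MP_417c68_gt_D.Dim

/-!
# MP_417c68_gt, module LinkC: the positive case
-/

noncomputable section

namespace Pool.Agent.MP_417c68_gt

open Matrix NormedSpace

variable {n : ℕ} {N : Fin n → ℕ} {G H L : Subgroup (Alg N)ˣ}
variable {I : Finset (Fin n)}

theorem cpl_of_pos (hG : SelfAdj G) (hGs : SplitAt G I) (hH : SelfAdj H)
    (hL : SelfAdj L) (hHG : H ≤ G) (hLG : L ≤ G) (hc : Cpl G H L)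
    (h : ∀ k ∈ G, Orth k → ∀ p ∈ RR H L I k, 0 ≤ qf I p) :
    Cpl G (Pr (LI H Iᶜ) (Prj H Iᶜ) I) L := by
  have hS : SelfAdj (LI H Iᶜ) := selfAdj_LI hH Iᶜ
  have hP : SelfAdj (Prj H Iᶜ) := selfAdj_prj hH Iᶜ
  have hle : Pr (LI H Iᶜ) (Prj H Iᶜ) I ≤ G :=
    pr_le ((LI_le Iᶜ).trans hHG) ((prj_le hHG (splitAt_compl hGs)).trans (LI_le _))
  refine cpl_of_dim hG hH (selfAdj_pr hS hP) hL hHG hle hLG hc (finrank_pr hH I) ?_
  intro k hk ho X hX y hy e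
  rw [mem_pp_pr, mem_pp_LI_compl, mem_pp_prj hH] at hX
  obtain ⟨⟨hv, hvI⟩, b, hb, hbe⟩ := hX
  obtain ⟨b₁, hb₁, e₁, b₂, hb₂, e₂, x', hx', eb⟩ := lnk_decomp hH I hb
  have hbc : trA Iᶜ b = b₂ + trA Iᶜ x' := by
    rw [eb, trA_add, trA_add, e₂, ← e₁, trA_compl_trA, zero_add]
  have hXe : X = trA I X + (b₂ + trA Iᶜ x') := by
    rw [← hbc, hbe, trA_add_compl]
  have h0l : (0 : Alg N) ∈ lnk H I := by
    have h1 := lnk_comb hH hx' hx' 0 0
    rwa [zero_smul, add_zero] at h1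
  have hsum : trA I (0 : Alg N) + trA I X + trA Iᶜ x' + b₂ = cA k y := by
    rw [← e, trA_zero, zero_add, add_assoc, add_comm (trA Iᶜ x') b₂]
    exact hXe.symm
  have hmem : ((0 : Alg N), x') ∈ RR H L I k :=
    ⟨h0l, hx', trA I X, hv, hvI, b₂, hb₂, e₂, y, hy, hsum⟩
  have hq := h k hk ho _ hmem
  unfold qf at hq
  dsimp only at hq
  rw [trA_zero, ip_zero_left, zero_sub] at hq
  have hs : ∀ i, (x' i)ᵀ = x' i := hx'.1.1
  have h0 : ip (trA I x') (trA I x') = 0 :=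
    le_antisymm (by linarith) (ip_nonneg (symm_trA hs))
  have h1 : trA I x' = 0 := ip_self_zero (symm_trA hs) h0
  have h2 : x' = 0 := lnk_inj hx' h1
  have hXH : X ∈ pp H := by
    rw [hXe, h2, trA_zero, add_zero]
    exact pp_add hH hv hb₂
  exact (hc k hk ho).1 X hXH y hy e

end Pool.Agent.MP_417c68_gt
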