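import Pool.Agent.Lib.MP_417c68_gt_D.LinkA
import Pool.Agent.Lib.MP_417c68_gt_D.Dim

/-!
# MP_417c68_gt, module LinkD: the negative case
-/

noncomputable section

namespace Pool.Agent.MP_417c68_gt

open Matrix NormedSpace

variable {n : ℕ} {N : Fin n → ℕ} {G H L : Subgroup (Alg N)ˣ}
variable {I : Finset (Fin n)}

theorem LinkD_lnk_zero (hH : SelfAdj H) {x : Alg N} (hx : x ∈ lnk H I) : (0 : Alg N) ∈ lnk H I := by
  have h := lnk_comb hH hx hx 0 0
  rw [zero_smul, zero_add] at h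
  exact h

theorem cpl_of_neg (hG : SelfAdj G) (hGs : SplitAt G I) (hH : SelfAdj H)
    (hL : SelfAdj L) (hHG : H ≤ G) (hLG : L ≤ G) (hc : Cpl G H L)
    (h : ∀ k ∈ G, Orth k → ∀ p ∈ RR H L I k, qf I p ≤ 0) :
    Cpl G (Pr (Prj H I) (LI H I) I) L := by
  have hA : SelfAdj (Prj H I) := selfAdj_prj hH I
  have hB : SelfAdj (LI H I) := selfAdj_LI hH I
  have hAG : Prj H I ≤ G := (prj_le hHG hGs).trans (LI_le _)
  have hBG : LI H I ≤ G := (LI_le _).trans hHG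
  refine cpl_of_dim hG hH (selfAdj_pr hA hB) hL hHG (pr_le hAG hBG) hLG hc (finrank_pr' hH I) ?_
  intro k hk ho X hX y hy hXy
  obtain ⟨h1, h2⟩ := mem_pp_pr.1 hX
  obtain ⟨b, hb, hbX⟩ := (mem_pp_prj hH).1 h1
  obtain ⟨b₁, hb₁, hb₁', b₂, hb₂, hb₂', x, hx, hbx⟩ := lnk_decomp hH I hb
  have h3 : trA I X = b₁ + trA I x := by
    rw [← hbX, hbx, trA_add, trA_add, hb₁', ← hb₂', trA_trA_compl, add_zero]
  have h4 : trA Iᶜ X ∈ pp H := pp_mono (LI_le I) h2
  have hx0 : x = 0 := by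
    have h5 : ((x, 0) : Alg N × Alg N) ∈ RR H L I k := by
      refine ⟨hx, LinkD_lnk_zero hH hx, b₁, hb₁, hb₁', trA Iᶜ X, h4, trA_idem _ _, y, hy, ?_⟩
      show trA I x + b₁ + trA Iᶜ 0 + trA Iᶜ X = cA k y
      rw [trA_zero, add_zero, add_comm (trA I x), ← h3, trA_add_compl, hXy]
    have h6 := h k hk ho _ h5
    unfold qf at h6
    rw [trA_zero, ip_zero_left, sub_zero] at h6
    have h7 : ∀ i, (trA I x i)ᵀ = trA I x i := fun i => symm_trA hx.1.1 i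
    have h8 := ip_self_zero h7 (le_antisymm h6 (ip_nonneg h7))
    exact lnk_inj hx h8
  have h9 : X ∈ pp H := by
    rw [← trA_add_compl I X, h3, hx0, trA_zero, add_zero]
    exact pp_add hH hb₁ h4
  exact (hc k hk ho).1 X h9 y hy hXy

end Pool.Agent.MP_417c68_gt
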