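import Pool.Agent.Lib.MP_417c68_gt_D.Blk

/-!
# MP_417c68_gt, module PrG: product groups
-/

noncomputable section

namespace Pool.Agent.MP_417c68_gt

open Matrix NormedSpace

variable {n : ℕ} {N : Fin n → ℕ} {G H L : Subgroup (Alg N)ˣ}

private theorem prG_block {A : Subgroup (Alg N)ˣ} {I : Finset (Fin n)} (hA : SelfAdj A)
    {g : (Alg N)ˣ} (hg : tru I g ∈ A) : ∃ X ∈ pp A, (∀ i ∉ I, X i = 0) ∧
      ∀ i ∈ I, (g.1 i)ᵀ * g.1 i = exp (X i) := by
  obtain ⟨X, hX, h⟩ := hA.polar _ hg
  refine ⟨X, hX, fun i hi => ?_, fun i hi => ?_⟩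
  · have h1 := h i
    rw [tru_out hi, Matrix.transpose_one, mul_one] at h1
    exact zero_of_exp (hX.1 i) h1.symm
  · have h1 := h i
    rwa [tru_in hi] at h1

private theorem prG_mem {A : Subgroup (Alg N)ˣ} {I : Finset (Fin n)} {X : Alg N}
    (hs : ∀ i, (X i)ᵀ = X i) : trA I X ∈ pp A ↔ ∀ t : ℝ, tru I (eu (t • X)) ∈ A := by
  constructor
  · intro h t
    rw [← eu_trA, trA_smul]
    exact h.2 t
  · intro h
    refine ⟨symm_trA hs, fun t => ?_⟩
    rw [← trA_smul, eu_trA]
    exact h t

private theorem prG_symm {I : Finset (Fin n)} {X : Alg N} {i : Fin n} (hi : i ∈ I)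
    {A : Subgroup (Alg N)ˣ} (h : trA I X ∈ pp A) : (X i)ᵀ = X i := by
  have h1 := h.1 i
  rwa [trA_in hi] at h1

theorem selfAdj_pr {A B : Subgroup (Alg N)ˣ} {I : Finset (Fin n)} (hA : SelfAdj A)
    (hB : SelfAdj B) : SelfAdj (Pr A B I) := by
  refine ⟨?_, fun g hg => ?_⟩
  · exact (hA.closed.preimage (continuous_tru I)).inter (hB.closed.preimage (continuous_tru Iᶜ))
  · obtain ⟨X, hX, hX0, hXe⟩ := prG_block hA hg.1
    obtain ⟨Y, hY, hY0, hYe⟩ := prG_block hB hg.2
    have e1 : trA I (X + Y) = X := by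
      funext i
      by_cases hi : i ∈ I
      · rw [trA_in hi, Pi.add_apply, hY0 i (by simpa using hi), add_zero]
      · rw [trA_out hi, hX0 i hi]
    have e2 : trA Iᶜ (X + Y) = Y := by
      funext i
      by_cases hi : i ∈ Iᶜ
      · rw [trA_in hi, Pi.add_apply, hX0 i (by simpa using hi), zero_add]
      · rw [trA_out hi, hY0 i hi]
    have hs : ∀ i, ((X + Y) i)ᵀ = (X + Y) i := fun i => by
      rw [Pi.add_apply, Matrix.transpose_add, hX.1 i, hY.1 i]
    refine ⟨X + Y, ⟨hs, fun t => ⟨?_, ?_⟩⟩, fun i => ?_⟩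
    · exact (prG_mem hs).1 (by rw [e1]; exact hX) t
    · exact (prG_mem hs).1 (by rw [e2]; exact hY) t
    · by_cases hi : i ∈ I
      · rw [hXe i hi, Pi.add_apply, hY0 i (by simpa using hi), add_zero]
      · rw [hYe i (by simpa using hi), Pi.add_apply, hX0 i hi, zero_add]

theorem mem_pp_pr {A B : Subgroup (Alg N)ˣ} {I : Finset (Fin n)} {X : Alg N} :
    X ∈ pp (Pr A B I) ↔ trA I X ∈ pp A ∧ trA Iᶜ X ∈ pp B := by
  constructor
  · intro h
    exact ⟨(prG_mem h.1).2 fun t => (h.2 t).1, (prG_mem h.1).2 fun t => (h.2 t).2⟩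
  · rintro ⟨h1, h2⟩
    have hs : ∀ i, (X i)ᵀ = X i := fun i => by
      by_cases hi : i ∈ I
      · exact prG_symm hi h1
      · exact prG_symm (I := Iᶜ) (by simpa using hi) h2
    exact ⟨hs, fun t => ⟨(prG_mem hs).1 h1 t, (prG_mem hs).1 h2 t⟩⟩

theorem pr_le {A B : Subgroup (Alg N)ˣ} {I : Finset (Fin n)} (hA : A ≤ G) (hB : B ≤ G) :
    Pr A B I ≤ G := by
  intro g hg
  rw [← tru_mul_compl I g]
  exact G.mul_mem (hA hg.1) (hB hg.2)

theorem selfAdj_prF {m : ℕ} {c : Fin n → Fin m} {A : Fin m → Subgroup (Alg N)ˣ}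
    (hA : ∀ j, SelfAdj (A j)) : SelfAdj (PrF c A) := by
  refine ⟨?_, fun g hg => ?_⟩
  · have h : ((PrF c A : Subgroup (Alg N)ˣ) : Set (Alg N)ˣ)
        = ⋂ j, (tru (cls c j)) ⁻¹' (A j : Set (Alg N)ˣ) := by
      ext g
      rw [Set.mem_iInter]
      rfl
    rw [h]
    exact isClosed_iInter fun j => (hA j).closed.preimage (continuous_tru _)
  · choose X hX hX0 hXe using fun j => prG_block (hA j) (hg j)
    have e : ∀ j, trA (cls c j) (fun i => X (c i) i) = X j := fun j => by
      funext i
      by_cases hi : i ∈ cls c j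
      · rw [trA_in hi, mem_cls.1 hi]
      · rw [trA_out hi, hX0 j i hi]
    have hs : ∀ i, ((fun i => X (c i) i : Alg N) i)ᵀ = (fun i => X (c i) i : Alg N) i :=
      fun i => (hX (c i)).1 i
    refine ⟨fun i => X (c i) i, ⟨hs, fun t j => ?_⟩, fun i => ?_⟩
    · exact (prG_mem hs).1 (by rw [e j]; exact hX j) t
    · exact hXe (c i) i (mem_cls.2 rfl)

theorem mem_pp_prF {m : ℕ} {c : Fin n → Fin m} {A : Fin m → Subgroup (Alg N)ˣ} {X : Alg N} :
    X ∈ pp (PrF c A) ↔ ∀ j, trA (cls c j) X ∈ pp (A j) := by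
  constructor
  · intro h j
    exact (prG_mem h.1).2 fun t => h.2 t j
  · intro h
    have hs : ∀ i, (X i)ᵀ = X i := fun i => prG_symm (mem_cls.2 rfl) (h (c i))
    exact ⟨hs, fun t j => (prG_mem hs).1 (h j) t⟩

theorem prF_le {m : ℕ} {c : Fin n → Fin m} {A : Fin m → Subgroup (Alg N)ˣ}
    (hA : ∀ j, A j ≤ G) : PrF c A ≤ G := by
  intro g hg
  have key : ∀ S : Finset (Fin m), tru (Finset.univ.filter fun i => c i ∈ S) g ∈ G := by
    intro S
    induction S using Finset.induction_on with
    | empty =>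
      have h : tru (Finset.univ.filter fun i => c i ∈ (∅ : Finset (Fin m))) g = 1 := by
        refine Units.ext (funext fun i => ?_)
        rw [tru_out (by simp)]
        rfl
      rw [h]
      exact G.one_mem
    | insert j S hj ih =>
      have h : tru (Finset.univ.filter fun i => c i ∈ insert j S) g
          = tru (cls c j) g * tru (Finset.univ.filter fun i => c i ∈ S) g := by
        refine Units.ext (funext fun i => ?_)
        show _ = (tru (cls c j) g).1 i * (tru (Finset.univ.filter fun i => c i ∈ S) g).1 i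
        by_cases hi : c i = j
        · have h1 : i ∈ Finset.univ.filter fun i => c i ∈ insert j S := by simp [hi]
          have h2 : i ∉ Finset.univ.filter fun i => c i ∈ S := by
            simpa [hi] using hj
          rw [tru_in h1, tru_in (mem_cls.2 hi), tru_out h2, mul_one]
        · have h0 : i ∉ cls c j := fun h => hi (mem_cls.1 h)
          by_cases hS : c i ∈ S
          · have h1 : i ∈ Finset.univ.filter fun i => c i ∈ insert j S := by simp [hS]
            have h2 : i ∈ Finset.univ.filter fun i => c i ∈ S := by simp [hS]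
            rw [tru_in h1, tru_out h0, tru_in h2, one_mul]
          · have h1 : i ∉ Finset.univ.filter fun i => c i ∈ insert j S := by simp [hS, hi]
            have h2 : i ∉ Finset.univ.filter fun i => c i ∈ S := by simp [hS]
            rw [tru_out h1, tru_out h0, tru_out h2, one_mul]
      rw [h]
      exact G.mul_mem (hA j (hg j)) ih
  have h := key Finset.univ
  have h2 : (Finset.univ.filter fun i => c i ∈ (Finset.univ : Finset (Fin m))) = Finset.univ := by
    simp
  rwa [h2, tru_univ] at h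

/-- a split group in terms of the classes -/
theorem mem_pp_of_cls {m : ℕ} {c : Fin n → Fin m} (hH : SelfAdj H) {X : Alg N}
    (h : ∀ j, trA (cls c j) X ∈ pp H) : X ∈ pp H := by
  have key : ∀ S : Finset (Fin m), (∑ j ∈ S, trA (cls c j) X) ∈ pp H := by
    intro S
    induction S using Finset.induction_on with
    | empty =>
      rw [Finset.sum_empty]
      exact pp_zero
    | insert j S hj ih =>
      rw [Finset.sum_insert hj]
      exact pp_add hH (h j) ih
  have e : (∑ j, trA (cls c j) X) = X := by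
    funext i
    rw [Finset.sum_apply, Finset.sum_eq_single (c i)]
    · exact trA_in (mem_cls.2 rfl)
    · intro j _ hj
      exact trA_out fun hi => hj (mem_cls.1 hi).symm
    · intro hc
      exact absurd (Finset.mem_univ _) hc
  have h1 := key Finset.univ
  rwa [e] at h1

theorem eq_of_cls {m : ℕ} {c : Fin n → Fin m} {X Y : Alg N}
    (h : ∀ j, trA (cls c j) X = trA (cls c j) Y) : X = Y := by
  funext i
  have h1 := congrFun (h (c i)) i
  rwa [trA_in (mem_cls.2 rfl), trA_in (mem_cls.2 rfl)] at h1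

end Pool.Agent.MP_417c68_gt
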