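import Pool.Agent.Lib.MP_417c68_gt_D.LinkA
import Pool.Agent.Lib.MP_417c68_gt_D.PrjM

/-!
# MP_417c68_gt, module LinkE: the case of an empty link part
-/

noncomputable section

namespace Pool.Agent.MP_417c68_gt

open Matrix NormedSpace

variable {n : ℕ} {N : Fin n → ℕ} {G H L : Subgroup (Alg N)ˣ}
variable {I : Finset (Fin n)}

/-- both parts of an element of `𝔭(H)` are in `𝔭(H)` -/
private theorem LinkE_parts (hH : SelfAdj H) (h0 : ∀ x ∈ lnk H I, x = 0) {v : Alg N}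
    (hv : v ∈ pp H) : trA I v ∈ pp H ∧ trA Iᶜ v ∈ pp H := by
  obtain ⟨v₁, hv₁, e₁, v₂, hv₂, e₂, x, hx, e⟩ := lnk_decomp hH I hv
  have hx0 : x = 0 := h0 x hx
  subst hx0
  rw [add_zero] at e
  have h1 : trA I v = v₁ := by
    rw [e, trA_add, e₁]
    conv_lhs => rw [← e₂]
    rw [trA_trA_compl, add_zero]
  have h2 : trA Iᶜ v = v₂ := by
    rw [e, trA_add, e₂]
    conv_lhs => rw [← e₁]
    rw [trA_compl_trA, zero_add]
  rw [h1, h2]
  exact ⟨hv₁, hv₂⟩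

/-- the symmetric part of the product group is `𝔭(H)` -/
private theorem LinkE_pp (hH : SelfAdj H) (h0 : ∀ x ∈ lnk H I, x = 0) {X : Alg N} :
    X ∈ pp (Pr (LI H Iᶜ) (LI H I) I) ↔ X ∈ pp H := by
  rw [mem_pp_pr, mem_pp_LI_compl, mem_pp_LI]
  constructor
  · rintro ⟨⟨h1, -⟩, h2, -⟩
    have h := pp_add hH h1 h2
    rwa [trA_add_compl] at h
  · intro hX
    obtain ⟨h1, h2⟩ := LinkE_parts hH h0 hX
    exact ⟨⟨h1, trA_idem I X⟩, h2, fun i hi => trA_out (by simpa using hi)⟩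

/-- the case of an empty link part -/
theorem cpl_of_unlinked (hH : SelfAdj H) (h0 : ∀ x ∈ lnk H I, x = 0) (hc : Cpl G H L) :
    Cpl G (Pr (LI H Iᶜ) (LI H I) I) L := by
  intro k hk ho
  obtain ⟨h1, h2⟩ := hc k hk ho
  refine ⟨fun x hx y hy e => h1 x ((LinkE_pp hH h0).1 hx) y hy e, fun z hz => ?_⟩
  obtain ⟨x, hx, y, hy, e⟩ := h2 z hz
  exact ⟨x, (LinkE_pp hH h0).2 hx, y, hy, e⟩

/-- the case of an empty link part -/
theorem pp_prj_of_unlinked (hH : SelfAdj H) (h0 : ∀ x ∈ lnk H I, x = 0) {X : Alg N} :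
    X ∈ pp (Prj H Iᶜ) ↔ X ∈ pp (LI H I) := by
  rw [mem_pp_prj hH, mem_pp_LI]
  constructor
  · rintro ⟨Y, hY, rfl⟩
    exact ⟨(LinkE_parts hH h0 hY).2, fun i hi => trA_out (by simpa using hi)⟩
  · rintro ⟨hX, hi⟩
    refine ⟨X, hX, ?_⟩
    funext i
    by_cases h : i ∈ Iᶜ
    · exact trA_in h
    · rw [trA_out h]
      exact (hi i (by simpa using h)).symm

end Pool.Agent.MP_417c68_gt
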