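import Pool.Agent.Lib.MP_417c68_gt_D.Hered
import Pool.Agent.Lib.MP_417c68_gt_D.PrjM

/-!
# MP_417c68_gt, module Prod: a complement for a product group gives complements for the factors
-/

noncomputable section

namespace Pool.Agent.MP_417c68_gt

open Matrix NormedSpace

variable {n : ℕ} {N : Fin n → ℕ} {G H L : Subgroup (Alg N)ˣ}

private theorem prod_tru_self {I : Finset (Fin n)} {k : (Alg N)ˣ} (hk : k ∈ LI G Iᶜ) :
    tru I k = k := by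
  have h := tru_LI hk
  rwa [compl_compl] at h

private theorem prod_tru_compl {I : Finset (Fin n)} {k : (Alg N)ˣ} (hk : k ∈ LI G Iᶜ) :
    tru Iᶜ k = 1 := by
  refine Units.ext (funext fun i => ?_)
  by_cases hi : i ∈ Iᶜ
  · rw [tru_in hi, hk.2 i hi]
    rfl
  · rw [tru_out hi]
    rfl

private theorem prod_swap (A B : Subgroup (Alg N)ˣ) (I : Finset (Fin n)) :
    Pr B A Iᶜ = Pr A B I := by
  ext g
  rw [mem_Pr, mem_Pr, compl_compl, and_comm]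

theorem cpl_prod {I : Finset (Fin n)} (hG : SelfAdj G) (hGs : SplitAt G I)
    {A B : Subgroup (Alg N)ˣ} (hA : SelfAdj A) (hB : SelfAdj B) (hAG : A ≤ LI G Iᶜ)
    (hBG : B ≤ LI G I) (hL : SelfAdj L) (hLG : L ≤ G) (h : Cpl G (Pr A B I) L) :
    ∃ L₁ ≤ LI G Iᶜ, SelfAdj L₁ ∧ Cpl (LI G Iᶜ) A L₁ := by
  have hJ : SelfAdj (Pr (LI G Iᶜ) B I) := selfAdj_pr (selfAdj_LI hG _) hB
  have hJG : Pr (LI G Iᶜ) B I ≤ G := pr_le (LI_le _) (hBG.trans (LI_le _))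
  have hPJ : Pr A B I ≤ Pr (LI G Iᶜ) B I := fun g hg => ⟨hAG hg.1, hg.2⟩
  have hc := cpl_inf hJ hPJ hJG h
  have hL' : SelfAdj (Pr (LI G Iᶜ) B I ⊓ L) := selfAdj_inf hJ hL
  refine ⟨Prj (Pr (LI G Iᶜ) B I ⊓ L) I, ?_, selfAdj_prj hL' I, ?_⟩
  · rintro g ⟨h', hh', rfl⟩
    exact (Subgroup.mem_inf.1 hh').1.1
  · intro k hk ho
    have hkJ : k ∈ Pr (LI G Iᶜ) B I := by
      refine ⟨?_, ?_⟩
      · rw [prod_tru_self hk]
        exact hk
      · rw [prod_tru_compl hk]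
        exact B.one_mem
    obtain ⟨h1, h2⟩ := hc k hkJ ho
    refine ⟨?_, ?_⟩
    · intro x hx y' hy' hxy
      obtain ⟨y, hy, rfl⟩ := (mem_pp_prj hL').1 hy'
      have hyJ : y ∈ pp (Pr (LI G Iᶜ) B I) := (mem_pp_inf.1 hy).1
      have hk1 : cA k y ∈ pp (Pr (LI G Iᶜ) B I) := pp_cA hkJ ho hyJ
      have hP : cA k y ∈ pp (Pr A B I) := by
        refine mem_pp_pr.2 ⟨?_, (mem_pp_pr.1 hk1).2⟩
        rw [trA_cA, ← hxy]
        exact hx
      have h3 : cA k y = 0 := h1 _ hP y hy rfl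
      rw [hxy, ← trA_cA, h3, trA_zero]
    · intro z hz
      obtain ⟨hzG, hzI⟩ := mem_pp_LI_compl.1 hz
      have hzJ : z ∈ pp (Pr (LI G Iᶜ) B I) := by
        refine mem_pp_pr.2 ⟨?_, ?_⟩
        · rw [hzI]
          exact hz
        · rw [trA_eq_self_iff.1 hzI]
          exact pp_zero
      obtain ⟨x, hx, y, hy, hxy⟩ := h2 z hzJ
      refine ⟨trA I x, (mem_pp_pr.1 hx).1, trA I y, (mem_pp_prj hL').2 ⟨y, hy, rfl⟩, ?_⟩
      rw [← trA_cA, ← trA_add, ← hxy, hzI]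

theorem cpl_prod' {I : Finset (Fin n)} (hG : SelfAdj G) (hGs : SplitAt G I)
    {A B : Subgroup (Alg N)ˣ} (hA : SelfAdj A) (hB : SelfAdj B) (hAG : A ≤ LI G Iᶜ)
    (hBG : B ≤ LI G I) (hL : SelfAdj L) (hLG : L ≤ G) (h : Cpl G (Pr A B I) L) :
    ∃ L₂ ≤ LI G I, SelfAdj L₂ ∧ Cpl (LI G I) B L₂ := by
  have h' : Cpl G (Pr B A Iᶜ) L := by
    rw [prod_swap]
    exact h
  have h2 := cpl_prod (I := Iᶜ) hG (splitAt_compl hGs) hB hA
    (by rw [compl_compl]; exact hBG) hAG hL hLG h'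
  rwa [compl_compl] at h2

end Pool.Agent.MP_417c68_gt
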