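import Pool.Agent.Lib.MP_417c68_gt_D.LinkS
import Pool.Agent.Lib.MP_417c68_gt_D.LinkC
import Pool.Agent.Lib.MP_417c68_gt_D.LinkD
import Pool.Agent.Lib.MP_417c68_gt_D.LinkE
import Pool.Agent.Lib.MP_417c68_gt_D.Cond
import Pool.Agent.Lib.MP_417c68_gt_D.Prod
import Pool.Agent.Lib.MP_417c68_gt_D.Conv
import Pool.Agent.Lib.MP_417c68_gt_D.KY

/-!
# MP_417c68_gt, module Dich: the dichotomy (assembly)
-/

noncomputable section

namespace Pool.Agent.MP_417c68_gt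

open Matrix NormedSpace

variable {n : ℕ} {N : Fin n → ℕ} {G H L : Subgroup (Alg N)ˣ}

theorem dich {I : Finset (Fin n)} (hG : SelfAdj G) (hGs : SplitAt G I) (hconn : Kconn G)
    (hH : SelfAdj H) (hL : SelfAdj L) (hHG : H ≤ G) (hLG : L ≤ G) (hc : Cpl G H L)
    (hT : CondT G H I) :
    Cpl G (Pr (LI H Iᶜ) (Prj H Iᶜ) I) L ∨ Cpl G (Pr (Prj H I) (LI H I) I) L := by
  rcases RR_sign_all hG hGs hconn hH hL hHG hLG hc hT with h | h
  · exact Or.inl (cpl_of_pos hG hGs hH hL hHG hLG hc h)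
  · exact Or.inr (cpl_of_neg hG hGs hH hL hHG hLG hc h)

/-- one factor of real rank one -/
theorem peel_step {i : Fin n} (hG : SelfAdj G) (hR : RkOne G i) (hconn : Kconn G)
    (hH : SelfAdj H) (hL : SelfAdj L) (hHG : H ≤ G) (hLG : L ≤ G) (hc : Cpl G H L) :
    ((∀ v ∈ pp H, trA {i} v = v → v = 0) ∧
      ∃ L₂ ≤ LI G {i}, SelfAdj L₂ ∧ Cpl (LI G {i}) (Prj H {i}ᶜ) L₂) ∨
    ((∀ z ∈ pp G, ∃ x ∈ pp H, x i = z i) ∧
      ∃ L₂ ≤ LI G {i}, SelfAdj L₂ ∧ Cpl (LI G {i}) (LI H {i}) L₂) := by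
  have hGs := hR.split
  have hGs' := splitAt_compl hGs
  have hLI : ∀ J, SelfAdj (LI H J) := fun J => selfAdj_LI hH J
  have hpi : Prj H {i} ≤ LI G {i}ᶜ := prj_le hHG hGs
  have hpc : Prj H {i}ᶜ ≤ LI G {i} := by
    have := prj_le hHG hGs'
    rwa [compl_compl] at this
  -- the image of a point of `G` in the block `i`
  have hpt : ∀ z ∈ pp G, trA {i} z ∈ pp (LI G {i}ᶜ) := fun z hz =>
    mem_pp_LI_compl.2 ⟨pp_trA hGs hz, trA_idem _ _⟩
  rcases lnk_or hG hR hH hHG with hU | hV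
  · have hc' := cpl_of_unlinked (G := G) (L := L) hH hU hc
    obtain ⟨L₁, hL₁, hS₁, hc₁⟩ := cpl_prod hG hGs (hLI _) (hLI _) (LI_mono hHG _)
      (LI_mono hHG _) hL hLG hc'
    obtain ⟨L₂, hL₂, hS₂, hc₂⟩ := cpl_prod' hG hGs (hLI _) (hLI _) (LI_mono hHG _)
      (LI_mono hHG _) hL hLG hc'
    rcases rk1_cpl hG hR (LI_mono hHG _) hL₁ hc₁ with h | h
    · refine Or.inl ⟨fun v hv hvi => h v (mem_pp_LI_compl.2 ⟨hv, hvi⟩), L₂, hL₂, hS₂, ?_⟩
      exact cpl_congr (fun X => (pp_prj_of_unlinked hH hU).symm) hc₂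
    · refine Or.inr ⟨fun z hz => ⟨trA {i} z, (mem_pp_LI_compl.1 (h _ (hpt z hz))).1,
        trA_in (Finset.mem_singleton_self i)⟩, L₂, hL₂, hS₂, hc₂⟩
  · rcases dich hG hGs hconn hH hL hHG hLG hc (condT_of_rkOne hG hR hHG hV) with h | h
    · obtain ⟨L₂, hL₂, hS₂, hc₂⟩ := cpl_prod' hG hGs (hLI _) (selfAdj_prj hH _)
        (LI_mono hHG _) hpc hL hLG h
      exact Or.inl ⟨hV, L₂, hL₂, hS₂, hc₂⟩
    · obtain ⟨L₁, hL₁, hS₁, hc₁⟩ := cpl_prod hG hGs (selfAdj_prj hH _) (hLI _) hpi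
        (LI_mono hHG _) hL hLG h
      obtain ⟨L₂, hL₂, hS₂, hc₂⟩ := cpl_prod' hG hGs (selfAdj_prj hH _) (hLI _) hpi
        (LI_mono hHG _) hL hLG h
      rcases rk1_cpl hG hR hpi hL₁ hc₁ with h1 | h1
      · -- the projection of `H` to the block `i` is compact
        have hz : ∀ v ∈ pp H, trA {i} v = 0 := fun v hv =>
          h1 _ ((mem_pp_prj hH).2 ⟨v, hv, rfl⟩)
        refine Or.inl ⟨hV, L₂, hL₂, hS₂, cpl_congr (fun X => ?_) hc₂⟩
        rw [mem_pp_prj hH, mem_pp_LI]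
        constructor
        · rintro ⟨hX, hXi⟩
          refine ⟨X, hX, ?_⟩
          have h3 := trA_add_compl {i} X
          rwa [hz X hX, zero_add] at h3
        · rintro ⟨Y, hY, rfl⟩
          have h3 := trA_add_compl {i} Y
          rw [hz Y hY, zero_add] at h3
          rw [h3]
          refine ⟨hY, fun j hj => ?_⟩
          rw [Finset.mem_singleton] at hj
          have h4 := congrFun (hz Y hY) j
          rwa [trA_in (by rw [hj]; exact Finset.mem_singleton_self i)] at h4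
      · refine Or.inr ⟨fun z hz => ?_, L₂, hL₂, hS₂, hc₂⟩
        obtain ⟨Y, hY, hYz⟩ := (mem_pp_prj hH).1 (h1 _ (hpt z hz))
        refine ⟨Y, hY, ?_⟩
        have h4 := congrFun hYz i
        rwa [trA_in (Finset.mem_singleton_self i), trA_in (Finset.mem_singleton_self i)] at h4

end Pool.Agent.MP_417c68_gt
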