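import Pool.Agent.Lib.MP_417c68_gt_D.PrjM

/-!
# MP_417c68_gt, module PeelConv: the converse
-/

noncomputable section

namespace Pool.Agent.MP_417c68_gt

open Matrix NormedSpace

variable {n : ℕ} {N : Fin n → ℕ} {G H L : Subgroup (Alg N)ˣ}

/-- a conjugate vanishes in the blocks in which the element vanishes -/
private theorem peelConv_cA_apply (k : (Alg N)ˣ) {X : Alg N} {i : Fin n} (h : X i = 0) :
    cA k X i = 0 := by
  show k.1 i * X i * (k⁻¹).1 i = 0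
  rw [h, mul_zero, zero_mul]

/-- the inverse of an orthogonal element is orthogonal -/
private theorem peelConv_orth_inv {k : (Alg N)ˣ} (ho : Orth k) : Orth k⁻¹ := by
  intro i
  have h1 : k.1 i * (k⁻¹).1 i = 1 := congrFun k.mul_inv i
  have h2 : (k⁻¹).1 i = (k.1 i)ᵀ := by
    calc (k⁻¹).1 i = ((k.1 i)ᵀ * k.1 i) * (k⁻¹).1 i := by rw [ho i, one_mul]
      _ = (k.1 i)ᵀ := by rw [mul_assoc, h1, mul_one]
  rw [h2, transpose_transpose, ← h2, h1]

private theorem peelConv_trA_eq {I : Finset (Fin n)} {X : Alg N} (h : ∀ i ∉ I, X i = 0) :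
    trA I X = X := by
  funext i
  by_cases hi : i ∈ I
  · rw [trA_in hi]
  · rw [trA_out hi, h i hi]

private theorem peelConv_trA_zero {I : Finset (Fin n)} {X : Alg N} (h : ∀ i ∈ I, X i = 0) :
    trA I X = 0 := by
  funext i
  by_cases hi : i ∈ I
  · rw [trA_in hi, h i hi]
    rfl
  · rw [trA_out hi]
    rfl

theorem peel_suf {R T : Finset (Fin n)} (hG : SelfAdj G) (hGs : ∀ i ∈ R, SplitAt G {i})
    (hH : SelfAdj H) (hHG : H ≤ G) (hT : T ⊆ R)
    (h1 : ∀ z ∈ pp G, ∃ x ∈ pp H, ∀ i ∈ T, x i = z i)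
    (h2 : ∀ x ∈ pp H, (∀ i ∈ T, x i = 0) → (∀ i ∉ R, x i = 0) → x = 0)
    {L₂ : Subgroup (Alg N)ˣ} (hL₂ : L₂ ≤ LI G R) (hS₂ : SelfAdj L₂)
    (hc : Cpl (LI G R) (Prj (LI H T) Rᶜ) L₂) : ∃ L ≤ G, SelfAdj L ∧ Cpl G H L := by
  have hRs : SplitAt G R := splitAt_of_forall hGs
  have hRc : SplitAt G Rᶜ := splitAt_compl hRs
  refine ⟨Pr (LI G (R \ T)ᶜ) L₂ (R \ T), pr_le (LI_le _) (hL₂.trans (LI_le R)),
    selfAdj_pr (selfAdj_LI hG _) hS₂, ?_⟩
  intro k hk ho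
  have hkS : tru Rᶜ k ∈ LI G R := by
    refine mem_LI.2 ⟨hRc k hk, fun i hi => ?_⟩
    exact tru_out (fun h => (Finset.mem_compl.1 h) hi)
  have hoS : Orth (tru Rᶜ k) := orth_tru Rᶜ ho
  obtain ⟨hc1, hc2⟩ := hc (tru Rᶜ k) hkS hoS
  have hvan : ∀ w ∈ pp L₂, ∀ i ∈ R, w i = 0 := fun w hw i hi =>
    (mem_pp_LI.1 (pp_mono hL₂ hw)).2 i hi
  have hIR : ∀ i, i ∈ R \ T → i ∈ R := fun i hi => (Finset.mem_sdiff.1 hi).1
  constructor
  · intro x hx y hy hxy
    obtain ⟨-, hy2⟩ := mem_pp_pr.1 hy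
    have hyT : ∀ i ∈ T, y i = 0 := by
      intro i hi
      have h3 := hvan _ hy2 i (hT hi)
      rwa [trA_in (Finset.mem_compl.2 fun h => (Finset.mem_sdiff.1 h).2 hi)] at h3
    have hyR : trA Rᶜ y = trA (R \ T)ᶜ y := by
      funext i
      by_cases hi : i ∈ R
      · rw [trA_out (fun h => (Finset.mem_compl.1 h) hi), hvan _ hy2 i hi]
      · rw [trA_in (Finset.mem_compl.2 hi), trA_in (Finset.mem_compl.2 fun h => hi (hIR i h))]
    have hxT : ∀ i ∈ T, x i = 0 := by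
      intro i hi
      rw [hxy]
      exact peelConv_cA_apply k (hyT i hi)
    have hx3 : trA Rᶜ x ∈ pp (Prj (LI H T) Rᶜ) :=
      (mem_pp_prj (selfAdj_LI hH T)).2 ⟨x, mem_pp_LI.2 ⟨hx, hxT⟩, rfl⟩
    have hx4 : trA Rᶜ x = cA (tru Rᶜ k) (trA (R \ T)ᶜ y) := by
      rw [← hyR, cA_tru, ← trA_cA, ← hxy]
    have hx5 : trA Rᶜ x = 0 := hc1 _ hx3 _ hy2 hx4
    refine h2 x hx hxT fun i hi => ?_
    have h6 := congrFun hx5 i
    rwa [trA_in (Finset.mem_compl.2 hi)] at h6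
  · intro z hz
    obtain ⟨x, hx, hxz⟩ := h1 z hz
    have hd : z - x ∈ pp G := pp_sub hG hz (pp_mono hHG hx)
    have hd2 : trA Rᶜ (z - x) ∈ pp (LI G R) :=
      mem_pp_LI.2 ⟨pp_trA hRc hd, fun i hi => trA_out (fun h => (Finset.mem_compl.1 h) hi)⟩
    obtain ⟨a, ha, w, hw, haw⟩ := hc2 _ hd2
    obtain ⟨x', hx', hax'⟩ := (mem_pp_prj (selfAdj_LI hH T)).1 ha
    obtain ⟨hx'H, hx'T⟩ := mem_pp_LI.1 hx'
    have hwR := hvan w hw
    have hwt : trA Rᶜ w = w :=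
      peelConv_trA_eq fun i hi => hwR i (by
        by_contra h
        exact hi (Finset.mem_compl.2 h))
    have hcw : cA (tru Rᶜ k) w = cA k w := by
      have h3 := cA_tru Rᶜ k w
      rwa [hwt] at h3
    have hwG : w ∈ pp G := pp_mono (hL₂.trans (LI_le R)) hw
    have hu : z - x - x' - cA k w ∈ pp G :=
      pp_sub hG (pp_sub hG hd (pp_mono hHG hx'H)) (pp_cA hk ho hwG)
    have huT : ∀ i ∈ T, (z - x - x' - cA k w) i = 0 := by
      intro i hi
      show z i - x i - x' i - cA k w i = 0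
      rw [hxz i hi, hx'T i hi, peelConv_cA_apply k (hwR i (hT hi)), sub_self, sub_zero, sub_zero]
    have huR : trA Rᶜ (z - x - x' - cA k w) = 0 := by
      rw [trA_sub, trA_sub, haw, hax', trA_cA, hwt, hcw]
      abel
    have huR2 : ∀ i ∉ R, (z - x - x' - cA k w) i = 0 := by
      intro i hi
      have h6 := congrFun huR i
      rwa [trA_in (Finset.mem_compl.2 hi)] at h6
    generalize hug : z - x - x' - cA k w = u at hu huT huR huR2
    have hI : trA (R \ T) u = u := by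
      refine peelConv_trA_eq fun i hi => ?_
      by_cases h : i ∈ R
      · exact huT i (by
          by_contra h7
          exact hi (Finset.mem_sdiff.2 ⟨h, h7⟩))
      · exact huR2 i h
    have hIc : trA (R \ T)ᶜ u = 0 := trA_eq_self_iff.1 hI
    have hwI : trA (R \ T) w = 0 := peelConv_trA_zero fun i hi => hwR i (hIR i hi)
    have hwIc : trA (R \ T)ᶜ w = w := by
      refine peelConv_trA_eq fun i hi => hwR i (hIR i ?_)
      by_contra h
      exact hi (Finset.mem_compl.2 h)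
    have hcu : cA k⁻¹ u ∈ pp G := pp_cA (G.inv_mem hk) (peelConv_orth_inv ho) hu
    have hcI : trA (R \ T) (cA k⁻¹ u) = cA k⁻¹ u := by rw [trA_cA, hI]
    refine ⟨x + x', pp_add hH hx hx'H, cA k⁻¹ u + w, mem_pp_pr.2 ⟨?_, ?_⟩, ?_⟩
    · rw [trA_add, hcI, hwI, add_zero]
      exact mem_pp_LI_compl.2 ⟨hcu, hcI⟩
    · rw [trA_add, trA_cA, hIc, cA_zero, zero_add, hwIc]
      exact hw
    · rw [cA_add, cA_cA_inv, ← hug]
      abel

end Pool.Agent.MP_417c68_gt
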