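import Pool.Agent.Lib.MP_417c68_gt_D.PeelInd
import Pool.Agent.Lib.MP_417c68_gt_D.PeelConv

/-!
# MP_417c68_gt, module Final: the three theorems (assembly)
-/

noncomputable section

namespace Pool.Agent.MP_417c68_gt

open Matrix NormedSpace

variable {n : ℕ} {N : Fin n → ℕ} {G H L : Subgroup (Alg N)ˣ}

/-! ### Products -/

theorem mem_pp_split {I : Finset (Fin n)} (hH : SelfAdj H) (hs : SplitAt H I) {X : Alg N} :
    X ∈ pp H ↔ X ∈ pp (Pr (LI H Iᶜ) (LI H I) I) := by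
  rw [mem_pp_pr, mem_pp_LI_compl]
  constructor
  · intro hX
    refine ⟨⟨pp_trA hs hX, trA_idem _ _⟩, ?_⟩
    have h1 := (mem_pp_LI_compl (G := H) (I := Iᶜ)).2 ⟨pp_trA (splitAt_compl hs) hX, trA_idem _ _⟩
    rwa [compl_compl] at h1
  · rintro ⟨⟨h1, -⟩, h2⟩
    have h3 := pp_add hH h1 (mem_pp_LI.1 h2).1
    rwa [trA_add_compl] at h3

theorem std_prod {m : ℕ} {c : Fin n → Fin m} (hG : SelfAdj G)
    (hGs : ∀ j, SplitAt G (cls c j)) (hH : Red G H) (hHs : ∀ j, SplitAt H (cls c j)) :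
    Std G H ↔ ∀ j, Std (LI G (cls c j)ᶜ) (LI H (cls c j)ᶜ) := by
  obtain ⟨hHG, a, ha, hS⟩ := hH
  have haG := cj_le' hHG ha
  have hs : ∀ j, SplitAt (cj a H) (cls c j) := fun j => splitAt_cj a (hHs j)
  have hj : ∀ j, Std (LI G (cls c j)ᶜ) (LI H (cls c j)ᶜ) ↔
      ∃ L ≤ LI G (cls c j)ᶜ, SelfAdj L ∧ Cpl (LI G (cls c j)ᶜ) (LI (cj a H) (cls c j)ᶜ) L := by
    intro j
    have h1 := std_iff (selfAdj_LI hG (cls c j)ᶜ) (LI_mono hHG (cls c j)ᶜ)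
      (a := tru (cls c j) a) (mem_LI.2 ⟨hGs j a ha, fun i hi => tru_out
        (Finset.mem_compl.1 hi)⟩) (by
        rw [cj_LI]
        exact selfAdj_LI hS _)
    rwa [cj_LI] at h1
  rw [std_iff hG hHG ha hS]
  constructor
  · rintro ⟨L, hLG, hL, hc⟩ j
    rw [hj]
    exact cpl_prod hG (hGs j) (selfAdj_LI hS _) (selfAdj_LI hS _) (LI_mono haG _)
      (LI_mono haG _) hL hLG (cpl_congr (fun X => mem_pp_split hS (hs j)) hc)
  · intro h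
    choose L hLG hL hc using fun j => (hj j).1 (h j)
    exact ⟨PrF c L, prF_le fun j => (hLG j).trans (LI_le _), selfAdj_prF hL,
      cpl_prF hG hGs hS hs haG hLG hc⟩

/-! ### Links of real rank one -/

theorem link_thm {I : Finset (Fin n)} (hG : SelfAdj G) (hGs : SplitAt G I) (hconn : Kconn G)
    (hHG : H ≤ G) {a : (Alg N)ˣ} (ha : a ∈ G) (hS : SelfAdj (cj a H))
    (h1 : ∀ x ∈ lnk (cj a H) I, ∀ y ∈ lnk (cj a H) I, x * y = y * x →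
      ∃ c : ℝ, x = c • y ∨ y = c • x)
    (h2 : ∀ z : Alg N, ∃ x ∈ lnk (cj a H) I, ∀ c : ℝ, x ≠ c • z) :
    Std G H ↔
      (Std (LI G Iᶜ) (LI (cj a H) Iᶜ) ∧ Std (LI G I) (Prj (cj a H) Iᶜ)) ∨
      (Std (LI G Iᶜ) (Prj (cj a H) I) ∧ Std (LI G I) (LI (cj a H) I)) := by
  have haG := cj_le' hHG ha
  have hGs' := splitAt_compl hGs
  rw [std_iff hG hHG ha hS]
  have hpi : Prj (cj a H) I ≤ LI G Iᶜ := prj_le haG hGs
  have hpc : Prj (cj a H) Iᶜ ≤ LI G I := by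
    have := prj_le haG hGs'
    rwa [compl_compl] at this
  have e1 := std_iff' (selfAdj_LI hG Iᶜ) (LI_mono haG Iᶜ) (selfAdj_LI hS Iᶜ)
  have e2 := std_iff' (selfAdj_LI hG I) hpc (selfAdj_prj hS Iᶜ)
  have e3 := std_iff' (selfAdj_LI hG Iᶜ) hpi (selfAdj_prj hS I)
  have e4 := std_iff' (selfAdj_LI hG I) (LI_mono haG I) (selfAdj_LI hS I)
  rw [e1, e2, e3, e4]
  constructor
  · rintro ⟨L, hLG, hL, hc⟩
    rcases dich hG hGs hconn hS hL haG hLG hc (condT_of_link hGs hS haG h1 h2) with h | h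
    · exact Or.inl ⟨cpl_prod hG hGs (selfAdj_LI hS _) (selfAdj_prj hS _) (LI_mono haG _) hpc
        hL hLG h, cpl_prod' hG hGs (selfAdj_LI hS _) (selfAdj_prj hS _) (LI_mono haG _) hpc
        hL hLG h⟩
    · exact Or.inr ⟨cpl_prod hG hGs (selfAdj_prj hS _) (selfAdj_LI hS _) hpi (LI_mono haG _)
        hL hLG h, cpl_prod' hG hGs (selfAdj_prj hS _) (selfAdj_LI hS _) hpi (LI_mono haG _)
        hL hLG h⟩
  · rintro (⟨⟨L₁, hL₁, hS₁, hc₁⟩, L₂, hL₂, hS₂, hc₂⟩ | ⟨⟨L₁, hL₁, hS₁, hc₁⟩, L₂, hL₂, hS₂, hc₂⟩)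
    · exact ⟨Pr L₁ L₂ I, pr_le (hL₁.trans (LI_le _)) (hL₂.trans (LI_le _)),
        selfAdj_pr hS₁ hS₂, cpl_conv hG hGs hS haG hL₁ hL₂ hc₁ hc₂⟩
    · refine ⟨Pr L₂ L₁ Iᶜ, pr_le (hL₂.trans (LI_le _)) (hL₁.trans (LI_le _)),
        selfAdj_pr hS₂ hS₁, cpl_conv hG hGs' hS haG ?_ ?_ ?_ ?_⟩
      · rwa [compl_compl]
      · exact hL₁
      · rwa [compl_compl]
      · rwa [compl_compl]

/-! ### Factors of real rank one -/

theorem peel_thm {R : Finset (Fin n)} (hG : SelfAdj G) (hR : ∀ i ∈ R, RkOne G i)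
    (hconn : Kconn G) (hHG : H ≤ G) {a : (Alg N)ˣ} (ha : a ∈ G) (hS : SelfAdj (cj a H)) :
    Std G H ↔ ∃ T ⊆ R, (∀ z ∈ pp G, ∃ x ∈ pp (cj a H), ∀ i ∈ T, x i = z i) ∧
      (∀ x ∈ pp (cj a H), (∀ i ∈ T, x i = 0) → (∀ i ∉ R, x i = 0) → x = 0) ∧
      Std (LI G R) (Prj (LI (cj a H) T) Rᶜ) := by
  have haG := cj_le' hHG ha
  have hGs : SplitAt G R := splitAt_of_forall fun i hi => (hR i hi).split
  rw [std_iff hG hHG ha hS]
  have hstd : ∀ T, Std (LI G R) (Prj (LI (cj a H) T) Rᶜ) ↔ ∃ L₂ ≤ LI G R, SelfAdj L₂ ∧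
      Cpl (LI G R) (Prj (LI (cj a H) T) Rᶜ) L₂ := fun T => by
    refine std_iff' (selfAdj_LI hG R) ?_ (selfAdj_prj (selfAdj_LI hS T) _)
    have := prj_le ((LI_le (G := cj a H) T).trans haG) (splitAt_compl hGs)
    rwa [compl_compl] at this
  constructor
  · rintro ⟨L, hLG, hL, hc⟩
    obtain ⟨T, hT, h1, h2, h3⟩ := peel_nec hG hR hconn hS hL haG hLG hc
    exact ⟨T, hT, h1, h2, (hstd T).2 h3⟩
  · rintro ⟨T, hT, h1, h2, h3⟩
    obtain ⟨L₂, hL₂, hS₂, hc⟩ := (hstd T).1 h3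
    exact peel_suf hG (fun i hi => (hR i hi).split) hS haG hT h1 h2 hL₂ hS₂ hc

end Pool.Agent.MP_417c68_gt
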