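import Pool.Agent.Lib.MP_417c68_gt_D.TrExp
import Pool.Agent.Lib.MP_417c68_gt_D.Blk

/-!
# MP_417c68_gt, module Grad: solving the gradient equation
-/

noncomputable section

namespace Pool.Agent.MP_417c68_gt

open Matrix NormedSpace

variable {n : ℕ} {N : Fin n → ℕ} {G H L : Subgroup (Alg N)ˣ}

set_option backward.isDefEq.respectTransparency false in
private theorem Grad_exp {m : ℕ} :
    Continuous (fun X : Matrix (Fin m) (Fin m) ℝ => exp X) := by
  open scoped Norms.Operator in exact exp_continuous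

/-- the function which is minimised -/
private def GradF (ν : Alg N) (s : ℝ) (z : Alg N) : ℝ :=
  (1 / 2) * (∑ i, ((exp ((2 : ℝ) • z i)).trace + (exp (-((2 : ℝ) • z i))).trace)) - 2 * s * ip ν z

private theorem Grad_cont (ν : Alg N) (s : ℝ) : Continuous (GradF ν s) := by
  unfold GradF
  refine Continuous.sub (continuous_const.mul (continuous_finsetSum _ fun i _ => ?_)) ?_
  · have h1 : Continuous fun z : Alg N => (2 : ℝ) • z i :=
      (continuous_const_smul (2 : ℝ)).comp (continuous_apply i)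
    exact ((Grad_exp.comp h1).matrix_trace).add ((Grad_exp.comp h1.neg).matrix_trace)
  · refine continuous_const.mul ?_
    exact continuous_ip.comp (Continuous.prodMk continuous_const continuous_id)

/-- the lower bound -/
private theorem Grad_lower {ν z : Alg N} (hν : ∀ i, (ν i)ᵀ = ν i) (hz : ∀ i, (z i)ᵀ = z i)
    (s : ℝ) : ip z z ≤ GradF ν s z + s ^ 2 * ip ν ν := by
  have h1 : 4 * ip z z ≤ ∑ i, ((exp ((2 : ℝ) • z i)).trace + (exp (-((2 : ℝ) • z i))).trace) := by
    have h2 : 4 * ip z z = ∑ i, (((2 : ℝ) • z i) * ((2 : ℝ) • z i)).trace := by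
      unfold ip
      rw [Finset.mul_sum]
      refine Finset.sum_congr rfl fun i _ => ?_
      rw [smul_mul_assoc, mul_smul_comm, trace_smul, trace_smul, smul_eq_mul, smul_eq_mul]
      ring
    rw [h2]
    refine Finset.sum_le_sum fun i _ => sq_le_exp ?_
    rw [transpose_smul, hz i]
  have h3 : 0 ≤ ip (z - s • ν) (z - s • ν) := by
    refine ip_nonneg fun i => ?_
    show (z i - s • ν i)ᵀ = z i - s • ν i
    rw [transpose_sub, transpose_smul, hz i, hν i]
  have h4 : ip (z - s • ν) (z - s • ν) = ip z z - 2 * s * ip ν z + s ^ 2 * ip ν ν := by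
    rw [ip_sub_left, ip_comm z, ip_sub_left, ip_smul_left, ip_smul_left, ip_comm ν (z - s • ν),
      ip_sub_left, ip_smul_left, ip_comm z ν]
    ring
  rw [h4] at h3
  unfold GradF
  linarith

/-- the derivative along a line -/
private theorem Grad_deriv (ν : Alg N) (s : ℝ) (z w : Alg N) :
    HasDerivAt (fun t : ℝ => GradF ν s (z + t • w))
      (∑ i, ((exp ((2 : ℝ) • z i) - exp (-((2 : ℝ) • z i))) * w i).trace - 2 * s * ip ν w) 0 := by
  have h1 : ∀ i, HasDerivAt (fun t : ℝ => (exp ((2 : ℝ) • (z + t • w) i)).trace +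
      (exp (-((2 : ℝ) • (z + t • w) i))).trace)
      (2 * ((exp ((2 : ℝ) • z i) - exp (-((2 : ℝ) • z i))) * w i).trace) 0 := by
    intro i
    have h2 := hasDerivAt_tr_exp ((2 : ℝ) • z i) ((2 : ℝ) • w i)
    have h3 := hasDerivAt_tr_exp (-((2 : ℝ) • z i)) (-((2 : ℝ) • w i))
    have e2 : (fun t : ℝ => (exp ((2 : ℝ) • (z + t • w) i)).trace) =
        fun t : ℝ => (exp ((2 : ℝ) • z i + t • (2 : ℝ) • w i)).trace := by
      funext t
      congr 2
      show (2 : ℝ) • (z i + t • w i) = _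
      rw [smul_add, smul_comm]
    have e3 : (fun t : ℝ => (exp (-((2 : ℝ) • (z + t • w) i))).trace) =
        fun t : ℝ => (exp (-((2 : ℝ) • z i) + t • -((2 : ℝ) • w i))).trace := by
      funext t
      congr 2
      show -((2 : ℝ) • (z i + t • w i)) = _
      rw [smul_add, smul_comm, smul_neg, neg_add]
    rw [← e2] at h2
    rw [← e3] at h3
    have h4 := h2.fun_add h3
    have e4 : (exp ((2 : ℝ) • z i) * (2 : ℝ) • w i).trace +
        (exp (-((2 : ℝ) • z i)) * -((2 : ℝ) • w i)).trace =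
        2 * ((exp ((2 : ℝ) • z i) - exp (-((2 : ℝ) • z i))) * w i).trace := by
      rw [mul_smul_comm, mul_neg, mul_smul_comm, trace_neg, trace_smul, trace_smul, sub_mul,
        trace_sub, smul_eq_mul, smul_eq_mul]
      ring
    rw [e4] at h4
    exact h4
  have h5 : HasDerivAt (fun t : ℝ => 2 * s * ip ν (z + t • w)) (2 * s * ip ν w) 0 := by
    have e5 : (fun t : ℝ => 2 * s * ip ν (z + t • w)) =
        fun t : ℝ => 2 * s * (ip ν z + t * ip ν w) := by
      funext t
      rw [ip_comm, ip_add_left, ip_smul_left, ip_comm z, ip_comm w]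
    rw [e5]
    have h6 : HasDerivAt (fun t : ℝ => ip ν z + t * ip ν w) (1 * ip ν w) 0 :=
      ((hasDerivAt_id (0:ℝ)).mul_const _).const_add _
    have h7 := h6.const_mul (2 * s)
    rwa [one_mul] at h7
  have h8 := ((HasDerivAt.fun_sum fun i (_ : i ∈ Finset.univ) => h1 i).const_mul
    (1 / 2 : ℝ)).fun_sub h5
  have e8 : (1 / 2 : ℝ) * ∑ i, 2 * ((exp ((2 : ℝ) • z i) - exp (-((2 : ℝ) • z i))) * w i).trace =
      ∑ i, ((exp ((2 : ℝ) • z i) - exp (-((2 : ℝ) • z i))) * w i).trace := by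
    rw [← Finset.mul_sum]
    ring
  rw [e8] at h8
  exact h8

theorem exists_grad (hG : SelfAdj G) {ν : Alg N} (hν : ν ∈ pp G) (s : ℝ) :
    ∃ z ∈ pp G, ∀ w ∈ pp G,
      ∑ i, ((exp ((2 : ℝ) • z i) - exp (-((2 : ℝ) • z i))) * w i).trace = 2 * s * ip ν w := by
  obtain ⟨c, hc⟩ : ∃ c, c = GradF ν s 0 + s ^ 2 * ip ν ν := ⟨_, rfl⟩
  have hK : IsCompact ({X : Alg N | (∀ i, (X i)ᵀ = X i) ∧ ip X X ≤ c} ∩ pp G) :=
    (isCompact_symm_ball N c).inter_right (isClosed_pp hG)
  have h0 : (0 : Alg N) ∈ pp G := pp_zero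
  have h0K : (0 : Alg N) ∈ {X : Alg N | (∀ i, (X i)ᵀ = X i) ∧ ip X X ≤ c} ∩ pp G := by
    refine ⟨⟨h0.1, ?_⟩, h0⟩
    rw [hc]
    exact Grad_lower hν.1 h0.1 s
  obtain ⟨z, hzK, hz⟩ := hK.exists_isMinOn ⟨0, h0K⟩ (Grad_cont ν s).continuousOn
  have hmin : ∀ x ∈ pp G, GradF ν s z ≤ GradF ν s x := by
    intro x hx
    by_cases hxc : ip x x ≤ c
    · exact hz ⟨⟨hx.1, hxc⟩, hx⟩
    · have h1 : GradF ν s z ≤ GradF ν s 0 := hz h0K
      have h2 := Grad_lower hν.1 hx.1 s
      push Not at hxc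
      rw [hc] at hxc
      linarith
  refine ⟨z, hzK.2, fun w hw => ?_⟩
  have h1 : IsLocalMin (fun t : ℝ => GradF ν s (z + t • w)) 0 := by
    refine Filter.Eventually.of_forall fun t => ?_
    show GradF ν s (z + (0 : ℝ) • w) ≤ GradF ν s (z + t • w)
    rw [zero_smul, add_zero]
    exact hmin _ (pp_add hG hzK.2 (pp_smul t hw))
  have h2 := h1.hasDerivAt_eq_zero (Grad_deriv ν s z w)
  linarith

end Pool.Agent.MP_417c68_gt
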