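import Pool.Agent.Lib.MP_417c68_gt_D.Log
import Pool.Agent.Lib.MP_417c68_gt_D.Blk

/-!
# MP_417c68_gt, module Hered: subgroups between `H` and `G`
-/

noncomputable section

namespace Pool.Agent.MP_417c68_gt

open Matrix NormedSpace

variable {n : ℕ} {N : Fin n → ℕ} {G H L : Subgroup (Alg N)ˣ}

theorem mem_pp_inf {J : Subgroup (Alg N)ˣ} {X : Alg N} :
    X ∈ pp (J ⊓ L) ↔ X ∈ pp J ∧ X ∈ pp L := by
  constructor
  · rintro ⟨h1, h2⟩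
    exact ⟨⟨h1, fun t => (Subgroup.mem_inf.1 (h2 t)).1⟩,
      ⟨h1, fun t => (Subgroup.mem_inf.1 (h2 t)).2⟩⟩
  · rintro ⟨⟨h1, h2⟩, ⟨_, h3⟩⟩
    exact ⟨h1, fun t => Subgroup.mem_inf.2 ⟨h2 t, h3 t⟩⟩

theorem selfAdj_inf {J : Subgroup (Alg N)ˣ} (hJ : SelfAdj J) (hL : SelfAdj L) :
    SelfAdj (J ⊓ L) := by
  refine ⟨?_, ?_⟩
  · have h := hJ.closed.inter hL.closed
    rwa [← Subgroup.coe_inf] at h
  · intro h hh
    obtain ⟨h1, h2⟩ := Subgroup.mem_inf.1 hh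
    obtain ⟨X, hX, hXe⟩ := hJ.polar h h1
    obtain ⟨Y, hY, hYe⟩ := hL.polar h h2
    have hXY : X = Y := by
      funext i
      exact exp_inj_symm (hX.1 i) (hY.1 i) ((hXe i).symm.trans (hYe i))
    subst hXY
    exact ⟨X, mem_pp_inf.2 ⟨hX, hY⟩, hXe⟩

theorem cpl_inf {J : Subgroup (Alg N)ˣ} (hJ : SelfAdj J) (hHJ : H ≤ J) (hJG : J ≤ G)
    (h : Cpl G H L) : Cpl J H (J ⊓ L) := by
  intro k hk ho
  obtain ⟨h1, h2⟩ := h k (hJG hk) ho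
  refine ⟨?_, ?_⟩
  · intro x hx y hy hxy
    exact h1 x hx y (mem_pp_inf.1 hy).2 hxy
  · intro z hz
    obtain ⟨x, hx, y, hy, hxy⟩ := h2 z (pp_mono hJG hz)
    refine ⟨x, hx, y, mem_pp_inf.2 ⟨?_, hy⟩, hxy⟩
    have h3 : cA k y = z - x := by
      rw [hxy, add_sub_cancel_left]
    have h4 : y = cA k⁻¹ (z - x) := by
      rw [← h3, cA_inv_cA]
    rw [h4]
    exact pp_cA (J.inv_mem hk) (orth_inv ho) (pp_sub hJ hz (pp_mono hHJ hx))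

end Pool.Agent.MP_417c68_gt
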