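import Pool.Agent.Lib.MP_417c68_gt_D.LinkF

/-!
# MP_417c68_gt, module LinkB: the sign of the quadratic form, one k
-/

noncomputable section

namespace Pool.Agent.MP_417c68_gt

open Matrix NormedSpace

variable {n : ℕ} {N : Fin n → ℕ} {G H L : Subgroup (Alg N)ˣ}
variable {I : Finset (Fin n)}

private theorem linkB_ip (X Y : Alg N) (a b : ℝ) :
    ip (a • X + b • Y) (a • X + b • Y) =
      a ^ 2 * ip X X + 2 * a * b * ip X Y + b ^ 2 * ip Y Y := by
  rw [ip_add_left, ip_smul_left, ip_smul_left, ip_comm X, ip_comm Y (a • X + b • Y), ip_add_left,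
    ip_add_left, ip_smul_left, ip_smul_left, ip_smul_left, ip_smul_left, ip_comm Y X]
  ring

private theorem linkB_qf (p p' : Alg N × Alg N) (a b : ℝ) :
    qf I (a • p + b • p') = a ^ 2 * qf I p +
      2 * a * b * (ip (trA I p.1) (trA I p'.1) - ip (trA I p.2) (trA I p'.2)) +
      b ^ 2 * qf I p' := by
  show ip (trA I (a • p.1 + b • p'.1)) (trA I (a • p.1 + b • p'.1)) -
    ip (trA I (a • p.2 + b • p'.2)) (trA I (a • p.2 + b • p'.2)) = _
  rw [trA_add, trA_add, trA_smul, trA_smul, trA_smul, trA_smul, linkB_ip, linkB_ip]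
  unfold qf
  ring

theorem RR_sign (hG : SelfAdj G) (hH : SelfAdj H) (hL : SelfAdj L) (hHG : H ≤ G)
    (hc : Cpl G H L) (hT : CondT G H I) {k : (Alg N)ˣ} (hk : k ∈ G) (ho : Orth k) :
    (∀ p ∈ RR H L I k, 0 ≤ qf I p) ∨ (∀ p ∈ RR H L I k, qf I p ≤ 0) := by
  by_contra hcon
  rw [not_or] at hcon
  obtain ⟨h1, h2⟩ := hcon
  push Not at h1 h2
  obtain ⟨p, hp, hp0⟩ := h1
  obtain ⟨p', hp', hp0'⟩ := h2
  set B : ℝ := ip (trA I p.1) (trA I p'.1) - ip (trA I p.2) (trA I p'.2) with hB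
  let f : ℝ → ℝ := fun s => (1 - s) ^ 2 * qf I p + 2 * (1 - s) * s * B + s ^ 2 * qf I p'
  have hf : Continuous f := by
    show Continuous fun s : ℝ =>
      (1 - s) ^ 2 * qf I p + 2 * (1 - s) * s * B + s ^ 2 * qf I p'
    fun_prop
  have hf0 : f 0 = qf I p := by
    show (1 - (0 : ℝ)) ^ 2 * qf I p + 2 * (1 - 0) * 0 * B + 0 ^ 2 * qf I p' = qf I p
    ring
  have hf1 : f 1 = qf I p' := by
    show (1 - (1 : ℝ)) ^ 2 * qf I p + 2 * (1 - 1) * 1 * B + 1 ^ 2 * qf I p' = qf I p'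
    ring
  have hiv := intermediate_value_Icc (zero_le_one (α := ℝ)) hf.continuousOn
  rw [hf0, hf1] at hiv
  obtain ⟨s, -, hs⟩ := hiv ⟨hp0.le, hp0'.le⟩
  have hR := RR_comb hH hL hp hp' (1 - s) s
  have hq : qf I ((1 - s) • p + s • p') = 0 := by
    rw [linkB_qf]
    exact hs
  have hz : (1 - s) • p + s • p' = 0 := by
    by_contra hne
    exact RR_ne hG hH hHG hc hT hk ho hR hne hq
  have he : (1 - s) • p = (-s) • p' := by
    rw [neg_smul]
    exact eq_neg_of_add_eq_zero_left hz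
  have e1 : qf I ((1 - s) • p) = (1 - s) ^ 2 * qf I p := by
    have h := linkB_qf (I := I) p p' (1 - s) 0
    rw [zero_smul, add_zero] at h
    rw [h]
    ring
  have e2 : qf I ((-s) • p') = s ^ 2 * qf I p' := by
    have h := linkB_qf (I := I) p' p (-s) 0
    rw [zero_smul, add_zero] at h
    rw [h]
    ring
  have e3 : (1 - s) ^ 2 * qf I p = s ^ 2 * qf I p' := by
    rw [← e1, ← e2, he]
  have h4 : (1 - s) ^ 2 * qf I p ≤ 0 := mul_nonpos_of_nonneg_of_nonpos (sq_nonneg _) hp0.le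
  have h5 : 0 ≤ s ^ 2 * qf I p' := mul_nonneg (sq_nonneg _) hp0'.le
  have h6 : s ^ 2 * qf I p' = 0 := le_antisymm (e3 ▸ h4) h5
  have h7 : s = 0 := by
    rcases mul_eq_zero.1 h6 with h | h
    · exact pow_eq_zero_iff (two_ne_zero) |>.1 h
    · exact absurd h hp0'.ne'
  rw [h6, h7] at e3
  have h8 : qf I p = 0 := by
    have h9 : (1 - (0 : ℝ)) ^ 2 * qf I p = qf I p := by ring
    rw [← h9]
    exact e3
  exact hp0.ne h8

end Pool.Agent.MP_417c68_gt
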