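import Pool.Agent.Lib.MP_417c68_gt_D.LinkA

/-!
# MP_417c68_gt, module LinkF: the spaces RR
-/

noncomputable section

namespace Pool.Agent.MP_417c68_gt

open Matrix NormedSpace

variable {n : ℕ} {N : Fin n → ℕ} {G H L : Subgroup (Alg N)ˣ}
variable {I : Finset (Fin n)}

theorem RR_exists (hG : SelfAdj G) (hGs : SplitAt G I) (hH : SelfAdj H) (hHG : H ≤ G)
    (hc : Cpl G H L) {k : (Alg N)ˣ} (hk : k ∈ G) (ho : Orth k) {x : Alg N}
    (hx : x ∈ lnk H I) : ∃ p ∈ RR H L I k, x = p.1 - p.2 := by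
  clear hG
  have hxG : trA I x ∈ pp G := pp_trA hGs (pp_mono hHG hx.1)
  obtain ⟨v₀, hv₀, w, hw, hxw⟩ := (hc k hk ho).2 _ hxG
  obtain ⟨v₁, hv₁, e₁, v₂, hv₂, e₂, x', hx', he⟩ := lnk_decomp hH I hv₀
  have a1 : x - x' ∈ lnk H I := by
    have h := lnk_comb hH hx hx' 1 (-1)
    rwa [one_smul, neg_one_smul, ← sub_eq_add_neg] at h
  have a2 : -x' ∈ lnk H I := by
    have h := lnk_comb hH hx' hx' (-1) 0
    rwa [zero_smul, neg_one_smul, add_zero] at h
  refine ⟨(x - x', -x'), ⟨a1, a2, -v₁, pp_neg hv₁, ?_, -v₂, pp_neg hv₂, ?_, w, hw, ?_⟩, ?_⟩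
  · rw [trA_neg, e₁]
  · rw [trA_neg, e₂]
  · show trA I (x - x') + -v₁ + trA Iᶜ (-x') + -v₂ = cA k w
    have h1 := trA_add_compl I x'
    rw [trA_sub, trA_neg, hxw, he]
    have h2 : trA Iᶜ x' = x' - trA I x' := by
      rw [eq_sub_iff_add_eq, add_comm]
      exact h1
    rw [h2]
    abel
  · show x = x - x' - -x'
    abel

private theorem linkf_orth {a b : (Alg N)ˣ} (ha : Orth a) (hb : Orth b) : Orth (a * b) := by
  intro i
  show (a.1 i * b.1 i)ᵀ * (a.1 i * b.1 i) = 1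
  rw [Matrix.transpose_mul, Matrix.mul_assoc, ← Matrix.mul_assoc (a.1 i)ᵀ, ha i, Matrix.one_mul,
    hb i]

theorem RR_ne (hG : SelfAdj G) (hH : SelfAdj H) (hHG : H ≤ G)
    (hc : Cpl G H L) (hT : CondT G H I) {k : (Alg N)ˣ} (hk : k ∈ G) (ho : Orth k)
    {p : Alg N × Alg N} (hp : p ∈ RR H L I k) (h0 : p ≠ 0) : qf I p ≠ 0 := by
  clear hG hHG
  obtain ⟨x, x'⟩ := p
  obtain ⟨hx, hx', v, hv, e, v', hv', e', w, hw, heq⟩ := hp
  intro hq
  apply h0
  have hxx : ip (trA I x) (trA I x) = ip (trA I x') (trA I x') := sub_eq_zero.1 hq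
  obtain ⟨m, hm, hmo, hmt, hm1, hm2⟩ := hT x hx x' hx' hxx v hv e
  have heq' : trA I x + v + trA Iᶜ x' + v' = cA k w := heq
  have h1 : cA m (trA I x + v + trA Iᶜ x' + v') = cA (m * k) w := by
    rw [heq', cA_mul]
  have h2 : cA m v' = v' := by
    have := cA_trivial hmt v'
    rwa [e'] at this
  rw [cA_add, cA_add, cA_add, hm1, cA_trivial hmt, h2] at h1
  have h3 : x' + cA m v + v' = cA (m * k) w := by
    rw [← h1]
    conv_lhs => rw [← trA_add_compl I x']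
    abel
  have hu : x' + cA m v + v' ∈ pp H := pp_add hH (pp_add hH hx'.1 hm2) hv'
  have hu0 : x' + cA m v + v' = 0 :=
    (hc (m * k) (G.mul_mem hm hk) (linkf_orth hmo ho)).1 _ hu w hw h3
  have h4 : trA I (cA m v) = cA m v := by
    rw [trA_cA, e]
  have h5 : ip x' (cA m v) = 0 := hx'.2 _ hm2 (Or.inl h4)
  have h6 : ip x' v' = 0 := hx'.2 _ hv' (Or.inr e')
  have h7 : ip x' x' = 0 := by
    have h8 : ip (x' + cA m v + v') x' = 0 := by
      rw [hu0, ip_zero_left]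
    rw [ip_add_left, ip_add_left, ip_comm (cA m v), ip_comm v', h5, h6, add_zero, add_zero] at h8
    exact h8
  have hx0 : x' = 0 := ip_self_zero hx'.1.1 h7
  have h9 : trA I x = 0 := by
    refine ip_self_zero (symm_trA hx.1.1) ?_
    rw [hxx, hx0, trA_zero, ip_zero_left]
  have h10 : x = 0 := lnk_inj hx h9
  rw [h10, hx0]
  rfl

end Pool.Agent.MP_417c68_gt
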