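import Pool.Agent.Lib.MP_417c68_gt_D.LinkB
import Pool.Agent.Lib.MP_417c68_gt_D.Eps

/-!
# MP_417c68_gt, module LinkS: the sign does not depend on k
-/

noncomputable section

namespace Pool.Agent.MP_417c68_gt

open Matrix NormedSpace

variable {n : ℕ} {N : Fin n → ℕ} {G H L : Subgroup (Alg N)ˣ}
variable {I : Finset (Fin n)}

private theorem LinkS_isClosed_lnk (hH : SelfAdj H) (I : Finset (Fin n)) :
    IsClosed (lnk H I) := by
  have h1 : lnk H I = pp H ∩ ⋂ (y : Alg N) (_ : y ∈ pp H) (_ : trA I y = y ∨ trA Iᶜ y = y),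
      {x : Alg N | ip x y = 0} := by
    ext x
    simp only [lnk, Set.mem_ofPred_eq, Set.mem_inter_iff, Set.mem_iInter]
  rw [h1]
  refine (isClosed_pp hH).inter ?_
  refine isClosed_iInter fun y => isClosed_iInter fun _ => isClosed_iInter fun _ => ?_
  have q1 := Continuous.comp (continuous_ip (N := N))
    ((continuous_id (X := Alg N)).prodMk (continuous_const (y := y)))
  exact isClosed_eq q1 continuous_const

private theorem LinkS_cont_qf (I : Finset (Fin n)) :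
    Continuous (fun p : Alg N × Alg N => qf I p) := by
  have c1 : Continuous (fun p : Alg N × Alg N => trA I p.1) :=
    (continuous_trA I).comp continuous_fst
  have c2 : Continuous (fun p : Alg N × Alg N => trA I p.2) :=
    (continuous_trA I).comp continuous_snd
  have h1 := Continuous.comp (continuous_ip (N := N)) (c1.prodMk c1)
  have h2 := Continuous.comp (continuous_ip (N := N)) (c2.prodMk c2)
  exact Continuous.sub h1 h2

private theorem LinkS_ip_trA_le (I : Finset (Fin n)) {x : Alg N} (hx : ∀ i, (x i)ᵀ = x i) :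
    ip (trA I x) (trA I x) ≤ ip x x := by
  rw [ip_split I x x]
  have := ip_nonneg (X := trA Iᶜ x) (fun i => symm_trA hx i)
  linarith

private theorem LinkS_ip_smul (c : ℝ) (x : Alg N) : ip (c • x) (c • x) = c ^ 2 * ip x x := by
  rw [ip_smul_left, ip_comm, ip_smul_left]
  ring

private theorem LinkS_qf_smul (I : Finset (Fin n)) (c : ℝ) (p : Alg N × Alg N) :
    qf I (c • p) = c ^ 2 * qf I p := by
  show ip (trA I (c • p.1)) (trA I (c • p.1)) - ip (trA I (c • p.2)) (trA I (c • p.2)) = _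
  rw [trA_smul, trA_smul, LinkS_ip_smul, LinkS_ip_smul]
  unfold qf
  ring

private theorem LinkS_ip_add (x y : Alg N) :
    ip (x + y) (x + y) = ip x x + 2 * ip x y + ip y y := by
  rw [ip_add_left, ip_comm x (x + y), ip_comm y (x + y), ip_add_left, ip_add_left, ip_comm y x]
  ring

private theorem LinkS_ip_sub (x y : Alg N) :
    ip (x - y) (x - y) = ip x x - 2 * ip x y + ip y y := by
  rw [ip_sub_left, ip_comm x (x - y), ip_comm y (x - y), ip_sub_left, ip_sub_left, ip_comm y x]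
  ring

private def LinkS_A (G H L : Subgroup (Alg N)ˣ) (I : Finset (Fin n)) (s : ℝ) : Set (Alg N)ˣ :=
  {k | k ∈ G ∧ Orth k ∧ ∃ p ∈ RR H L I k, ip p.1 p.1 + ip p.2 p.2 = 1 ∧ 0 ≤ s * qf I p}

private def LinkS_Z (G H L : Subgroup (Alg N)ˣ) (I : Finset (Fin n)) (s : ℝ) :
    Set ((Alg N)ˣ × (Alg N × Alg N) × (Alg N × Alg N) × Alg N) :=
  {z | (z.1 ∈ G ∧ Orth z.1) ∧ (z.2.1.1 ∈ lnk H I ∧ z.2.1.2 ∈ lnk H I) ∧
    (ip z.2.1.1 z.2.1.1 + ip z.2.1.2 z.2.1.2 = 1 ∧ 0 ≤ s * qf I z.2.1) ∧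
    (z.2.2.1.1 ∈ pp H ∧ trA I z.2.2.1.1 = z.2.2.1.1) ∧
    (z.2.2.1.2 ∈ pp H ∧ trA Iᶜ z.2.2.1.2 = z.2.2.1.2) ∧ z.2.2.2 ∈ pp L ∧
    trA I z.2.1.1 + z.2.2.1.1 + trA Iᶜ z.2.1.2 + z.2.2.1.2 = cA z.1 z.2.2.2}

private theorem LinkS_closed_Z (hG : SelfAdj G) (hH : SelfAdj H) (hL : SelfAdj L)
    (I : Finset (Fin n)) (s : ℝ) : IsClosed (LinkS_Z G H L I s) := by
  have c1 : Continuous fun z : (Alg N)ˣ × (Alg N × Alg N) × (Alg N × Alg N) × Alg N => z.1 :=
    continuous_fst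
  have cp : Continuous fun z : (Alg N)ˣ × (Alg N × Alg N) × (Alg N × Alg N) × Alg N => z.2.1 :=
    continuous_fst.comp continuous_snd
  have cx : Continuous fun z : (Alg N)ˣ × (Alg N × Alg N) × (Alg N × Alg N) × Alg N => z.2.1.1 :=
    continuous_fst.comp cp
  have cx' : Continuous fun z : (Alg N)ˣ × (Alg N × Alg N) × (Alg N × Alg N) × Alg N => z.2.1.2 :=
    continuous_snd.comp cp
  have cq : Continuous fun z : (Alg N)ˣ × (Alg N × Alg N) × (Alg N × Alg N) × Alg N => z.2.2.1 :=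
    continuous_fst.comp (continuous_snd.comp continuous_snd)
  have cv : Continuous
      fun z : (Alg N)ˣ × (Alg N × Alg N) × (Alg N × Alg N) × Alg N => z.2.2.1.1 :=
    continuous_fst.comp cq
  have cv' : Continuous
      fun z : (Alg N)ˣ × (Alg N × Alg N) × (Alg N × Alg N) × Alg N => z.2.2.1.2 :=
    continuous_snd.comp cq
  have cw : Continuous fun z : (Alg N)ˣ × (Alg N × Alg N) × (Alg N × Alg N) × Alg N => z.2.2.2 :=
    continuous_snd.comp (continuous_snd.comp continuous_snd)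
  have hl := LinkS_isClosed_lnk hH I
  have q1 := Continuous.comp (continuous_ip (N := N)) (cx.prodMk cx)
  have q2 := Continuous.comp (continuous_ip (N := N)) (cx'.prodMk cx')
  have q3 := isClosed_eq (Continuous.add q1 q2) (continuous_const (y := (1 : ℝ)))
  have q4 := Continuous.comp (LinkS_cont_qf I) cp
  have q5 := isClosed_le (continuous_const (y := (0 : ℝ)))
    (Continuous.mul (continuous_const (y := s)) q4)
  have q6 := Continuous.comp (continuous_cA (N := N)) (c1.prodMk cw)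
  refine IsClosed.and ?_ (IsClosed.and ?_ (IsClosed.and ?_ (IsClosed.and ?_ (IsClosed.and ?_
    (IsClosed.and ?_ ?_)))))
  · exact (hG.closed.preimage c1).inter (isCompact_orth.isClosed.preimage c1)
  · exact (hl.preimage cx).inter (hl.preimage cx')
  · exact q3.inter q5
  · exact ((isClosed_pp hH).preimage cv).inter
      (isClosed_eq ((continuous_trA I).comp cv) cv)
  · exact ((isClosed_pp hH).preimage cv').inter
      (isClosed_eq ((continuous_trA Iᶜ).comp cv') cv')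
  · exact (isClosed_pp hL).preimage cw
  · exact isClosed_eq (((((continuous_trA I).comp cx).add cv).add
      ((continuous_trA Iᶜ).comp cx')).add cv') q6

private theorem LinkS_compact_Z (hG : SelfAdj G) (hH : SelfAdj H) (hL : SelfAdj L)
    (hLG : L ≤ G) (hc : Cpl G H L) (I : Finset (Fin n)) (s : ℝ) :
    IsCompact (LinkS_Z G H L I s) := by
  obtain ⟨ε, hε, he⟩ := exists_eps hG hH hL fun k hk ho => (hc k hk ho).1
  set B : ℝ → Set (Alg N) := fun c => {X : Alg N | (∀ i, (X i)ᵀ = X i) ∧ ip X X ≤ c} with hB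
  have hBc : ∀ c, IsCompact (B c) := fun c => isCompact_symm_ball N c
  have hcomp : IsCompact ({k : (Alg N)ˣ | Orth k} ×ˢ ((B 1 ×ˢ B 1) ×ˢ
      ((B (2 / ε + 2) ×ˢ B (2 / ε + 2)) ×ˢ B (1 / ε)))) :=
    isCompact_orth.prod (((hBc 1).prod (hBc 1)).prod
      (((hBc _).prod (hBc _)).prod (hBc _)))
  refine hcomp.of_isClosed_subset (LinkS_closed_Z hG hH hL I s) ?_
  rintro ⟨k, ⟨x, x'⟩, ⟨v, v'⟩, w⟩ ⟨⟨hk, ho⟩, ⟨hx, hx'⟩, ⟨h1, -⟩, ⟨hv, hvI⟩, ⟨hv', hvI'⟩, hw, hEq⟩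
  dsimp only at hk ho hx hx' h1 hv hvI hv' hvI' hw hEq
  have sx : ∀ i, (x i)ᵀ = x i := hx.1.1
  have sx' : ∀ i, (x' i)ᵀ = x' i := hx'.1.1
  have sv : ∀ i, (v i)ᵀ = v i := hv.1
  have sv' : ∀ i, (v' i)ᵀ = v' i := hv'.1
  have sw : ∀ i, (w i)ᵀ = w i := hw.1
  have n1 := ip_nonneg sx
  have n2 := ip_nonneg sx'
  have scw : ∀ i, (cA k w i)ᵀ = cA k w i := (pp_cA hk ho (pp_mono hLG hw)).1
  have hu : ip (trA I x + trA Iᶜ x') (trA I x + trA Iᶜ x') ≤ 1 := by
    have e1 : ip (trA I x) (trA Iᶜ x') = 0 := by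
      rw [ip_trA, trA_trA_compl, ip_comm, ip_zero_left]
    rw [LinkS_ip_add, e1]
    have := LinkS_ip_trA_le I sx
    have := LinkS_ip_trA_le Iᶜ sx'
    linarith
  have hdiff : v + v' - cA k w = -(trA I x + trA Iᶜ x') := by
    rw [← hEq]
    abel
  have hw1 : ip w w ≤ 1 / ε := by
    have h2 := he k hk ho (v + v') (pp_add hH hv hv') w hw
    rw [hdiff] at h2
    have h3 : ip (-(trA I x + trA Iᶜ x')) (-(trA I x + trA Iᶜ x')) =
        ip (trA I x + trA Iᶜ x') (trA I x + trA Iᶜ x') := by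
      have := LinkS_ip_smul (-1) (trA I x + trA Iᶜ x')
      rw [neg_one_smul] at this
      rw [this]
      ring
    rw [h3] at h2
    rw [le_div_iff₀ hε]
    linarith
  have hvv : ip v v + ip v' v' ≤ 2 / ε + 2 := by
    have e1 : ip v v' = 0 := by
      rw [← hvI, ip_trA, ← hvI', trA_trA_compl, ip_comm, ip_zero_left]
    have e2 : ip (v + v') (v + v') = ip v v + ip v' v' := by
      rw [LinkS_ip_add, e1]
      ring
    have e3 : v + v' = cA k w - (trA I x + trA Iᶜ x') := by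
      rw [← hEq]
      abel
    have e4 : 0 ≤ ip (cA k w + (trA I x + trA Iᶜ x')) (cA k w + (trA I x + trA Iᶜ x')) := by
      refine ip_nonneg fun i => ?_
      rw [Pi.add_apply, Pi.add_apply, transpose_add, transpose_add, scw i, symm_trA sx i,
        symm_trA sx' i]
    rw [LinkS_ip_add] at e4
    have e5 := LinkS_ip_sub (cA k w) (trA I x + trA Iᶜ x')
    rw [← e3, e2, ip_cA] at e5
    rw [ip_cA] at e4
    have e6 : 2 / ε = 2 * (1 / ε) := by ring
    rw [e6]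
    linarith
  have n3 := ip_nonneg sv
  have n4 := ip_nonneg sv'
  refine ⟨ho, ⟨⟨sx, ?_⟩, sx', ?_⟩, ⟨⟨sv, ?_⟩, sv', ?_⟩, sw, hw1⟩
  · show ip x x ≤ 1
    linarith
  · show ip x' x' ≤ 1
    linarith
  · show ip v v ≤ _
    linarith
  · show ip v' v' ≤ _
    linarith

private theorem LinkS_closed_A (hG : SelfAdj G) (hH : SelfAdj H) (hL : SelfAdj L)
    (hLG : L ≤ G) (hc : Cpl G H L) (I : Finset (Fin n)) (s : ℝ) :
    IsClosed (LinkS_A G H L I s) := by
  have h1 : LinkS_A G H L I s = Prod.fst '' LinkS_Z G H L I s := by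
    ext k
    constructor
    · rintro ⟨hk, ho, p, ⟨hp1, hp2, v, hv, hvI, v', hv', hvI', w, hw, hEq⟩, hn, hq⟩
      exact ⟨(k, p, (v, v'), w), ⟨⟨hk, ho⟩, ⟨hp1, hp2⟩, ⟨hn, hq⟩, ⟨hv, hvI⟩, ⟨hv', hvI'⟩, hw, hEq⟩,
        rfl⟩
    · rintro ⟨⟨k', p, ⟨v, v'⟩, w⟩, ⟨⟨hk, ho⟩, ⟨hp1, hp2⟩, ⟨hn, hq⟩, ⟨hv, hvI⟩, ⟨hv', hvI'⟩, hw,
        hEq⟩, rfl⟩
      exact ⟨hk, ho, p, ⟨hp1, hp2, v, hv, hvI, v', hv', hvI', w, hw, hEq⟩, hn, hq⟩
  rw [h1]
  exact ((LinkS_compact_Z hG hH hL hLG hc I s).image continuous_fst).isClosed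

private theorem LinkS_scale (hH : SelfAdj H) (hL : SelfAdj L) {k : (Alg N)ˣ} (hk : k ∈ G)
    (ho : Orth k) {p : Alg N × Alg N} (hp : p ∈ RR H L I k) (h0 : p ≠ 0) {s : ℝ}
    (hs : 0 ≤ s * qf I p) : k ∈ LinkS_A G H L I s := by
  have sx : ∀ i, (p.1 i)ᵀ = p.1 i := hp.1.1.1
  have sx' : ∀ i, (p.2 i)ᵀ = p.2 i := hp.2.1.1.1
  have n1 := ip_nonneg sx
  have n2 := ip_nonneg sx'
  have hn : 0 < ip p.1 p.1 + ip p.2 p.2 := by
    rcases lt_or_eq_of_le (add_nonneg n1 n2) with h | h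
    · exact h
    · exfalso
      apply h0
      have h3 : ip p.1 p.1 = 0 := by linarith
      have h4 : ip p.2 p.2 = 0 := by linarith
      exact Prod.ext (ip_self_zero sx h3) (ip_self_zero sx' h4)
  set M := ip p.1 p.1 + ip p.2 p.2 with hM
  set c : ℝ := 1 / Real.sqrt M with hcdef
  have hc2 : c ^ 2 = 1 / M := by
    rw [hcdef, div_pow, one_pow, Real.sq_sqrt hn.le]
  refine ⟨hk, ho, c • p, ?_, ?_, ?_⟩
  · have h5 := RR_comb hH hL hp hp c 0
    rwa [zero_smul, add_zero] at h5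
  · show ip (c • p.1) (c • p.1) + ip (c • p.2) (c • p.2) = 1
    rw [LinkS_ip_smul, LinkS_ip_smul, ← mul_add, ← hM, hc2]
    field_simp
  · rw [LinkS_qf_smul]
    have : s * (c ^ 2 * qf I p) = c ^ 2 * (s * qf I p) := by ring
    rw [this]
    exact mul_nonneg (sq_nonneg c) hs

theorem RR_sign_all (hG : SelfAdj G) (hGs : SplitAt G I) (hconn : Kconn G) (hH : SelfAdj H)
    (hL : SelfAdj L) (hHG : H ≤ G) (hLG : L ≤ G) (hc : Cpl G H L) (hT : CondT G H I) :
    (∀ k ∈ G, Orth k → ∀ p ∈ RR H L I k, 0 ≤ qf I p) ∨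
      (∀ k ∈ G, Orth k → ∀ p ∈ RR H L I k, qf I p ≤ 0) := by
  by_cases hl : ∀ x ∈ lnk H I, x = 0
  · left
    intro k _ _ p hp
    have h1 : p.1 = 0 := hl _ hp.1
    have h2 : p.2 = 0 := hl _ hp.2.1
    unfold qf
    rw [h1, h2, sub_self]
  push Not at hl
  obtain ⟨x0, hx0, hne⟩ := hl
  by_contra hcon
  push Not at hcon
  obtain ⟨⟨k1, hk1, ho1, p1, hp1, hq1⟩, k2, hk2, ho2, p2, hp2, hq2⟩ := hcon
  have z0 : qf I (0 : Alg N × Alg N) = 0 := by
    show ip _ _ - ip _ _ = 0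
    exact sub_self _
  have hcl := LinkS_closed_A hG hH hL hLG hc I
  have hpre := (isPreconnected_closed_iff.1 hconn) (LinkS_A G H L I 1) (LinkS_A G H L I (-1))
    (hcl 1) (hcl (-1)) ?_ ?_ ?_
  · obtain ⟨k, ⟨hk, ho⟩, ⟨-, -, p, hp, hn, hq⟩, -, -, p', hp', hn', hq'⟩ := hpre
    have hne1 : ∀ {r : Alg N × Alg N}, ip r.1 r.1 + ip r.2 r.2 = 1 → r ≠ 0 := by
      rintro r hr rfl
      have : ip (0 : Alg N × Alg N).1 (0 : Alg N × Alg N).1 = 0 := ip_zero_left _
      have h6 : ip (0 : Alg N × Alg N).2 (0 : Alg N × Alg N).2 = 0 := ip_zero_left _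
      rw [this, h6] at hr
      norm_num at hr
    have a1 := RR_ne hG hH hHG hc hT hk ho hp (hne1 hn)
    have a2 := RR_ne hG hH hHG hc hT hk ho hp' (hne1 hn')
    rw [one_mul] at hq
    have hq2 : qf I p' ≤ 0 := by linarith
    rcases RR_sign hG hH hL hHG hc hT hk ho with h | h
    · exact a2 (le_antisymm hq2 (h p' hp'))
    · exact a1 (le_antisymm (h p hp) hq)
  · rintro k ⟨hk, ho⟩
    obtain ⟨p, hp, hx⟩ := RR_exists hG hGs hH hHG hc hk ho hx0
    have hp0 : p ≠ 0 := by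
      rintro rfl
      apply hne
      rw [hx]
      show (0 : Alg N) - 0 = 0
      exact sub_self _
    rcases le_total 0 (qf I p) with h | h
    · exact Or.inl (LinkS_scale hH hL hk ho hp hp0 (by rw [one_mul]; exact h))
    · exact Or.inr (LinkS_scale hH hL hk ho hp hp0 (by linarith))
  · refine ⟨k2, ⟨hk2, ho2⟩, LinkS_scale hH hL hk2 ho2 hp2 ?_ (by linarith)⟩
    rintro rfl
    linarith
  · refine ⟨k1, ⟨hk1, ho1⟩, LinkS_scale hH hL hk1 ho1 hp1 ?_ (by linarith)⟩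
    rintro rfl
    linarith

end Pool.Agent.MP_417c68_gt
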