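import Pool.Agent.Lib.MP_417c68_gt_D.Defs

/-!
# MP_417c68_gt, module Log: comparison of exponentials of symmetric matrices
-/

noncomputable section

namespace Pool.Agent.MP_417c68_gt

open Matrix NormedSpace

section aux

attribute [local instance] Matrix.linftyOpNormedRing Matrix.linftyOpNormedAlgebra

private lemma Log_der {m : ℕ} (x y : Matrix (Fin m) (Fin m) ℝ) (hx : xᵀ = x) (hy : yᵀ = y)
    (t : ℝ) :
    HasDerivAt (fun s : ℝ => ((exp (s • y) * exp (s • x))ᵀ * (exp (s • y) * exp (s • x))).trace)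
      (2 * ((exp (t • y) * exp (t • x))ᵀ * (exp (t • y) * (y + x) * exp (t • x))).trace) t ∧
    HasDerivAt (fun s : ℝ => ((exp (s • y) * exp (s • x))ᵀ *
        (exp (s • y) * (y + x) * exp (s • x))).trace)
      (2 * ((exp (t • y) * (y + x) * exp (t • x))ᵀ *
        (exp (t • y) * (y + x) * exp (t • x))).trace) t := by
  set M : ℝ → Matrix (Fin m) (Fin m) ℝ := fun s => exp (s • y) * exp (s • x) with hMd
  set P : ℝ → Matrix (Fin m) (Fin m) ℝ := fun s => exp (s • x) * exp (s • y) with hPd
  set W : ℝ → Matrix (Fin m) (Fin m) ℝ := fun s => exp (s • y) * (y + x) * exp (s • x) with hWd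
  have e1 : ∀ s : ℝ, (exp (s • x))ᵀ = exp (s • x) := by
    intro s
    rw [← Matrix.exp_transpose, Matrix.transpose_smul, hx]
  have e2 : ∀ s : ℝ, (exp (s • y))ᵀ = exp (s • y) := by
    intro s
    rw [← Matrix.exp_transpose, Matrix.transpose_smul, hy]
  have hP : ∀ s, P s = (M s)ᵀ := by
    intro s
    simp only [hMd, hPd, Matrix.transpose_mul, e1, e2]
  have hW : ∀ s, W s = y * M s + M s * x := by
    intro s
    have c1 : exp (s • y) * y = y * exp (s • y) :=
      (((Commute.refl y).smul_right s).exp_right.eq).symm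
    have c2 : x * exp (s • x) = exp (s • x) * x := ((Commute.refl x).smul_right s).exp_right.eq
    simp only [hMd, hWd]
    rw [mul_add, add_mul, c1, mul_assoc (exp (s • y)) x, c2]
    simp only [mul_assoc]
  have hM' : ∀ t, HasDerivAt M (y * M t + M t * x) t := fun t => by
    have h := der_two y x 1 t
    simpa only [mul_one] using h
  have hP' : ∀ t, HasDerivAt P (x * P t + P t * y) t := fun t => by
    have h := der_two x y 1 t
    simpa only [mul_one] using h
  have hWW : HasDerivAt W (y * W t + W t * x) t := by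
    have h : HasDerivAt (fun s => y * M s + M s * x)
        (y * (y * M t + M t * x) + (y * M t + M t * x) * x) t :=
      ((hM' t).const_mul y).add ((hM' t).mul_const x)
    have h2 : W = fun s => y * M s + M s * x := funext hW
    rw [hW t, h2]
    exact h
  refine ⟨?_, ?_⟩
  · have h1 : HasDerivAt (fun s => (P s * M s).trace)
        ((x * P t + P t * y) * M t + P t * (y * M t + M t * x)).trace t :=
      der_trace ((hP' t).mul (hM' t))
    have h2 : HasDerivAt (fun s => (P s * M s).trace) (2 * (P t * W t).trace) t := by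
      refine h1.congr_deriv ?_
      rw [hW t, add_mul, Matrix.trace_add, Matrix.trace_add, mul_add, Matrix.trace_add]
      have e3 : (x * P t * M t).trace = (P t * (M t * x)).trace := by
        rw [Matrix.mul_assoc, Matrix.trace_mul_comm, Matrix.mul_assoc]
      have e4 : (P t * y * M t).trace = (P t * (y * M t)).trace := by
        rw [Matrix.mul_assoc]
      rw [e3, e4]
      ring
    simp only [hP] at h2
    exact h2
  · have h1 : HasDerivAt (fun s => (P s * W s).trace)
        ((x * P t + P t * y) * W t + P t * (y * W t + W t * x)).trace t :=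
      der_trace ((hP' t).mul hWW)
    have h2 : HasDerivAt (fun s => (P s * W s).trace) (2 * ((W t)ᵀ * W t).trace) t := by
      refine h1.congr_deriv ?_
      have e0 : (W t)ᵀ = P t * y + x * P t := by
        rw [hW t, Matrix.transpose_add, Matrix.transpose_mul y (M t),
          Matrix.transpose_mul (M t) x, hx, hy, ← hP]
      rw [e0, Matrix.trace_add]
      generalize W t = V
      have e3 : (P t * (y * V + V * x)).trace = ((P t * y + x * P t) * V).trace := by
        rw [mul_add, add_mul, Matrix.trace_add, Matrix.trace_add, Matrix.mul_assoc (P t) y V,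
          Matrix.mul_assoc x (P t) V, ← Matrix.mul_assoc (P t) V x,
          Matrix.trace_mul_comm (P t * V) x]
      have e4 : (x * P t + P t * y) = P t * y + x * P t := add_comm _ _
      rw [e3, e4]
      ring
    simp only [hP] at h2
    exact h2

private lemma Log_low {m : ℕ} {y z : Matrix (Fin m) (Fin m) ℝ} (hy : yᵀ = y) (hz : zᵀ = z)
    (t : ℝ) : 2 * fr (-y + z) ≤ fr (exp (t • (-y)) * (-y + z) * exp (t • z)) +
      fr (exp (t • (-z)) * (-z + y) * exp (t • y)) := by
  have hsy : ∀ c : ℝ, (c • y)ᵀ = c • y := fun c => by rw [Matrix.transpose_smul, hy]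
  have hsz : ∀ c : ℝ, (c • z)ᵀ = c • z := fun c => by rw [Matrix.transpose_smul, hz]
  have hsy' : (t • (-y))ᵀ = t • (-y) := by rw [Matrix.transpose_smul, Matrix.transpose_neg, hy]
  have hsz' : (t • (-z))ᵀ = t • (-z) := by rw [Matrix.transpose_smul, Matrix.transpose_neg, hz]
  have h1 := fr_conv (t • z) (t • (-y)) (-y + z) (hsz t) hsy'
  have h2 := fr_conv (t • y) (t • (-z)) (-z + y) (hsy t) hsz'
  obtain ⟨D, hD⟩ : ∃ D, D = -y + z := ⟨_, rfl⟩
  have hD2 : -z + y = -D := by
    rw [hD]
    abel
  have hDt : Dᵀ = D := by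
    rw [hD, Matrix.transpose_add, Matrix.transpose_neg, hy, hz]
  rw [← hD] at h1 ⊢
  rw [hD2] at h2 ⊢
  have h3 : fr (-D) = fr D := by
    unfold fr
    rw [Matrix.transpose_neg, neg_mul_neg]
  rw [h3] at h2
  have h4 : (Dᵀ * (t • (-y) * D + D * t • z)).trace =
      -t * (D * (y * D)).trace + t * (D * (D * z)).trace := by
    rw [hDt, mul_add, Matrix.trace_add]
    simp only [smul_mul_assoc, mul_smul_comm, Matrix.trace_smul, smul_eq_mul, neg_mul, mul_neg,
      Matrix.trace_neg]
  have h5 : ((-D)ᵀ * (t • (-z) * -D + -D * t • y)).trace =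
      -t * (D * (z * D)).trace + t * (D * (D * y)).trace := by
    rw [Matrix.transpose_neg, hDt, mul_add, Matrix.trace_add]
    simp only [smul_mul_assoc, mul_smul_comm, Matrix.trace_smul, smul_eq_mul, neg_mul, mul_neg,
      Matrix.trace_neg, neg_neg]
  have h6 : ∀ w : Matrix (Fin m) (Fin m) ℝ, (D * (D * w)).trace = (D * (w * D)).trace := by
    intro w
    rw [Matrix.trace_mul_comm, Matrix.mul_assoc]
  rw [h4, h6] at h1
  rw [h5, h6] at h2
  linarith

private lemma Log_main {m : ℕ} {y z : Matrix (Fin m) (Fin m) ℝ} (hy : yᵀ = y) (hz : zᵀ = z) :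
    2 * (m : ℝ) + 4 * fr (-y + z) ≤ fr (exp (-y) * exp z) + fr (exp (-z) * exp y) := by
  have hy' : (-y)ᵀ = -y := by rw [Matrix.transpose_neg, hy]
  have hz' : (-z)ᵀ = -z := by rw [Matrix.transpose_neg, hz]
  set F : ℝ → ℝ := fun s =>
    ((exp (s • (-y)) * exp (s • z))ᵀ * (exp (s • (-y)) * exp (s • z))).trace +
    ((exp (s • (-z)) * exp (s • y))ᵀ * (exp (s • (-z)) * exp (s • y))).trace with hF
  set H : ℝ → ℝ := fun s =>
    ((exp (s • (-y)) * exp (s • z))ᵀ * (exp (s • (-y)) * (-y + z) * exp (s • z))).trace +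
    ((exp (s • (-z)) * exp (s • y))ᵀ * (exp (s • (-z)) * (-z + y) * exp (s • y))).trace with hH
  have hF' : ∀ t, HasDerivAt F (2 * H t) t := fun t =>
    ((Log_der z (-y) hz hy' t).1.add (Log_der y (-z) hy hz' t).1).congr_deriv (by
      rw [hH]
      ring)
  have hH' : ∀ t, HasDerivAt H (2 * (fr (exp (t • (-y)) * (-y + z) * exp (t • z)) +
      fr (exp (t • (-z)) * (-z + y) * exp (t • y)))) t := fun t =>
    ((Log_der z (-y) hz hy' t).2.add (Log_der y (-z) hy hz' t).2).congr_deriv (by
      unfold fr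
      ring)
  set c : ℝ := fr (-y + z) with hc
  have hHm : Monotone (fun s => H s - 4 * c * s) := by
    have hd : ∀ t : ℝ, HasDerivAt (fun s => H s - 4 * c * s)
        (2 * (fr (exp (t • (-y)) * (-y + z) * exp (t • z)) +
      fr (exp (t • (-z)) * (-z + y) * exp (t • y))) - 4 * c * 1) t :=
      fun t => (hH' t).sub ((hasDerivAt_id t).const_mul _)
    refine monotone_of_deriv_nonneg (fun t => (hd t).differentiableAt) fun t => ?_
    rw [(hd t).deriv]
    have := Log_low hy hz t
    linarith
  have hH0 : H 0 = 0 := by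
    simp only [hH, zero_smul, NormedSpace.exp_zero, mul_one, one_mul, Matrix.transpose_one]
    rw [← Matrix.trace_add]
    have h1 : -y + z + (-z + y) = 0 := by abel
    rw [h1, Matrix.trace_zero]
  have hHge : ∀ t, 0 ≤ t → 4 * c * t ≤ H t := by
    intro t ht
    have h1 := hHm ht
    simp only at h1
    rw [hH0] at h1
    linarith
  have hFm : MonotoneOn (fun s => F s - 4 * c * s ^ 2) (Set.Icc 0 1) := by
    have hd : ∀ t : ℝ, HasDerivAt (fun s => F s - 4 * c * s ^ 2)
        (2 * H t - 4 * c * (2 * t)) t := fun t => by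
      have h1 : HasDerivAt (fun s : ℝ => s ^ 2) (2 * t) t := by
        have h2 := hasDerivAt_pow 2 t
        simpa using h2
      exact (hF' t).sub (h1.const_mul _)
    refine monotoneOn_of_deriv_nonneg (convex_Icc 0 1)
      (fun t _ => (hd t).continuousAt.continuousWithinAt)
      (fun t _ => (hd t).differentiableAt.differentiableWithinAt) fun t ht => ?_
    rw [(hd t).deriv]
    rw [interior_Icc] at ht
    have := hHge t ht.1.le
    linarith
  have hfin := hFm (Set.left_mem_Icc.2 zero_le_one) (Set.right_mem_Icc.2 zero_le_one) zero_le_one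
  simp only at hfin
  have hF0 : F 0 = 2 * m := by
    simp only [hF, zero_smul, NormedSpace.exp_zero, mul_one, Matrix.transpose_one,
      Matrix.trace_one, Fintype.card_fin]
    ring
  have hF1 : F 1 = fr (exp (-y) * exp z) + fr (exp (-z) * exp y) := by
    simp only [hF, one_smul, fr]
  rw [hF0, hF1] at hfin
  linarith

end aux

theorem log_bound {m : ℕ} {y z : Matrix (Fin m) (Fin m) ℝ} (hy : yᵀ = y) (hz : zᵀ = z) :
    2 * (m : ℝ) + 4 * fr (y - z) ≤ fr (exp (-y) * exp z) + fr (exp (-z) * exp y) := by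
  have h := Log_main hy hz
  have h1 : fr (y - z) = fr (-y + z) := by
    have h2 : y - z = -(-y + z) := by abel
    rw [h2]
    unfold fr
    rw [Matrix.transpose_neg, neg_mul_neg]
  rw [h1]
  exact h

theorem exp_inj_symm {m : ℕ} {y z : Matrix (Fin m) (Fin m) ℝ} (hy : yᵀ = y) (hz : zᵀ = z)
    (h : exp y = exp z) : y = z := by
  have h1 := log_bound hy hz
  have h2 : exp (-y) * exp z = 1 := by
    rw [← h, Matrix.exp_neg]
    exact Matrix.nonsing_inv_mul _ ((Matrix.isUnit_iff_isUnit_det _).1 (Matrix.isUnit_exp y))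
  have h3 : exp (-z) * exp y = 1 := by
    rw [h, Matrix.exp_neg]
    exact Matrix.nonsing_inv_mul _ ((Matrix.isUnit_iff_isUnit_det _).1 (Matrix.isUnit_exp z))
  have h4 : fr (1 : Matrix (Fin m) (Fin m) ℝ) = m := by
    unfold fr
    rw [Matrix.transpose_one, mul_one, Matrix.trace_one, Fintype.card_fin]
  rw [h2, h3, h4] at h1
  have h5 : fr (y - z) ≤ 0 := by linarith
  have h6 : y - z = 0 := by
    have h7 : 0 ≤ fr (y - z) := fr_nonneg' (y - z)
    exact fr_eq_zero (le_antisymm h5 h7)
  exact sub_eq_zero.1 h6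

end Pool.Agent.MP_417c68_gt
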