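import Pool.Agent.Lib.MP_417c68_gt_D.Dich
import Pool.Agent.Lib.MP_417c68_gt_D.Kc

/-!
# MP_417c68_gt, module PeelInd: peeling all factors of real rank one
-/

noncomputable section

namespace Pool.Agent.MP_417c68_gt

open Matrix NormedSpace

variable {n : ℕ} {N : Fin n → ℕ} {G H L : Subgroup (Alg N)ˣ}

private theorem peelInd_LI_empty (G : Subgroup (Alg N)ˣ) : LI G ∅ = G := by
  ext g
  rw [mem_LI]
  exact ⟨fun h => h.1, fun h => ⟨h, fun i hi => absurd hi (Finset.notMem_empty i)⟩⟩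

private theorem peelInd_Prj_empty (H : Subgroup (Alg N)ˣ) :
    Prj (LI H ∅) (∅ : Finset (Fin n))ᶜ = H := by
  rw [peelInd_LI_empty, Finset.compl_empty]
  ext g
  rw [mem_Prj]
  constructor
  · rintro ⟨h, hh, rfl⟩
    rwa [tru_univ]
  · intro hg
    exact ⟨g, hg, tru_univ g⟩

private theorem peelInd_LI_LI (G : Subgroup (Alg N)ˣ) (i : Fin n) (R : Finset (Fin n)) :
    LI (LI G {i}) R = LI G (insert i R) := by
  ext g
  rw [mem_LI, mem_LI, mem_LI, and_assoc]
  refine and_congr_right fun _ => ⟨fun h j hj => ?_, fun h => ⟨fun j hj => ?_, fun j hj => ?_⟩⟩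
  · rcases Finset.mem_insert.1 hj with h1 | h1
    · exact h.1 j (Finset.mem_singleton.2 h1)
    · exact h.2 j h1
  · exact h j (Finset.mem_insert.2 (Or.inl (Finset.mem_singleton.1 hj)))
  · exact h j (Finset.mem_insert_of_mem hj)

private theorem peelInd_trA (i : Fin n) (R : Finset (Fin n)) (Y : Alg N) :
    trA Rᶜ (trA {i}ᶜ Y) = trA (insert i R)ᶜ Y := by
  rw [trA_trA]
  congr 1
  ext j
  simp only [Finset.mem_inter, Finset.mem_compl, Finset.mem_singleton, Finset.mem_insert]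
  tauto

private theorem peelInd_trA' {i : Fin n} {R : Finset (Fin n)} {Y : Alg N} (h : Y i = 0) :
    trA Rᶜ Y = trA (insert i R)ᶜ Y := by
  rw [← peelInd_trA]
  congr 1
  funext j
  by_cases hj : j = i
  · subst hj
    rw [h, trA_out fun h1 => Finset.mem_compl.1 h1 (Finset.mem_singleton_self j)]
  · rw [trA_in (Finset.mem_compl.2 fun h1 => hj (Finset.mem_singleton.1 h1))]

theorem peel_nec {R : Finset (Fin n)} (hG : SelfAdj G) (hR : ∀ i ∈ R, RkOne G i)
    (hconn : Kconn G) (hH : SelfAdj H) (hL : SelfAdj L) (hHG : H ≤ G) (hLG : L ≤ G)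
    (hc : Cpl G H L) :
    ∃ T ⊆ R, (∀ z ∈ pp G, ∃ x ∈ pp H, ∀ i ∈ T, x i = z i) ∧
      (∀ x ∈ pp H, (∀ i ∈ T, x i = 0) → (∀ i ∉ R, x i = 0) → x = 0) ∧
      ∃ L₂ ≤ LI G R, SelfAdj L₂ ∧ Cpl (LI G R) (Prj (LI H T) Rᶜ) L₂ := by
  induction R using Finset.induction_on generalizing G H L with
  | empty =>
    refine ⟨∅, Finset.Subset.refl _, fun z _ => ⟨0, pp_zero, fun i hi =>
      absurd hi (Finset.notMem_empty i)⟩, fun x _ _ h => funext fun i =>
      h i (Finset.notMem_empty i), L, ?_, hL, ?_⟩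
    · rwa [peelInd_LI_empty]
    · rwa [peelInd_Prj_empty, peelInd_LI_empty]
  | insert i R' hi ih =>
    have hRi : RkOne G i := hR i (Finset.mem_insert_self i R')
    have hGs : SplitAt G {i} := hRi.split
    have hGs' : SplitAt G {i}ᶜ := splitAt_compl hGs
    have hG' : SelfAdj (LI G {i}) := selfAdj_LI hG _
    have hne : ∀ j ∈ R', j ∉ ({i} : Finset (Fin n)) := fun j hj h =>
      hi (Finset.mem_singleton.1 h ▸ hj)
    have hR' : ∀ j ∈ R', RkOne (LI G {i}) j := fun j hj =>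
      rkOne_LI (hne j hj) (hR j (Finset.mem_insert_of_mem hj)) hGs
    have hconn' : Kconn (LI G {i}) := kconn_LI hGs hconn
    have hLL := peelInd_LI_LI G i R'
    have hzG : ∀ z ∈ pp G, trA {i}ᶜ z ∈ pp (LI G {i}) := fun z hz =>
      mem_pp_LI.2 ⟨pp_trA hGs' hz, fun j hj => trA_out fun h => Finset.mem_compl.1 h hj⟩
    rcases peel_step hG hRi hconn hH hL hHG hLG hc with
      ⟨ha, L₂, hL₂, hS₂, hc₂⟩ | ⟨hb, L₂, hL₂, hS₂, hc₂⟩
    · have hH' : SelfAdj (Prj H {i}ᶜ) := selfAdj_prj hH _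
      have hHG' : Prj H {i}ᶜ ≤ LI G {i} := by
        have := prj_le hHG hGs'
        rwa [compl_compl] at this
      obtain ⟨T, hT, h1, h2, L₃, hL₃, hS₃, hc₃⟩ := ih hG' hR' hconn' hH' hS₂ hHG' hL₂ hc₂
      have hTi : ∀ j ∈ T, j ∈ ({i}ᶜ : Finset (Fin n)) := fun j hj =>
        Finset.mem_compl.2 (hne j (hT hj))
      rw [hLL] at hL₃ hc₃
      refine ⟨T, hT.trans (Finset.subset_insert i R'), fun z hz => ?_, fun x hx hx1 hx2 => ?_,
        L₃, hL₃, hS₃, cpl_congr (fun X => ?_) hc₃⟩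
      · obtain ⟨x', hx', hxz⟩ := h1 _ (hzG z hz)
        obtain ⟨x, hx, rfl⟩ := (mem_pp_prj hH).1 hx'
        refine ⟨x, hx, fun j hj => ?_⟩
        have h3 := hxz j hj
        rwa [trA_in (hTi j hj), trA_in (hTi j hj)] at h3
      · refine ha x hx (trA_eq_self_iff.2 (h2 _ ((mem_pp_prj hH).2 ⟨x, hx, rfl⟩)
          (fun j hj => ?_) fun j hj => ?_))
        · rw [trA_in (hTi j hj)]
          exact hx1 j hj
        · by_cases hji : j = i
          · exact trA_out fun h => Finset.mem_compl.1 h (Finset.mem_singleton.2 hji)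
          · rw [trA_in (Finset.mem_compl.2 fun h => hji (Finset.mem_singleton.1 h))]
            exact hx2 j fun h => (Finset.mem_insert.1 h).elim hji hj
      · rw [mem_pp_prj (selfAdj_LI hH' T), mem_pp_prj (selfAdj_LI hH T)]
        constructor
        · rintro ⟨Y, hY, rfl⟩
          obtain ⟨hY1, hY2⟩ := mem_pp_LI.1 hY
          obtain ⟨W, hW, rfl⟩ := (mem_pp_prj hH).1 hY1
          refine ⟨W, mem_pp_LI.2 ⟨hW, fun j hj => ?_⟩, (peelInd_trA i R' W).symm⟩
          have h3 := hY2 j hj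
          rwa [trA_in (hTi j hj)] at h3
        · rintro ⟨W, hW, rfl⟩
          obtain ⟨hW1, hW2⟩ := mem_pp_LI.1 hW
          refine ⟨trA {i}ᶜ W, mem_pp_LI.2 ⟨(mem_pp_prj hH).2 ⟨W, hW1, rfl⟩, fun j hj => ?_⟩,
            peelInd_trA i R' W⟩
          rw [trA_in (hTi j hj)]
          exact hW2 j hj
    · obtain ⟨T, hT, h1, h2, L₃, hL₃, hS₃, hc₃⟩ := ih hG' hR' hconn' (selfAdj_LI hH {i}) hS₂
        (LI_mono hHG _) hL₂ hc₂
      have hTi : ∀ j ∈ T, j ∈ ({i}ᶜ : Finset (Fin n)) := fun j hj =>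
        Finset.mem_compl.2 (hne j (hT hj))
      rw [hLL, peelInd_LI_LI H i T] at hc₃
      rw [hLL] at hL₃
      refine ⟨insert i T, Finset.insert_subset_insert i hT, fun z hz => ?_,
        fun x hx hx1 hx2 => ?_, L₃, hL₃, hS₃, cpl_congr (fun X => ?_) hc₃⟩
      · obtain ⟨x, hx, hxz⟩ := hb z hz
        obtain ⟨x', hx', hxz'⟩ := h1 _ (hzG _ (pp_sub hG hz (pp_mono hHG hx)))
        obtain ⟨hx'1, hx'2⟩ := mem_pp_LI.1 hx'
        refine ⟨x + x', pp_add hH hx hx'1, fun j hj => ?_⟩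
        rw [Pi.add_apply]
        rcases Finset.mem_insert.1 hj with h3 | h3
        · subst h3
          rw [hxz, hx'2 j (Finset.mem_singleton_self j), add_zero]
        · rw [hxz' j h3, trA_in (hTi j h3), Pi.sub_apply, add_sub_cancel]
      · refine h2 x (mem_pp_LI.2 ⟨hx, fun j hj => ?_⟩) (fun j hj =>
          hx1 j (Finset.mem_insert_of_mem hj)) fun j hj => ?_
        · exact hx1 j (Finset.mem_insert.2 (Or.inl (Finset.mem_singleton.1 hj)))
        · by_cases hji : j = i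
          · exact hx1 j (Finset.mem_insert.2 (Or.inl hji))
          · exact hx2 j fun h => (Finset.mem_insert.1 h).elim hji hj
      · rw [mem_pp_prj (selfAdj_LI hH _), mem_pp_prj (selfAdj_LI hH _)]
        constructor
        · rintro ⟨Y, hY, rfl⟩
          exact ⟨Y, hY, (peelInd_trA' ((mem_pp_LI.1 hY).2 i (Finset.mem_insert_self i T))).symm⟩
        · rintro ⟨Y, hY, rfl⟩
          exact ⟨Y, hY, peelInd_trA' ((mem_pp_LI.1 hY).2 i (Finset.mem_insert_self i T))⟩

end Pool.Agent.MP_417c68_gt
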