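import Pool.Agent.Lib.MP_417c68_gt_D.Log
import Pool.Agent.Lib.MP_417c68_gt_D.Blk

/-!
# MP_417c68_gt, module PrjA: projections of self-adjoint groups
-/

noncomputable section

namespace Pool.Agent.MP_417c68_gt

open Matrix NormedSpace

variable {n : ℕ} {N : Fin n → ℕ} {G H L : Subgroup (Alg N)ˣ}

private theorem prjA_two {m : ℕ} (A : Matrix (Fin m) (Fin m) ℝ) :
    exp A * exp A = exp ((2 : ℝ) • A) := by
  rw [← Matrix.exp_add_of_commute A A (Commute.refl A), two_smul]

private theorem prjA_sq {m : ℕ} {A : Matrix (Fin m) (Fin m) ℝ} (hA : Aᵀ = A) :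
    (exp A)ᵀ * exp A = exp ((2 : ℝ) • A) := by
  rw [← Matrix.exp_transpose, hA, prjA_two]

private theorem prjA_fr {m : ℕ} {A : Matrix (Fin m) (Fin m) ℝ} (hA : Aᵀ = A) :
    fr (exp A) = (exp ((2 : ℝ) • A)).trace := by
  unfold fr
  rw [prjA_sq hA]

private theorem prjA_mem {I : Finset (Fin n)} {Y : Alg N} (hY : Y ∈ pp H) :
    trA I Y ∈ pp (Prj H I) := by
  refine ⟨symm_trA hY.1, fun t => ?_⟩
  rw [← trA_smul, eu_trA]
  exact ⟨_, hY.2 t, rfl⟩

/-- a set whose intersections with all `KR N R` are closed is closed -/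
private theorem prjA_closed {S : Set (Alg N)ˣ} (h : ∀ R : ℝ, IsClosed (S ∩ KR N R)) :
    IsClosed S := by
  have hfr : ∀ m : ℕ, Continuous (fr : Matrix (Fin m) (Fin m) ℝ → ℝ) := by
    intro m
    have e : (fr : Matrix (Fin m) (Fin m) ℝ → ℝ) = fun A => (Aᵀ * A).trace := rfl
    rw [e]
    fun_prop
  have hc1 : ∀ i, Continuous fun g : (Alg N)ˣ => fr (g.1 i) := fun i =>
    (hfr _).comp ((continuous_apply i).comp Units.continuous_val)
  have hc2 : ∀ i, Continuous fun g : (Alg N)ˣ => fr ((g⁻¹).1 i) := fun i =>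
    (hfr _).comp ((continuous_apply i).comp (Units.continuous_val.comp continuous_inv))
  rw [← closure_subset_iff_isClosed]
  intro g hg
  obtain ⟨R, hR⟩ : ∃ R : ℝ, ∀ i, fr (g.1 i) < R ∧ fr ((g⁻¹).1 i) < R := by
    refine ⟨∑ i, (fr (g.1 i) + fr ((g⁻¹).1 i)) + 1, fun i => ?_⟩
    have h1 : fr (g.1 i) + fr ((g⁻¹).1 i) ≤ ∑ i, (fr (g.1 i) + fr ((g⁻¹).1 i)) :=
      Finset.single_le_sum (f := fun i => fr (g.1 i) + fr ((g⁻¹).1 i))
        (fun i _ => add_nonneg (fr_nonneg _) (fr_nonneg _)) (Finset.mem_univ i)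
    have h2 := fr_nonneg (g.1 i)
    have h3 := fr_nonneg ((g⁻¹).1 i)
    constructor <;> linarith
  have hU : IsOpen {u : (Alg N)ˣ | ∀ i, fr (u.1 i) < R ∧ fr ((u⁻¹).1 i) < R} := by
    have e : {u : (Alg N)ˣ | ∀ i, fr (u.1 i) < R ∧ fr ((u⁻¹).1 i) < R} =
        ⋂ i, ({u : (Alg N)ˣ | fr (u.1 i) < R} ∩ {u : (Alg N)ˣ | fr ((u⁻¹).1 i) < R}) := by
      ext u
      rw [Set.mem_iInter]
      rfl
    rw [e]
    exact isOpen_iInter_of_finite fun i =>
      (isOpen_lt (hc1 i) continuous_const).inter (isOpen_lt (hc2 i) continuous_const)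
  have h1 := hU.inter_closure ⟨hR, hg⟩
  have h2 : {u : (Alg N)ˣ | ∀ i, fr (u.1 i) < R ∧ fr ((u⁻¹).1 i) < R} ∩ S ⊆ S ∩ KR N R :=
    fun u hu => ⟨hu.2, fun i => ⟨(hu.1 i).1.le, (hu.1 i).2.le⟩⟩
  exact ((h R).closure_subset_iff.2 h2 h1).1

private theorem prjA_cont (I : Finset (Fin n)) :
    Continuous (fun p : (Alg N)ˣ × Alg N => tru I p.1 * eu p.2) := by
  have a : Continuous (fun p : (Alg N)ˣ × Alg N => tru I p.1) :=
    (continuous_tru I).comp continuous_fst
  have b : Continuous (fun p : (Alg N)ˣ × Alg N => eu p.2) := continuous_eu.comp continuous_snd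
  exact a.mul b

private theorem prjA_img (I : Finset (Fin n)) {A : Set (Alg N)ˣ} {B : Set (Alg N)}
    (hA : IsCompact A) (hB : IsCompact B) :
    IsCompact ((fun p : (Alg N)ˣ × Alg N => tru I p.1 * eu p.2) '' (A ×ˢ B)) :=
  (hA.prod hB).image (prjA_cont I)

private theorem prjA_KR (R : ℝ) : IsClosed (KR N R) := (isCompact_KR N R).isClosed

theorem selfAdj_prj (hH : SelfAdj H) (I : Finset (Fin n)) : SelfAdj (Prj H I) := by
  constructor
  · refine prjA_closed fun R => ?_
    -- the compact set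
    have hE : IsClosed (((pS H).map (trL I) : Submodule ℝ (Alg N)) : Set (Alg N)) :=
      Submodule.closed_of_finiteDimensional _
    have hEc := (isCompact_symm_ball N ((n : ℝ) * (R / 2))).inter_left hE
    have hK : IsCompact ({k : (Alg N)ˣ | Orth k} ∩ (H : Set (Alg N)ˣ)) :=
      isCompact_orth.inter_right hH.closed
    have hM := prjA_img I hK hEc
    have hKR : IsClosed (KR N R) := prjA_KR R
    have heq : (Prj H I : Set (Alg N)ˣ) ∩ KR N R =
        ((fun p : (Alg N)ˣ × Alg N => tru I p.1 * eu p.2) ''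
          (({k : (Alg N)ˣ | Orth k} ∩ (H : Set (Alg N)ˣ)) ×ˢ
            ((((pS H).map (trL I) : Submodule ℝ (Alg N)) : Set (Alg N)) ∩
              {X : Alg N | (∀ i, (X i)ᵀ = X i) ∧ ip X X ≤ (n : ℝ) * (R / 2)}))) ∩ KR N R := by
      ext g
      constructor
      · rintro ⟨⟨h, hh, rfl⟩, hg⟩
        refine ⟨?_, hg⟩
        obtain ⟨X, hX, k, hk, ho, rfl⟩ := polar_right hH hh
        have e1 : tru I (k * eu X) = tru I k * eu (trA I X) := by
          rw [tru_mul, eu_trA]
        refine ⟨(k, trA I X), ⟨⟨ho, hk⟩, ⟨?_, symm_trA hX.1, ?_⟩⟩, e1.symm⟩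
        · exact ⟨X, (mem_pS hH.closed).2 hX, rfl⟩
        · have hko : Orth (tru I k) := orth_tru I ho
          have hs := symm_trA (I := I) hX.1
          have key : ∀ i, ((trA I X) i * (trA I X) i).trace ≤ R / 2 := by
            intro i
            obtain ⟨h1, h2⟩ := hg i
            rw [e1] at h1 h2
            have h3 : fr ((tru I k * eu (trA I X)).1 i) =
                (exp ((2 : ℝ) • (trA I X) i)).trace := by
              show fr ((tru I k).1 i * exp ((trA I X) i)) = _
              rw [fr_orth_left (hko i), prjA_fr (hs i)]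
            have h4 : fr (((tru I k * eu (trA I X))⁻¹).1 i) =
                (exp (-((2 : ℝ) • (trA I X) i))).trace := by
              rw [_root_.mul_inv_rev, ← eu_neg]
              show fr (exp ((-(trA I X)) i) * ((tru I k)⁻¹).1 i) = _
              rw [fr_orth_right (orth_right (orth_inv hko) i), Pi.neg_apply,
                prjA_fr (by rw [Matrix.transpose_neg, hs i]), smul_neg]
            rw [h3] at h1
            rw [h4] at h2
            have h5 : ((2 : ℝ) • (trA I X) i)ᵀ = (2 : ℝ) • (trA I X) i := by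
              rw [Matrix.transpose_smul, hs i]
            have h6 := sq_le_exp h5
            have h7 : (((2 : ℝ) • (trA I X) i) * ((2 : ℝ) • (trA I X) i)).trace =
                4 * ((trA I X) i * (trA I X) i).trace := by
              rw [Matrix.smul_mul, Matrix.mul_smul, smul_smul, Matrix.trace_smul, smul_eq_mul]
              norm_num
            rw [h7] at h6
            linarith
          unfold ip
          refine (Finset.sum_le_sum fun i _ => key i).trans ?_
          rw [Finset.sum_const, Finset.card_univ, Fintype.card_fin, nsmul_eq_mul]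
      · rintro ⟨⟨p, ⟨⟨ho, hk⟩, ⟨⟨X, hX, hXe⟩, -, -⟩⟩, rfl⟩, hg⟩
        refine ⟨?_, hg⟩
        have hX' : X ∈ pp H := (mem_pS hH.closed).1 hX
        refine ⟨p.1 * eu X, H.mul_mem hk (eu_mem hX'), ?_⟩
        have hXe' : trA I X = p.2 := hXe
        rw [tru_mul, ← eu_trA, hXe']
    rw [heq]
    exact hM.isClosed.inter hKR
  · rintro g ⟨h, hh, rfl⟩
    obtain ⟨X, hX, hp⟩ := hH.polar h hh
    refine ⟨trA I X, prjA_mem hX, fun i => ?_⟩
    by_cases hi : i ∈ I
    · rw [tru_in hi, trA_in hi]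
      exact hp i
    · rw [tru_out hi, trA_out hi, exp_zero, Matrix.transpose_one, Matrix.one_mul]

theorem mem_pp_prj (hH : SelfAdj H) {I : Finset (Fin n)} {X : Alg N} :
    X ∈ pp (Prj H I) ↔ ∃ Y ∈ pp H, trA I Y = X := by
  constructor
  · rintro ⟨hs, hl⟩
    have h1 := hl 1
    rw [one_smul] at h1
    obtain ⟨h, hh, he⟩ := h1
    obtain ⟨Y, hY, hp⟩ := hH.polar h hh
    refine ⟨(1 / 2 : ℝ) • Y, pp_smul _ hY, ?_⟩
    funext i
    by_cases hi : i ∈ I
    · rw [trA_in hi, Pi.smul_apply]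
      have e1 : h.1 i = exp (X i) := by
        rw [← tru_in (g := h) hi, he]
        rfl
      have e2 := hp i
      rw [e1, prjA_sq (hs i)] at e2
      have e3 : ((2 : ℝ) • X i)ᵀ = (2 : ℝ) • X i := by rw [Matrix.transpose_smul, hs i]
      have e4 := exp_inj_symm e3 (hY.1 i) e2
      rw [← e4, smul_smul]
      norm_num
    · rw [trA_out hi]
      have e1 : exp (X i) = 1 := by
        rw [← tru_out (g := h) hi, he]
        rfl
      exact (zero_of_exp (hs i) e1).symm
  · rintro ⟨Y, hY, rfl⟩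
    exact prjA_mem hY

theorem prj_le (hHG : H ≤ G) {I : Finset (Fin n)} (hG : SplitAt G I) : Prj H I ≤ LI G Iᶜ := by
  rintro g ⟨h, hh, rfl⟩
  refine ⟨hG h (hHG hh), fun i hi => ?_⟩
  rw [Finset.mem_compl] at hi
  exact tru_out hi

end Pool.Agent.MP_417c68_gt
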