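import Pool.Agent.Lib.MP_417c68_gt_D.Grad
import Pool.Agent.Lib.MP_417c68_gt.Polar
import Pool.Agent.Lib.MP_417c68_gt.Cpt
import Pool.Agent.Lib.MP_417c68_gt.Fr

/-!
# MP_417c68_gt, module Sum: cocompactness gives the sum condition, any real rank
-/

noncomputable section

namespace Pool.Agent.MP_417c68_gt

open Matrix NormedSpace

variable {n : ℕ} {N : Fin n → ℕ} {G H L : Subgroup (Alg N)ˣ}

private theorem Sum_expsq {m : ℕ} (A : Matrix (Fin m) (Fin m) ℝ) :
    exp A * exp A = exp ((2 : ℝ) • A) := by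
  rw [← Matrix.exp_add_of_commute _ _ (Commute.refl _), two_smul]

private theorem Sum_expsq' {m : ℕ} (A : Matrix (Fin m) (Fin m) ℝ) :
    exp (-A) * exp (-A) = exp (-((2 : ℝ) • A)) := by
  rw [← Matrix.exp_add_of_commute _ _ (Commute.refl _), two_smul, neg_add]

/-- the two-sided inequality in one block -/
private theorem Sum_block {m : ℕ} {x y A : Matrix (Fin m) (Fin m) ℝ} (hx : xᵀ = x)
    (hy : yᵀ = y) (hA : Aᵀ = A) :
    ((exp ((2 : ℝ) • A)).trace + (exp (-((2 : ℝ) • A))).trace) +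
      2 * ((exp ((2 : ℝ) • A) - exp (-((2 : ℝ) • A))) * (x + y)).trace ≤
    fr (exp y * exp A * exp x) + fr (exp (-x) * exp (-A) * exp (-y)) := by
  have h1 := fr_conv x y (exp A) hx hy
  have h2 := fr_conv (-y) (-x) (exp (-A)) (by rw [Matrix.transpose_neg, hy])
    (by rw [Matrix.transpose_neg, hx])
  have e1 : (exp A)ᵀ = exp A := by
    rw [← Matrix.exp_transpose, hA]
  have e2 : (exp (-A))ᵀ = exp (-A) := by
    rw [← Matrix.exp_transpose, Matrix.transpose_neg, hA]
  have f1 : fr (exp A) = (exp ((2 : ℝ) • A)).trace := by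
    unfold fr
    rw [e1, Sum_expsq]
  have f2 : fr (exp (-A)) = (exp (-((2 : ℝ) • A))).trace := by
    unfold fr
    rw [e2, Sum_expsq']
  have g1 : ((exp A)ᵀ * (y * exp A + exp A * x)).trace =
      ((x + y) * exp ((2 : ℝ) • A)).trace := by
    rw [e1, Matrix.mul_add, Matrix.trace_add, Matrix.trace_mul_comm, Matrix.mul_assoc,
      Sum_expsq, ← Matrix.mul_assoc, Sum_expsq, Matrix.trace_mul_comm _ x, Matrix.add_mul,
      Matrix.trace_add, add_comm]
  have g2 : ((exp (-A))ᵀ * (-x * exp (-A) + exp (-A) * -y)).trace =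
      -((x + y) * exp (-((2 : ℝ) • A))).trace := by
    rw [e2, Matrix.mul_add, Matrix.trace_add, Matrix.trace_mul_comm, Matrix.mul_assoc,
      Sum_expsq', ← Matrix.mul_assoc, Sum_expsq', Matrix.trace_mul_comm _ (-y),
      Matrix.add_mul, Matrix.trace_add, Matrix.neg_mul, Matrix.neg_mul, Matrix.trace_neg,
      Matrix.trace_neg, neg_add]
  rw [f1, g1] at h1
  rw [f2, g2] at h2
  rw [Matrix.trace_mul_comm, Matrix.mul_sub, Matrix.trace_sub]
  linarith

private theorem Sum_entry {m : ℕ} {E : Matrix (Fin m) (Fin m) ℝ} (hE : Eᵀ = E) (j k : Fin m) :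
    |(E * E) j k| ≤ (E * E).trace := by
  have h0 : (E * E).trace = ∑ a, ∑ b, E a b ^ 2 := by
    rw [Matrix.trace]
    refine Finset.sum_congr rfl fun a _ => ?_
    rw [Matrix.diag_apply, Matrix.mul_apply]
    refine Finset.sum_congr rfl fun b _ => ?_
    have : E b a = E a b := by
      have := congrFun (congrFun hE a) b
      rw [Matrix.transpose_apply] at this
      exact this
    rw [this, sq]
  have h1 : ∀ a, ∑ b, E a b ^ 2 ≤ (E * E).trace := by
    intro a
    rw [h0]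
    exact Finset.single_le_sum (f := fun a => ∑ b, E a b ^ 2)
      (fun i _ => Finset.sum_nonneg fun b _ => sq_nonneg _) (Finset.mem_univ a)
  have h2 : |(E * E) j k| ≤ ∑ l, (E j l ^ 2 + E k l ^ 2) / 2 := by
    rw [Matrix.mul_apply]
    refine (Finset.abs_sum_le_sum_abs _ _).trans (Finset.sum_le_sum fun l _ => ?_)
    have : E l k = E k l := by
      have := congrFun (congrFun hE k) l
      rw [Matrix.transpose_apply] at this
      exact this
    rw [this, abs_le]
    constructor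
    · nlinarith [sq_nonneg (E j l + E k l)]
    · nlinarith [sq_nonneg (E j l - E k l)]
  have h3 : ∑ l, (E j l ^ 2 + E k l ^ 2) / 2 = (∑ l, E j l ^ 2 + ∑ l, E k l ^ 2) / 2 := by
    rw [← Finset.sum_div, Finset.sum_add_distrib]
  rw [h3] at h2
  have h4 := h1 j
  have h5 := h1 k
  linarith

/-- the upper bound of a trace against a fixed matrix -/
private theorem Sum_up {m : ℕ} {E : Matrix (Fin m) (Fin m) ℝ} (hE : Eᵀ = E)
    (ν : Matrix (Fin m) (Fin m) ℝ) :
    |((E * E) * ν).trace| ≤ (∑ j, ∑ k, |ν k j|) * (E * E).trace := by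
  rw [Matrix.trace, Finset.sum_mul]
  refine (Finset.abs_sum_le_sum_abs _ _).trans (Finset.sum_le_sum fun j _ => ?_)
  rw [Matrix.diag_apply, Matrix.mul_apply, Finset.sum_mul]
  refine (Finset.abs_sum_le_sum_abs _ _).trans (Finset.sum_le_sum fun k _ => ?_)
  rw [abs_mul, mul_comm]
  exact mul_le_mul_of_nonneg_left (Sum_entry hE j k) (abs_nonneg _)

private theorem Sum_diff {m : ℕ} {A : Matrix (Fin m) (Fin m) ℝ} (hA : Aᵀ = A)
    (ν : Matrix (Fin m) (Fin m) ℝ) :
    ((exp ((2 : ℝ) • A) - exp (-((2 : ℝ) • A))) * ν).trace ≤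
      (∑ j, ∑ k, |ν k j|) * ((exp ((2 : ℝ) • A)).trace + (exp (-((2 : ℝ) • A))).trace) := by
  have e1 : (exp A)ᵀ = exp A := by
    rw [← Matrix.exp_transpose, hA]
  have e2 : (exp (-A))ᵀ = exp (-A) := by
    rw [← Matrix.exp_transpose, Matrix.transpose_neg, hA]
  have h1 := (abs_le.1 (Sum_up e1 ν)).2
  have h2 := (abs_le.1 (Sum_up e2 ν)).1
  rw [Sum_expsq] at h1
  rw [Sum_expsq'] at h2
  rw [Matrix.sub_mul, Matrix.trace_sub, mul_add]
  linarith

private theorem Sum_P_nonneg {m : ℕ} {A : Matrix (Fin m) (Fin m) ℝ} (hA : Aᵀ = A) :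
    0 ≤ (exp ((2 : ℝ) • A)).trace + (exp (-((2 : ℝ) • A))).trace := by
  have e1 : (exp A)ᵀ = exp A := by
    rw [← Matrix.exp_transpose, hA]
  have e2 : (exp (-A))ᵀ = exp (-A) := by
    rw [← Matrix.exp_transpose, Matrix.transpose_neg, hA]
  have h1 := sq_nonneg' e1
  have h2 := sq_nonneg' e2
  rw [Sum_expsq] at h1
  rw [Sum_expsq'] at h2
  linarith

theorem orth_zero_gen (hG : SelfAdj G) (hH : SelfAdj H) (hL : SelfAdj L)
    (hHG : H ≤ G) (hLG : L ≤ G) (R : ℝ)
    (hc : ∀ g ∈ G, ∃ l ∈ L, ∃ c ∈ KR N R, ∃ h ∈ H, g = l * c * h) {ν : Alg N} (hν : ν ∈ pp G)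
    (h1 : ∀ x ∈ pp H, ip x ν = 0) (h2 : ∀ y ∈ pp L, ip y ν = 0) : ν = 0 := by
  classical
  have hsym : ∀ i, (ν i)ᵀ = ν i := hν.1
  obtain ⟨C, hC0, hC⟩ : ∃ C : ℝ, 0 ≤ C ∧ ∀ i, ∑ j, ∑ k, |ν i k j| ≤ C := by
    refine ⟨∑ i, ∑ j, ∑ k, |ν i k j|, ?_, fun i => ?_⟩
    · exact Finset.sum_nonneg fun i _ => Finset.sum_nonneg fun j _ =>
        Finset.sum_nonneg fun k _ => abs_nonneg _
    · exact Finset.single_le_sum (f := fun i => ∑ j, ∑ k, |ν i k j|)
        (fun i _ => Finset.sum_nonneg fun j _ => Finset.sum_nonneg fun k _ => abs_nonneg _)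
        (Finset.mem_univ i)
  have key : ∀ s : ℝ, 0 < s → 2 * s * ip ν ν ≤ C * ((n : ℝ) * (2 * R)) := by
    intro s hs
    obtain ⟨z, hz, hzw⟩ := exists_grad hG hν s
    have hzG : eu z ∈ G := by
      have := hz.2 1
      rwa [one_smul] at this
    obtain ⟨l, hl, c, hcR, h, hh, hE⟩ := hc (eu z) hzG
    obtain ⟨y, hy, k1, hk1, ho1, hy1⟩ := polar_right hL (L.inv_mem hl)
    obtain ⟨x, hx, k2, hk2, ho2, hx1⟩ := polar_left hH (H.inv_mem hh)
    have hxG : x ∈ pp G := pp_mono hHG hx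
    have hyG : y ∈ pp G := pp_mono hLG hy
    have hc' : eu y * eu z * eu x = k1⁻¹ * c * k2⁻¹ := by
      have a1 : eu y = k1⁻¹ * l⁻¹ := by rw [hy1]; group
      have a2 : eu x = h⁻¹ * k2⁻¹ := by rw [hx1]; group
      rw [a1, a2, hE]
      group
    have hci : eu (-x) * eu (-z) * eu (-y) = k2 * c⁻¹ * k1 := by
      have a3 : eu (-x) * eu (-z) * eu (-y) = (eu y * eu z * eu x)⁻¹ := by
        rw [eu_neg, eu_neg, eu_neg]
        group
      rw [a3, hc']
      group
    have hb1 : ∀ i, fr (exp (y i) * exp (z i) * exp (x i)) ≤ R := by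
      intro i
      have a4 : exp (y i) * exp (z i) * exp (x i) = (k1⁻¹).1 i * c.1 i * (k2⁻¹).1 i :=
        congrFun (congrArg Units.val hc') i
      rw [a4, fr_orth_right (orth_right (orth_inv ho2) i), fr_orth_left (orth_inv ho1 i)]
      exact (hcR i).1
    have hb2 : ∀ i, fr (exp (-x i) * exp (-z i) * exp (-y i)) ≤ R := by
      intro i
      have a4 : exp (-x i) * exp (-z i) * exp (-y i) = k2.1 i * (c⁻¹).1 i * k1.1 i :=
        congrFun (congrArg Units.val hci) i
      rw [a4, fr_orth_right (orth_right ho1 i), fr_orth_left (ho2 i)]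
      exact (hcR i).2
    have hblk : ∀ i ∈ (Finset.univ : Finset (Fin n)),
        ((exp ((2 : ℝ) • z i)).trace + (exp (-((2 : ℝ) • z i))).trace) +
        2 * ((exp ((2 : ℝ) • z i) - exp (-((2 : ℝ) • z i))) * (x i + y i)).trace ≤ 2 * R := by
      intro i _
      have c0 := Sum_block (hx.1 i) (hy.1 i) (hz.1 i)
      have c1 := hb1 i
      have c2 := hb2 i
      linarith
    have hsum := Finset.sum_le_sum hblk
    rw [Finset.sum_add_distrib, Finset.sum_const, nsmul_eq_mul, Finset.card_univ,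
      Fintype.card_fin, ← Finset.mul_sum] at hsum
    have hzero : ∑ i, ((exp ((2 : ℝ) • z i) - exp (-((2 : ℝ) • z i))) * (x i + y i)).trace =
        0 := by
      have d1 : ∀ i, ((exp ((2 : ℝ) • z i) - exp (-((2 : ℝ) • z i))) * (x i + y i)).trace =
          ((exp ((2 : ℝ) • z i) - exp (-((2 : ℝ) • z i))) * x i).trace +
          ((exp ((2 : ℝ) • z i) - exp (-((2 : ℝ) • z i))) * y i).trace := fun i => by
        rw [Matrix.mul_add, Matrix.trace_add]
      rw [Finset.sum_congr rfl fun i _ => d1 i, Finset.sum_add_distrib, hzw x hxG, hzw y hyG,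
        ip_comm ν x, ip_comm ν y, h1 x hx, h2 y hy]
      ring
    rw [hzero, mul_zero, add_zero] at hsum
    rw [← hzw ν hν]
    calc ∑ i, ((exp ((2 : ℝ) • z i) - exp (-((2 : ℝ) • z i))) * ν i).trace
        ≤ ∑ i, C * ((exp ((2 : ℝ) • z i)).trace + (exp (-((2 : ℝ) • z i))).trace) :=
          Finset.sum_le_sum fun i _ => (Sum_diff (hz.1 i) (ν i)).trans
            (mul_le_mul_of_nonneg_right (hC i) (Sum_P_nonneg (hz.1 i)))
      _ = C * ∑ i, ((exp ((2 : ℝ) • z i)).trace + (exp (-((2 : ℝ) • z i))).trace) := by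
          rw [Finset.mul_sum]
      _ ≤ C * ((n : ℝ) * (2 * R)) := mul_le_mul_of_nonneg_left hsum hC0
  refine ip_self_zero hsym (le_antisymm ?_ (ip_nonneg hsym))
  by_contra hpos
  rw [not_le] at hpos
  set D : ℝ := C * ((n : ℝ) * (2 * R)) with hD
  have h3 := key ((|D| + 1) / (2 * ip ν ν)) (by positivity)
  have h4 : 2 * ((|D| + 1) / (2 * ip ν ν)) * ip ν ν = |D| + 1 := by
    field_simp
  rw [h4] at h3
  have := le_abs_self D
  linarith

/-- the trace form on a subspace -/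
private def SumB (P : Submodule ℝ (Alg N)) : P →ₗ[ℝ] Module.Dual ℝ P :=
  LinearMap.mk₂ ℝ (fun x y : P => ip y.1 x.1)
    (fun x x' y => by
      unfold ip
      rw [← Finset.sum_add_distrib]
      refine Finset.sum_congr rfl fun i _ => ?_
      rw [Submodule.coe_add, Pi.add_apply, Matrix.mul_add, Matrix.trace_add])
    (fun c x y => by
      unfold ip
      rw [smul_eq_mul, Finset.mul_sum]
      refine Finset.sum_congr rfl fun i _ => ?_
      rw [Submodule.coe_smul, Pi.smul_apply, Matrix.mul_smul, Matrix.trace_smul, smul_eq_mul])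
    (fun x y y' => by
      rw [Submodule.coe_add, ip_add_left])
    (fun c x y => by
      rw [Submodule.coe_smul, ip_smul_left, smul_eq_mul])

theorem sum_gen (hG : SelfAdj G) (hH : SelfAdj H) (hL : SelfAdj L)
    (hHG : H ≤ G) (hLG : L ≤ G) (R : ℝ)
    (hc : ∀ g ∈ G, ∃ l ∈ L, ∃ c ∈ KR N R, ∃ h ∈ H, g = l * c * h) :
    ∀ z ∈ pp G, ∃ x ∈ pp H, ∃ y ∈ pp L, z = x + y := by
  have hinj : Function.Injective (SumB (pS G)) := by
    rw [injective_iff_map_eq_zero]
    intro ν hν0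
    have hν : ν.1 ∈ pp G := (mem_pS hG.closed).1 ν.2
    have h0 : ip ν.1 ν.1 = 0 := by
      have := LinearMap.congr_fun hν0 ν
      exact this
    exact Subtype.ext (ip_self_zero hν.1 h0)
  have hsurj : Function.Surjective (SumB (pS G)) :=
    (LinearMap.injective_iff_surjective_of_finrank_eq_finrank
      (Subspace.dual_finrank_eq (K := ℝ) (V := pS G)).symm).1 hinj
  set p : Submodule ℝ (pS G) := (pS H ⊔ pS L).comap (pS G).subtype with hp
  have htop : p = ⊤ := by
    by_contra hne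
    obtain ⟨f, hf0, hf⟩ := Submodule.exists_le_ker_of_lt_top p (lt_top_iff_ne_top.2 hne)
    obtain ⟨ν, hν⟩ := hsurj f
    apply hf0
    have hνG : ν.1 ∈ pp G := (mem_pS hG.closed).1 ν.2
    have hz : ∀ x : Alg N, x ∈ pS H ⊔ pS L → x ∈ pp G → ip x ν.1 = 0 := by
      intro x hx hxG
      have h3 : (⟨x, (mem_pS hG.closed).2 hxG⟩ : pS G) ∈ p := by
        rw [hp, Submodule.mem_comap]
        exact hx
      have h4 : f ⟨x, (mem_pS hG.closed).2 hxG⟩ = 0 := LinearMap.mem_ker.1 (hf h3)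
      rw [← hν] at h4
      exact h4
    have h5 : ν.1 = 0 := orth_zero_gen hG hH hL hHG hLG R hc hνG
      (fun x hx => hz x (Submodule.mem_sup_left ((mem_pS hH.closed).2 hx)) (pp_mono hHG hx))
      (fun y hy => hz y (Submodule.mem_sup_right ((mem_pS hL.closed).2 hy)) (pp_mono hLG hy))
    have h6 : ν = 0 := Subtype.ext h5
    rw [← hν, h6, map_zero]
  intro z hz
  have h7 : (⟨z, (mem_pS hG.closed).2 hz⟩ : pS G) ∈ p := by
    rw [htop]
    exact Submodule.mem_top
  rw [hp, Submodule.mem_comap] at h7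
  obtain ⟨x, hx, y, hy, hxy⟩ := Submodule.mem_sup.1 h7
  exact ⟨x, (mem_pS hH.closed).1 hx, y, (mem_pS hL.closed).1 hy, hxy.symm⟩

end Pool.Agent.MP_417c68_gt
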