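import Pool.Agent.Lib.MP_417c68_gt_D.Defs

/-!
# MP_417c68_gt, module TrExp: the derivative of the trace of the exponential
-/

noncomputable section

namespace Pool.Agent.MP_417c68_gt

open Matrix NormedSpace

section

attribute [local instance] Matrix.linftyOpNormedRing Matrix.linftyOpNormedAlgebra

/-- the trace as a continuous linear map -/
private def trExp_T (m : ℕ) : Matrix (Fin m) (Fin m) ℝ →L[ℝ] ℝ :=
  LinearMap.toContinuousLinearMap (Matrix.traceLinearMap (Fin m) ℝ ℝ)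

private lemma trExp_T_apply {m : ℕ} (M : Matrix (Fin m) (Fin m) ℝ) : trExp_T m M = M.trace := rfl

private lemma trExp_bd (m : ℕ) : ∃ C : ℝ, 0 < C ∧
    ∀ M : Matrix (Fin m) (Fin m) ℝ, |M.trace| ≤ C * ‖M‖ :=
  (trExp_T m).bound

private lemma trExp_lin {m : ℕ} (A B : Matrix (Fin m) (Fin m) ℝ) (t : ℝ) :
    HasDerivAt (fun s : ℝ => A + s • B) B t := by
  have h1 : HasDerivAt (fun s : ℝ => s • B) ((1 : ℝ) • B) t :=
    (hasDerivAt_id t).smul_const B
  rw [one_smul] at h1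
  exact h1.const_add A

private lemma trExp_pow {m : ℕ} (A B : Matrix (Fin m) (Fin m) ℝ) (t : ℝ) : ∀ k : ℕ,
    ∃ D : Matrix (Fin m) (Fin m) ℝ, HasDerivAt (fun s : ℝ => (A + s • B) ^ k) D t ∧
      ∀ j : ℕ, (D * (A + t • B) ^ j).trace =
        (k : ℝ) * ((A + t • B) ^ (k - 1 + j) * B).trace := by
  intro k
  induction k with
  | zero =>
    refine ⟨0, ?_, fun j => ?_⟩
    · have h1 : (fun s : ℝ => (A + s • B) ^ 0) = fun _ => 1 := by
        funext s
        exact pow_zero _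
      rw [h1]
      exact hasDerivAt_const t 1
    · rw [Nat.cast_zero, zero_mul, zero_mul, Matrix.trace_zero]
  | succ k ih =>
    obtain ⟨D, hD, hD2⟩ := ih
    refine ⟨D * (A + t • B) + (A + t • B) ^ k * B, ?_, fun j => ?_⟩
    · have h1 : (fun s : ℝ => (A + s • B) ^ (k + 1)) =
          fun s => (A + s • B) ^ k * (A + s • B) := by
        funext s
        exact pow_succ _ _
      rw [h1]
      exact hD.mul (trExp_lin A B t)
    · have h1 : (D * (A + t • B) + (A + t • B) ^ k * B) * (A + t • B) ^ j =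
          D * (A + t • B) ^ (j + 1) + (A + t • B) ^ k * B * (A + t • B) ^ j := by
        rw [add_mul, mul_assoc, ← pow_succ']
      have h2 : ((A + t • B) ^ k * B * (A + t • B) ^ j).trace =
          ((A + t • B) ^ (k + j) * B).trace := by
        rw [Matrix.trace_mul_comm, ← mul_assoc, ← pow_add, add_comm j k]
      have h3 : (k : ℝ) * ((A + t • B) ^ (k - 1 + (j + 1)) * B).trace =
          (k : ℝ) * ((A + t • B) ^ (k + j) * B).trace := by
        rcases Nat.eq_zero_or_pos k with h0 | h0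
        · rw [h0, Nat.cast_zero, zero_mul, zero_mul]
        · have h4 : k - 1 + (j + 1) = k + j := by omega
          rw [h4]
      have h5 : k + 1 - 1 + j = k + j := by omega
      rw [h1, Matrix.trace_add, hD2, h2, h3, h5]
      push_cast
      ring

private lemma trExp_norm {m : ℕ} (X B : Matrix (Fin m) (Fin m) ℝ) : ∀ k : ℕ,
    ‖X ^ k * B‖ ≤ ‖X‖ ^ k * ‖B‖ := by
  intro k
  induction k with
  | zero => rw [pow_zero, pow_zero, one_mul, one_mul]
  | succ k ih =>
    rw [pow_succ', mul_assoc]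
    calc ‖X * (X ^ k * B)‖ ≤ ‖X‖ * ‖X ^ k * B‖ := norm_mul_le _ _
      _ ≤ ‖X‖ * (‖X‖ ^ k * ‖B‖) := mul_le_mul_of_nonneg_left ih (norm_nonneg _)
      _ = ‖X‖ ^ (k + 1) * ‖B‖ := by ring

private lemma trExp_main {m : ℕ} (A B : Matrix (Fin m) (Fin m) ℝ) :
    HasDerivAt (fun t : ℝ => (exp (A + t • B)).trace) ((exp A * B).trace) 0 := by
  have hsum : ∀ X : Matrix (Fin m) (Fin m) ℝ,
      HasSum (fun k : ℕ => ((k.factorial : ℝ)⁻¹) * (X ^ k).trace) (exp X).trace := by
    intro X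
    have h1 := (exp_series_hasSum_exp' (𝕂 := ℝ) X).mapL (trExp_T m)
    rw [trExp_T_apply] at h1
    refine h1.congr_fun ?_
    intro k
    rw [trExp_T_apply, Matrix.trace_smul, smul_eq_mul]
  have hfun : (fun t : ℝ => (exp (A + t • B)).trace) =
      fun t => ∑' k : ℕ, ((k.factorial : ℝ)⁻¹) * ((A + t • B) ^ k).trace := by
    funext t
    exact (hsum (A + t • B)).tsum_eq.symm
  have hder : ∀ (k : ℕ) (t : ℝ), HasDerivAt
      (fun s : ℝ => ((k.factorial : ℝ)⁻¹) * ((A + s • B) ^ k).trace)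
      (((k.factorial : ℝ)⁻¹) * ((k : ℝ) * ((A + t • B) ^ (k - 1) * B).trace)) t := by
    intro k t
    obtain ⟨D, hD, hD2⟩ := trExp_pow A B t k
    have h1 : HasDerivAt (fun s : ℝ => ((A + s • B) ^ k).trace) D.trace t :=
      (trExp_T m).hasFDerivAt.comp_hasDerivAt t hD
    have h2 : D.trace = (k : ℝ) * ((A + t • B) ^ (k - 1) * B).trace := by
      have := hD2 0
      rw [pow_zero, mul_one, add_zero] at this
      exact this
    rw [← h2]
    exact h1.const_mul _
  obtain ⟨c, hc0, hc⟩ := trExp_bd m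
  set R : ℝ := ‖A‖ + ‖B‖ with hR
  have hR0 : 0 ≤ R := add_nonneg (norm_nonneg _) (norm_nonneg _)
  have hu : Summable fun k : ℕ => ((k.factorial : ℝ)⁻¹) *
      ((k : ℝ) * (c * (R ^ (k - 1) * ‖B‖))) := by
    rw [← summable_nat_add_iff 1]
    have h1 : (fun k : ℕ => (((k + 1).factorial : ℝ)⁻¹) *
        (((k + 1 : ℕ) : ℝ) * (c * (R ^ (k + 1 - 1) * ‖B‖)))) =
        fun k : ℕ => R ^ k / (k.factorial : ℝ) * (c * ‖B‖) := by
      funext k
      have h2 : ((k : ℝ) + 1) ≠ 0 := Nat.cast_add_one_ne_zero _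
      have h3 : (k.factorial : ℝ) ≠ 0 := Nat.cast_ne_zero.2 (Nat.factorial_ne_zero _)
      rw [Nat.add_sub_cancel, Nat.factorial_succ]
      push_cast
      field_simp
    rw [h1]
    exact (Real.summable_pow_div_factorial R).mul_right _
  have hbound : ∀ (k : ℕ) (t : ℝ), t ∈ Metric.ball (0 : ℝ) 1 →
      ‖((k.factorial : ℝ)⁻¹) * ((k : ℝ) * ((A + t • B) ^ (k - 1) * B).trace)‖ ≤
      ((k.factorial : ℝ)⁻¹) * ((k : ℝ) * (c * (R ^ (k - 1) * ‖B‖))) := by
    intro k t ht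
    rw [Metric.mem_ball, dist_zero_right] at ht
    have h1 : ‖A + t • B‖ ≤ R := by
      calc ‖A + t • B‖ ≤ ‖A‖ + ‖t • B‖ := norm_add_le _ _
        _ = ‖A‖ + ‖t‖ * ‖B‖ := by rw [norm_smul]
        _ ≤ ‖A‖ + 1 * ‖B‖ :=
          add_le_add_right (mul_le_mul_of_nonneg_right ht.le (norm_nonneg _)) _
        _ = R := by rw [one_mul]
    have h2 : |((A + t • B) ^ (k - 1) * B).trace| ≤ c * (R ^ (k - 1) * ‖B‖) := by
      calc |((A + t • B) ^ (k - 1) * B).trace|
          ≤ c * ‖(A + t • B) ^ (k - 1) * B‖ := hc _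
        _ ≤ c * (‖A + t • B‖ ^ (k - 1) * ‖B‖) :=
          mul_le_mul_of_nonneg_left (trExp_norm _ _ _) hc0.le
        _ ≤ c * (R ^ (k - 1) * ‖B‖) :=
          mul_le_mul_of_nonneg_left (mul_le_mul_of_nonneg_right
            (pow_le_pow_left₀ (norm_nonneg _) h1 _) (norm_nonneg _)) hc0.le
    have h3 : (0 : ℝ) ≤ (k.factorial : ℝ)⁻¹ := inv_nonneg.2 (Nat.cast_nonneg _)
    rw [Real.norm_eq_abs, abs_mul, abs_mul, abs_of_nonneg h3, Nat.abs_cast]
    exact mul_le_mul_of_nonneg_left (mul_le_mul_of_nonneg_left h2 (Nat.cast_nonneg _)) h3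
  have h0 : (0 : ℝ) ∈ Metric.ball (0 : ℝ) 1 := Metric.mem_ball_self one_pos
  have hmain := hasDerivAt_tsum_of_isPreconnected hu Metric.isOpen_ball
    (convex_ball (0 : ℝ) 1).isPreconnected (fun k t _ => hder k t) hbound h0
    (hsum (A + (0 : ℝ) • B)).summable h0
  rw [hfun]
  refine hmain.congr_deriv ?_
  have h4 : HasSum (fun k : ℕ => ((k.factorial : ℝ)⁻¹) * (A ^ k * B).trace) (exp A * B).trace := by
    have h1 := ((exp_series_hasSum_exp' (𝕂 := ℝ) A).mul_right B).mapL (trExp_T m)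
    rw [trExp_T_apply] at h1
    refine h1.congr_fun ?_
    intro k
    rw [trExp_T_apply, smul_mul_assoc, Matrix.trace_smul, smul_eq_mul]
  have h5 : HasSum (fun k : ℕ => ((k.factorial : ℝ)⁻¹) *
      ((k : ℝ) * ((A + (0 : ℝ) • B) ^ (k - 1) * B).trace)) (exp A * B).trace := by
    rw [← hasSum_nat_add_iff' 1]
    rw [Finset.sum_range_one, Nat.cast_zero, zero_mul, mul_zero, sub_zero]
    refine h4.congr_fun ?_
    intro k
    have h2 : ((k : ℝ) + 1) ≠ 0 := Nat.cast_add_one_ne_zero _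
    have h3 : (k.factorial : ℝ) ≠ 0 := Nat.cast_ne_zero.2 (Nat.factorial_ne_zero _)
    rw [Nat.add_sub_cancel, Nat.factorial_succ, zero_smul, add_zero]
    push_cast
    field_simp
  exact h5.tsum_eq

end

theorem hasDerivAt_tr_exp {m : ℕ} (A B : Matrix (Fin m) (Fin m) ℝ) :
    HasDerivAt (fun t : ℝ => (exp (A + t • B)).trace) ((exp A * B).trace) 0 :=
  trExp_main A B

end Pool.Agent.MP_417c68_gt
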