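import Pool.Agent.Lib.MP_417c68_gt_D.Blk

/-!
# MP_417c68_gt, module Trans: transitivity on rays in real rank one
-/

noncomputable section

namespace Pool.Agent.MP_417c68_gt

open Matrix NormedSpace

variable {n : ℕ} {N : Fin n → ℕ} {G H L : Subgroup (Alg N)ˣ}

/-- the orbit of `w` under the orthogonal elements of `H` -/
private def transO (H : Subgroup (Alg N)ˣ) (w : Alg N) : Set (Alg N) :=
  (fun k : (Alg N)ˣ => cA k w) '' ((H : Set (Alg N)ˣ) ∩ {k : (Alg N)ˣ | Orth k})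

private theorem transO_closed (hH : SelfAdj H) (w : Alg N) : IsClosed (transO H w) := by
  have hc : Continuous (fun k : (Alg N)ˣ => cA k w) :=
    continuous_cA.comp (continuous_id.prodMk continuous_const)
  exact ((isCompact_orth.inter_left hH.closed).image hc).isClosed

private theorem trans_pm (hH : SelfAdj H) (S : Submodule ℝ (Alg N)) (hS : ∀ x ∈ S, x ∈ pp H)
    (hK : ∀ k ∈ H, Orth k → ∀ x ∈ S, cA k x ∈ S)
    (h1 : ∀ x ∈ S, ∀ y ∈ S, x * y = y * x → ∃ c : ℝ, x = c • y ∨ y = c • x)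
    {u w : Alg N} (hu : u ∈ S) (hw : w ∈ S) (hu1 : ip u u = 1) (hw1 : ip w w = 1) :
    u ∈ transO H w ∨ -u ∈ transO H w := by
  obtain ⟨k, hk, ho, hc⟩ := conj_comm hH (hS w hw) (hS u hu)
  have hn : ip (cA k w) (cA k w) = 1 := by rw [ip_cA, hw1]
  obtain ⟨v, hv⟩ : ∃ v, v = cA k w := ⟨_, rfl⟩
  have hvO : v ∈ transO H w := ⟨k, ⟨hk, ho⟩, hv.symm⟩
  have hvS : v ∈ S := by
    rw [hv]
    exact hK k hk ho w hw
  rw [← hv] at hn hc
  have sq : ∀ c : ℝ, c * (c * 1) = 1 → c = 1 ∨ c = -1 := by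
    intro c h
    have h' : (c - 1) * (c + 1) = 0 := by linarith
    rcases mul_eq_zero.1 h' with h2 | h2
    · left
      linarith
    · right
      linarith
  obtain ⟨c, h | h⟩ := h1 v hvS u hu hc
  · have h2 : c * (c * 1) = 1 := by
      rw [h, ip_smul_left, ip_comm, ip_smul_left, hu1] at hn
      exact hn
    rcases sq c h2 with h3 | h3
    · left
      rw [h3, one_smul] at h
      rw [← h]
      exact hvO
    · right
      rw [h3, neg_one_smul] at h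
      rw [← h]
      exact hvO
  · have h2 : c * (c * 1) = 1 := by
      rw [h, ip_smul_left, ip_comm, ip_smul_left, hn] at hu1
      exact hu1
    rcases sq c h2 with h3 | h3
    · left
      rw [h3, one_smul] at h
      rw [h]
      exact hvO
    · right
      rw [h3, neg_one_smul] at h
      rw [h, neg_neg]
      exact hvO

private theorem trans_neg (hH : SelfAdj H) (S : Submodule ℝ (Alg N)) (hS : ∀ x ∈ S, x ∈ pp H)
    (hK : ∀ k ∈ H, Orth k → ∀ x ∈ S, cA k x ∈ S)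
    (h1 : ∀ x ∈ S, ∀ y ∈ S, x * y = y * x → ∃ c : ℝ, x = c • y ∨ y = c • x)
    (h2 : ∀ z : Alg N, ∃ x ∈ S, ∀ c : ℝ, x ≠ c • z)
    {w : Alg N} (hw : w ∈ S) (hw1 : ip w w = 1) :
    -w ∈ transO H w := by
  obtain ⟨x, hx, hxc⟩ := h2 w
  obtain ⟨y, hy⟩ : ∃ y, y = x - ip x w • w := ⟨_, rfl⟩
  have hyS : y ∈ S := by
    rw [hy]
    exact S.sub_mem hx (S.smul_mem _ hw)
  have hy0 : y ≠ 0 := by
    intro h
    rw [hy, sub_eq_zero] at h
    exact hxc _ h
  have hyw : ip y w = 0 := by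
    rw [hy, ip_sub_left, ip_smul_left, hw1]
    ring
  have hq : 0 < ip y y := by
    refine lt_of_le_of_ne (ip_nonneg (hS y hyS).1) fun h => hy0 ?_
    exact ip_self_zero (hS y hyS).1 h.symm
  obtain ⟨e, he⟩ : ∃ e, e = (1 / √(ip y y)) • y := ⟨_, rfl⟩
  have heS : e ∈ S := by
    rw [he]
    exact S.smul_mem _ hyS
  have hee : ip e e = 1 := by
    rw [he, ip_smul_left, ip_comm y ((1 / √(ip y y)) • y), ip_smul_left]
    have h3 := Real.mul_self_sqrt hq.le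
    have h4 : √(ip y y) ≠ 0 := (Real.sqrt_pos.2 hq).ne'
    field_simp
    rw [pow_two, h3]
  have hew : ip e w = 0 := by
    rw [he, ip_smul_left, hyw, mul_zero]
  have hwe : ip w e = 0 := by rw [ip_comm, hew]
  obtain ⟨γ, hγ⟩ : ∃ γ : ℝ → Alg N, γ = fun θ => Real.cos θ • w + Real.sin θ • e := ⟨_, rfl⟩
  have hγS : ∀ θ, γ θ ∈ S := by
    intro θ
    rw [hγ]
    exact S.add_mem (S.smul_mem _ hw) (S.smul_mem _ heS)
  have hγ1 : ∀ θ, ip (γ θ) (γ θ) = 1 := by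
    intro θ
    rw [hγ]
    show ip (Real.cos θ • w + Real.sin θ • e) (Real.cos θ • w + Real.sin θ • e) = 1
    rw [ip_add_left, ip_smul_left, ip_smul_left, ip_comm w, ip_comm e, ip_add_left, ip_add_left,
      ip_smul_left, ip_smul_left, ip_smul_left, ip_smul_left, hw1, hee, hew, hwe]
    have := Real.cos_sq_add_sin_sq θ
    nlinarith
  have hγc : Continuous γ := by
    rw [hγ]
    exact (Real.continuous_cos.smul continuous_const).add
      (Real.continuous_sin.smul continuous_const)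
  have hγ0 : γ 0 = w := by
    rw [hγ]
    show Real.cos 0 • w + Real.sin 0 • e = w
    rw [Real.cos_zero, Real.sin_zero, one_smul, zero_smul, add_zero]
  have hγπ : γ Real.pi = -w := by
    rw [hγ]
    show Real.cos Real.pi • w + Real.sin Real.pi • e = -w
    rw [Real.cos_pi, Real.sin_pi, neg_one_smul, zero_smul, add_zero]
  have hwO : w ∈ transO H w := ⟨1, ⟨H.one_mem, orth_one⟩, cA_one w⟩
  have hA : IsClosed {θ : ℝ | γ θ ∈ transO H w} := (transO_closed hH w).preimage hγc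
  have hB : IsClosed {θ : ℝ | -γ θ ∈ transO H w} := (transO_closed hH w).preimage hγc.neg
  have hcov : Set.Icc 0 Real.pi ⊆ {θ : ℝ | γ θ ∈ transO H w} ∪ {θ : ℝ | -γ θ ∈ transO H w} :=
    fun θ _ => trans_pm hH S hS hK h1 (hγS θ) hw (hγ1 θ) hw1
  have hpi : (0 : ℝ) ≤ Real.pi := Real.pi_pos.le
  obtain ⟨θ, -, ⟨k, hk, hk2⟩, k', hk', hk2'⟩ :=
    isPreconnected_closed_iff.1 isPreconnected_Icc _ _ hA hB hcov
      ⟨0, ⟨le_refl _, hpi⟩, by
        show γ 0 ∈ transO H w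
        rw [hγ0]
        exact hwO⟩
      ⟨Real.pi, ⟨hpi, le_refl _⟩, by
        show -γ Real.pi ∈ transO H w
        rw [hγπ, neg_neg]
        exact hwO⟩
  refine ⟨k'⁻¹ * k, ⟨H.mul_mem (H.inv_mem hk'.1) hk.1, orth_mul (orth_inv hk'.2) hk.2⟩, ?_⟩
  show cA (k'⁻¹ * k) w = -w
  have e1 : cA k w = γ θ := hk2
  have e2 : cA k' w = -γ θ := hk2'
  have e3 : cA k w = cA k' (-w) := by rw [cA_neg, e1, e2, neg_neg]
  rw [cA_mul, e3, cA_inv_cA]

private theorem trans_unit {x : Alg N} (hx : ∀ i, (x i)ᵀ = x i) (h0 : x ≠ 0) :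
    0 < √(ip x x) ∧ ip ((1 / √(ip x x)) • x) ((1 / √(ip x x)) • x) = 1 := by
  have hq : 0 < ip x x := by
    refine lt_of_le_of_ne (ip_nonneg hx) fun h => h0 ?_
    exact ip_self_zero hx h.symm
  refine ⟨Real.sqrt_pos.2 hq, ?_⟩
  rw [ip_smul_left, ip_comm x ((1 / √(ip x x)) • x), ip_smul_left]
  have h3 := Real.mul_self_sqrt hq.le
  have h4 : √(ip x x) ≠ 0 := (Real.sqrt_pos.2 hq).ne'
  field_simp
  rw [pow_two, h3]

theorem trans_ray (hH : SelfAdj H) (S : Submodule ℝ (Alg N)) (hS : ∀ x ∈ S, x ∈ pp H)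
    (hK : ∀ k ∈ H, Orth k → ∀ x ∈ S, cA k x ∈ S)
    (h1 : ∀ x ∈ S, ∀ y ∈ S, x * y = y * x → ∃ c : ℝ, x = c • y ∨ y = c • x)
    (h2 : ∀ z : Alg N, ∃ x ∈ S, ∀ c : ℝ, x ≠ c • z) {x y : Alg N} (hx : x ∈ S) (hy : y ∈ S)
    (hx0 : x ≠ 0) (hy0 : y ≠ 0) :
    ∃ k ∈ H, Orth k ∧ ∃ c : ℝ, 0 < c ∧ cA k x = c • y := by
  obtain ⟨hxp, hx1⟩ := trans_unit (hS x hx).1 hx0
  obtain ⟨hyp, hy1⟩ := trans_unit (hS y hy).1 hy0
  have hwS : (1 / √(ip x x)) • x ∈ S := S.smul_mem _ hx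
  have huS : (1 / √(ip y y)) • y ∈ S := S.smul_mem _ hy
  have key : (1 / √(ip y y)) • y ∈ transO H ((1 / √(ip x x)) • x) := by
    rcases trans_pm hH S hS hK h1 huS hwS hy1 hx1 with h | ⟨k, hk, hk2⟩
    · exact h
    · obtain ⟨k₁, hk₁, hk₁2⟩ := trans_neg hH S hS hK h1 h2 hwS hx1
      refine ⟨k * k₁, ⟨H.mul_mem hk.1 hk₁.1, orth_mul hk.2 hk₁.2⟩, ?_⟩
      have e1 : cA k ((1 / √(ip x x)) • x) = -((1 / √(ip y y)) • y) := hk2
      have e2 : cA k₁ ((1 / √(ip x x)) • x) = -((1 / √(ip x x)) • x) := hk₁2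
      show cA (k * k₁) ((1 / √(ip x x)) • x) = (1 / √(ip y y)) • y
      rw [cA_mul, e2, cA_neg, e1, neg_neg]
  obtain ⟨k, hk, hk2⟩ := key
  have e1 : cA k ((1 / √(ip x x)) • x) = (1 / √(ip y y)) • y := hk2
  refine ⟨k, hk.1, hk.2, √(ip x x) / √(ip y y), div_pos hxp hyp, ?_⟩
  rw [cA_smul] at e1
  have e2 : cA k x = √(ip x x) • ((1 / √(ip x x)) • cA k x) := by
    rw [smul_smul, mul_one_div, div_self hxp.ne', one_smul]
  rw [e2, e1, smul_smul, mul_one_div]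

end Pool.Agent.MP_417c68_gt
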